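import Mathlib
import Pool.Agent.TH46.NC.Main

/-!
A noncommutative polynomial with nilpotent values on `m × m` matrices vanishes on them.
-/

set_option autoImplicit false
set_option linter.all false

namespace Pool.Agent.TH901.NC

open Matrix Pool.Agent.H552R3.PC Pool.Agent.TH46.NC

variable {K : Type*} [Field K] {σ : Type*} {m : ℕ} [NeZero m]

/-- Generic matrices with weights. -/
noncomputable def gz (K : Type*) [Field K] (σ : Type*) (m : ℕ) [NeZero m] (s : σ) :
    PM m (GA K σ m) :=
  Matrix.of fun j k => MvPolynomial.C (MvPolynomial.X (s, j, k)) * MvPolynomial.X (k - j)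

/-- Homogeneous entries. -/
noncomputable def hz (K A : Type*) [CommRing K] [CommRing A] [Algebra K A] (m : ℕ) [NeZero m] :
    Subalgebra K (PM m A) where
  carrier := {M | ∀ j k, MvPolynomial.IsWeightedHomogeneous (id : Fin m → Fin m) (M j k) (k - j)}
  mul_mem' := by
    intro M P hM hP j k
    rw [mul_apply]
    refine MvPolynomial.IsWeightedHomogeneous.sum _ _ _ (fun l _ => ?_)
    have h := (hM j l).mul (hP l k)
    have e : l - j + (k - l) = k - j := by abel
    rw [e] at h
    exact h
  add_mem' := by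
    intro M P hM hP j k
    exact (hM j k).add (hP j k)
  algebraMap_mem' := by
    intro c j k
    rw [algebraMap_matrix_apply]
    by_cases h : j = k
    · subst h
      rw [if_pos rfl, sub_self, IsScalarTower.algebraMap_apply K A (MvPolynomial (Fin m) A)]
      exact MvPolynomial.isWeightedHomogeneous_C _ _
    · rw [if_neg h]
      exact MvPolynomial.isWeightedHomogeneous_zero _ _ _

theorem pow_shift {A : Type*} [CommRing A] [IsDomain A] (L : Matrix (Fin m) (Fin m) A)
    (γ : Fin m) (h0 : ∀ j k, L j k ≠ 0 → k - j = γ) (h1 : ∀ j, L j (j + γ) ≠ 0) (ν : ℕ) :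
    L ^ ν ≠ 0 := by
  have h2 : ∀ (t : ℕ) (j : Fin m), ∃ k, (L ^ t) j k ≠ 0 := by
    intro t
    induction t with
    | zero => intro j; exact ⟨j, by rw [pow_zero, Matrix.one_apply_eq]; exact one_ne_zero⟩
    | succ t ih =>
      intro j
      obtain ⟨k, hk⟩ := ih (j + γ)
      refine ⟨k, ?_⟩
      rw [pow_succ', mul_apply, Finset.sum_eq_single (j + γ)]
      · exact mul_ne_zero (h1 j) hk
      · intro b _ hb
        have : L j b = 0 := by
          by_contra h
          have := h0 j b h
          exact hb (by rw [← this]; abel)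
        rw [this, zero_mul]
      · intro h; exact absurd (Finset.mem_univ _) h
  intro h
  obtain ⟨k, hk⟩ := h2 ν 0
  rw [h] at hk
  exact hk rfl

/-- The matrices `X_s(j, k) z_{k - j}`. -/
noncomputable def wz (X : σ → Matrix (Fin m) (Fin m) K) (s : σ) : PM m K :=
  Matrix.of fun j k => MvPolynomial.C (X s j k) * MvPolynomial.X (k - j)

theorem gz_map (X : σ → Matrix (Fin m) (Fin m) K) (f : FreeAlgebra K σ) :
    (MvPolynomial.mapAlgHom (spz X : GA K σ m →ₐ[K] K)).mapMatrix
      (FreeAlgebra.lift K (gz K σ m) f) = FreeAlgebra.lift K (wz X) f := by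
  rw [lift_map]
  refine congrArg (fun W => FreeAlgebra.lift K W f) ?_
  funext s
  ext1 j k
  have h1 : (MvPolynomial.mapAlgHom (spz X : GA K σ m →ₐ[K] K)).mapMatrix (gz K σ m s) j k =
    MvPolynomial.map (spz X : GA K σ m →ₐ[K] K).toRingHom
      (MvPolynomial.C (MvPolynomial.X (s, j, k)) * MvPolynomial.X (k - j)) := rfl
  have h2 : (spz X : GA K σ m →ₐ[K] K).toRingHom (MvPolynomial.X (s, j, k)) = X s j k :=
    MvPolynomial.aeval_X _ _
  rw [h1, map_mul, MvPolynomial.map_C, MvPolynomial.map_X, h2]
  rfl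

theorem gz_one (X : σ → Matrix (Fin m) (Fin m) K) (f : FreeAlgebra K σ) :
    (MvPolynomial.aeval (fun _ => (1 : K)) : MvPolynomial (Fin m) K →ₐ[K] K).mapMatrix
      (FreeAlgebra.lift K (wz X) f) = FreeAlgebra.lift K X f := by
  rw [lift_map]
  refine congrArg (fun W => FreeAlgebra.lift K W f) ?_
  funext s
  ext1 j k
  have h1 : (MvPolynomial.aeval (fun _ => (1 : K)) :
      MvPolynomial (Fin m) K →ₐ[K] K).mapMatrix (wz X s) j k =
    MvPolynomial.aeval (fun _ => (1 : K)) (MvPolynomial.C (X s j k) *
      MvPolynomial.X (k - j)) := rfl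
  rw [h1, map_mul, MvPolynomial.aeval_C, MvPolynomial.aeval_X, mul_one]
  rfl

theorem zero_of_nil [Infinite K] (f : FreeAlgebra K σ) (ν : ℕ)
    (h : ∀ X : σ → Matrix (Fin m) (Fin m) K, (FreeAlgebra.lift K X f) ^ ν = 0) 
    (X : σ → Matrix (Fin m) (Fin m) K) : FreeAlgebra.lift K X f = 0 := by
  set F := FreeAlgebra.lift K (gz K σ m) f with hF
  have hpow : F ^ ν = 0 := by
    rw [hF, ← map_pow]
    exact transfer (f ^ ν) (fun X => by rw [map_pow]; exact h X) _
  have hF0 : F = 0 := by
    by_contra hne
    obtain ⟨θ, hθ, hθ0⟩ := exists_lead F hne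
    have h1 := Ld_pow hθ ν
    rw [hpow, Ld_zero] at h1
    have hmem : F ∈ hz K (GA K σ m) m := by
      refine lift_mem _ _ (fun s j k => ?_) f
      show MvPolynomial.IsWeightedHomogeneous (id : Fin m → Fin m)
        (MvPolynomial.C (MvPolynomial.X (s, j, k)) * MvPolynomial.X (k - j)) (k - j)
      have h2 := (MvPolynomial.isWeightedHomogeneous_C (R := GA K σ m) (id : Fin m → Fin m)
        (MvPolynomial.X (s, j, k))).mul
        (MvPolynomial.isWeightedHomogeneous_X (R := GA K σ m) (id : Fin m → Fin m) (k - j))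
      rw [zero_add] at h2
      exact h2
    have hw : ∀ j k, Ld θ F j k ≠ 0 → k - j = Finsupp.weight (id : Fin m → Fin m) θ :=
      fun j k hjk => (hmem j k hjk).symm
    have htr : ∀ g j k, Ld θ F (j + g) (k + g) =
        MvPolynomial.rename (fun p : σ × Fin m × Fin m => (p.1, p.2.1 + g, p.2.2 + g))
          (Ld θ F j k) := by
      intro g j k
      set ρ : GA K σ m →ₐ[K] GA K σ m :=
        MvPolynomial.rename (fun p : σ × Fin m × Fin m => (p.1, p.2.1 + g, p.2.2 + g)) with hρ
      have e1 : F.submatrix (Equiv.addRight g) (Equiv.addRight g) =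
          (MvPolynomial.mapAlgHom ρ).mapMatrix F := by
        rw [hF, ← lift_perm, lift_map]
        congr 2
        funext s
        ext1 j k
        show MvPolynomial.C (MvPolynomial.X (s, j + g, k + g)) * MvPolynomial.X (k + g - (j + g)) =
          MvPolynomial.map ρ.toRingHom
            (MvPolynomial.C (MvPolynomial.X (s, j, k)) * MvPolynomial.X (k - j))
        rw [map_mul, MvPolynomial.map_C, MvPolynomial.map_X]
        have : k + g - (j + g) = k - j := by abel
        rw [this]
        congr 2
        show _ = ρ (MvPolynomial.X (s, j, k))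
        rw [hρ, MvPolynomial.rename_X]
      have e2 := congrFun (congrFun e1 j) k
      have e3 := congrArg (MvPolynomial.coeff θ) e2
      simp only [submatrix_apply, Equiv.coe_addRight, AlgHom.mapMatrix_apply, Matrix.map_apply] at e3
      show MvPolynomial.coeff θ (F (j + g) (k + g)) = ρ (MvPolynomial.coeff θ (F j k))
      rw [e3]
      show MvPolynomial.coeff θ (MvPolynomial.map ρ.toRingHom (F j k)) = _
      rw [MvPolynomial.coeff_map]; rfl
    obtain ⟨j0, k0, hjk⟩ : ∃ j k, Ld θ F j k ≠ 0 := by
      by_contra hcon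
      push Not at hcon
      exact hθ0 (by ext1 j k; exact hcon j k)
    have hγ := hw j0 k0 hjk
    refine pow_shift (Ld θ F) _ hw (fun j => ?_) ν h1.symm
    rw [← hγ]
    have h3 := htr (j - j0) j0 k0
    have e4 : j0 + (j - j0) = j := by abel
    have e5 : k0 + (j - j0) = j + (k0 - j0) := by abel
    rw [e4, e5] at h3
    rw [h3]
    intro h4
    apply hjk
    refine MvPolynomial.rename_injective _ ?_ (h4.trans (map_zero _).symm)
    rintro ⟨s, a, b⟩ ⟨s', a', b'⟩ hh
    simp only [Prod.mk.injEq] at hh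
    obtain ⟨r1, r2, r3⟩ := hh
    rw [Prod.mk.injEq, Prod.mk.injEq]
    exact ⟨r1, add_right_cancel r2, add_right_cancel r3⟩
  have e1 := gz_map X f
  rw [← hF, hF0, map_zero] at e1
  rw [← gz_one X f, ← e1, map_zero]

end Pool.Agent.TH901.NC
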