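import Mathlib

/-!
Abstract walk systems: the combinatorial part of the proof that a power-central polynomial with few
letters different from `x` is central.
-/

set_option autoImplicit false
set_option linter.all false

namespace Pool.Agent.TH901.NC

open Matrix Polynomial

section TwoCycle

variable {R : Type*} [CommRing R] [IsDomain R] {V : Type*} [Fintype V] [DecidableEq V]

theorem two_cycle (P : Matrix V V R) (a b c : V) (hca : c ≠ a) (hcb : c ≠ b)
    (h0 : ∀ u w, w ≠ a → w ≠ b → P u w = 0) (haa : P a a = 0) (hbb : P b b = 0)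
    (ν : ℕ) (hν : 0 < ν) (s : R) (hs : P ^ ν = Matrix.scalar V s) : P a b * P b a = 0 := by
  have hs0 : s = 0 := by
    obtain ⟨m, rfl⟩ : ∃ m, ν = m + 1 := ⟨ν - 1, by omega⟩
    have h1 : (P ^ (m + 1)) c c = 0 := by
      rw [pow_succ, mul_apply]
      exact Finset.sum_eq_zero fun k _ => by rw [h0 k c hca hcb, mul_zero]
    rw [hs] at h1
    simpa using h1
  have h2 : ∀ j, (P ^ 2) a j = if j = a then P a b * P b a else 0 := by
    intro j
    rw [pow_two, mul_apply, Finset.sum_eq_single b]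
    · split_ifs with h
      · rw [h]
      · by_cases hb : j = b
        · rw [hb, hbb, mul_zero]
        · rw [h0 b j h hb, mul_zero]
    · intro k _ hk
      by_cases hka : k = a
      · rw [hka, haa, zero_mul]
      · rw [h0 a k hka hk, zero_mul]
    · intro h; exact absurd (Finset.mem_univ _) h
  have h3 : ∀ m : ℕ, ((P ^ 2) ^ m) a a = (P a b * P b a) ^ m := by
    intro m
    induction m with
    | zero => simp
    | succ m ih =>
      rw [pow_succ', mul_apply, Finset.sum_eq_single a]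
      · rw [h2, if_pos rfl, ih, pow_succ']
      · intro k _ hk; rw [h2, if_neg hk, zero_mul]
      · intro h; exact absurd (Finset.mem_univ _) h
  have h4 := h3 ν
  rw [← pow_mul, mul_comm, pow_mul, hs, hs0, map_zero, zero_pow two_ne_zero] at h4
  exact (pow_eq_zero_iff hν.ne').mp h4.symm

/-- The first coefficient of the power of a perturbation of a scalar matrix. -/
theorem pow_perturb {R : Type*} [CommRing R] {V : Type*} [Fintype V] [DecidableEq V]
    (c : R) (B : Matrix V V R[X]) (ν : ℕ) : ∃ E : Matrix V V R[X],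
      ((Matrix.scalar V (C c) : Matrix V V R[X]) + (X : R[X]) • B) ^ ν =
        (Matrix.scalar V (C (c ^ ν)) : Matrix V V R[X]) +
          (X : R[X]) • ((C (ν * c ^ (ν - 1)) : R[X]) • B) + (X ^ 2 : R[X]) • E := by
  induction ν with
  | zero => exact ⟨0, by simp⟩
  | succ m ih =>
    obtain ⟨E, hE⟩ := ih
    refine ⟨(C c : R[X]) • E + (C (m * c ^ (m - 1)) : R[X]) • (B * B) + (X : R[X]) • (E * B), ?_⟩
    rw [pow_succ, hE]
    have hsc : ∀ (r : R[X]) (Z : Matrix V V R[X]), Z * Matrix.scalar V r = r • Z := by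
      intro r Z; ext a b; simp [mul_comm]
    have hsc' : ∀ (r : R[X]) (Z : Matrix V V R[X]), Matrix.scalar V r * Z = r • Z := by
      intro r Z; ext a b; simp
    rw [mul_add, add_mul, add_mul, add_mul, add_mul, hsc, hsc, hsc]
    rw [Matrix.mul_smul, Matrix.mul_smul, Matrix.mul_smul, hsc']
    have e1 : (C c : R[X]) • (Matrix.scalar V (C (c ^ m)) : Matrix V V R[X]) =
        Matrix.scalar V (C (c ^ (m + 1))) := by
      ext a b
      by_cases h : a = b
      · subst h; simp [pow_succ, mul_comm]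
      · simp [Matrix.diagonal_apply_ne _ h]
    rw [e1]
    simp only [Matrix.smul_mul, smul_smul, smul_add]
    have e2 : ((C (((m + 1 : ℕ) : R) * c ^ (m + 1 - 1)) : R[X])) =
        C (c ^ m) + C c * C ((m : R) * c ^ (m - 1)) := by
      rw [← C_mul, ← C_add]
      congr 1
      rcases Nat.eq_zero_or_pos m with rfl | hm
      · simp
      · have : c ^ m = c * c ^ (m - 1) := by rw [← pow_succ']; congr 1; omega
        simp only [Nat.add_sub_cancel, this]
        push_cast
        ring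
    rw [e2]
    ext1 a b
    simp only [Matrix.add_apply, Matrix.smul_apply, smul_eq_mul]
    ring

theorem pow_perturb_coeff {R : Type*} [CommRing R] {V : Type*} [Fintype V] [DecidableEq V]
    (c : R) (B : Matrix V V R[X]) (ν : ℕ) (s : R[X])
    (hs : ((Matrix.scalar V (C c) : Matrix V V R[X]) + (X : R[X]) • B) ^ ν = Matrix.scalar V s)
    (a b : V) (hab : a ≠ b) : (ν : R) * c ^ (ν - 1) * (B a b).coeff 0 = 0 := by
  obtain ⟨E, hE⟩ := pow_perturb c B ν
  rw [hs] at hE
  have h := congrArg (fun p => Polynomial.coeff p 1) (congrFun (congrFun hE a) b)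
  simp only [Matrix.add_apply, Matrix.smul_apply, smul_eq_mul, Matrix.scalar_apply,
    Matrix.diagonal_apply_ne _ hab] at h
  rw [coeff_zero, coeff_add, coeff_add, coeff_zero, zero_add, coeff_X_mul, coeff_C_mul,
    show (X ^ 2 : R[X]) * E a b = X * (X * E a b) by ring, coeff_X_mul, mul_coeff_zero,
    coeff_X_zero, zero_mul, add_zero] at h
  exact h.symm

end TwoCycle

/-- Walk systems: the values `g` at walks of length `N + 1` on `N + 1` vertices. -/
structure WS (K A : Type*) [Field K] [CommRing A] [Algebra K A] (N ν : ℕ) where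
  g : (Fin (N + 2) → Fin (N + 1)) → A
  φ : (Fin (N + 1) → Fin (N + 1) → A[X]) → (A →+* A[X])
  hφ : ∀ ε v, φ ε (g v) = (∏ k : Fin (N + 1), ε (v k.castSucc) (v k.succ)) * C (g v)
  ψ : Equiv.Perm (Fin (N + 1)) → (A →ₐ[K] A)
  hψ : ∀ τ v, ψ τ (g v) = g (τ ∘ v)
  hψi : ∀ τ, Function.Injective (ψ τ)
  root : ∀ a b : A[X], a ≠ 0 → a ^ ν = b ^ ν → ∃ ζ : K, b = C (algebraMap K A ζ) * a
  M : Matrix (Fin (N + 1)) (Fin (N + 1)) A
  hM : ∀ u w, M u w = ∑ v : Fin (N + 2) → Fin (N + 1),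
    if v 0 = u ∧ v (Fin.last _) = w ∧ Function.Surjective v then g v else 0
  s : A
  hs : M ^ ν = Matrix.scalar _ s

/-- The walk `u, τ 0, …, τ N`. -/
def cw {N : ℕ} (u : Fin (N + 1)) (τ : Fin (N + 1) → Fin (N + 1)) : Fin (N + 2) → Fin (N + 1) :=
  Fin.cons u τ

@[simp] theorem cw_zero {N : ℕ} (u : Fin (N + 1)) (τ : Fin (N + 1) → Fin (N + 1)) :
    cw u τ 0 = u := rfl

@[simp] theorem cw_succ {N : ℕ} (u : Fin (N + 1)) (τ : Fin (N + 1) → Fin (N + 1))
    (k : Fin (N + 1)) : cw u τ k.succ = τ k := rfl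

theorem comp_cw {N : ℕ} (σ : Fin (N + 1) → Fin (N + 1)) (u : Fin (N + 1))
    (τ : Fin (N + 1) → Fin (N + 1)) : σ ∘ cw u τ = cw (σ u) (σ ∘ τ) := by
  funext k
  refine Fin.cases ?_ (fun k => ?_) k
  · rfl
  · rfl

theorem prod_cw {N : ℕ} {R : Type*} [CommRing R] (ε : Fin (N + 1) → Fin (N + 1) → R)
    (u : Fin (N + 1)) (τ : Fin (N + 1) → Fin (N + 1)) :
    ∏ k : Fin (N + 1), ε (cw u τ k.castSucc) (cw u τ k.succ) =
      ε u (τ 0) * ∏ k : Fin N, ε (τ k.castSucc) (τ k.succ) := by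
  rw [Fin.prod_univ_succ]
  congr 1

namespace WS

variable {K A : Type*} [Field K] [CommRing A] [IsDomain A] [Algebra K A] {N ν : ℕ}
  (W : WS K A N ν)

/-- The standard values. -/
def x (e : Fin (N + 1)) : A := W.g (cw e id)

theorem g_cw (u : Fin (N + 1)) (τ : Equiv.Perm (Fin (N + 1))) :
    W.g (cw u τ) = W.ψ τ (W.x (τ.symm u)) := by
  rw [x, W.hψ, comp_cw]
  simp

theorem g_cw_zero (u : Fin (N + 1)) (τ : Equiv.Perm (Fin (N + 1)))
    (h : W.x (τ.symm u) = 0) : W.g (cw u τ) = 0 := by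
  rw [g_cw, h, map_zero]

/-- The hypothesis that only walks of column type contribute. -/
def Col : Prop := ∀ u w, W.M u w = ∑ τ : Equiv.Perm (Fin (N + 1)),
  if τ (Fin.last N) = w then W.g (cw u τ) else 0

/-- The specialised matrix. -/
noncomputable def P (ε : Fin (N + 1) → Fin (N + 1) → A[X]) :
    Matrix (Fin (N + 1)) (Fin (N + 1)) A[X] := (W.φ ε).mapMatrix W.M

theorem P_pow (ε : Fin (N + 1) → Fin (N + 1) → A[X]) :
    ∃ s, W.P ε ^ ν = Matrix.scalar _ s := by
  refine ⟨W.φ ε W.s, ?_⟩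
  rw [P, ← map_pow, W.hs]
  ext1 a b
  by_cases h : a = b
  · subst h; simp
  · simp [Matrix.diagonal_apply_ne _ h]

theorem P_apply (hc : W.Col) (ε : Fin (N + 1) → Fin (N + 1) → A[X]) (u w : Fin (N + 1)) :
    W.P ε u w = ∑ τ : Equiv.Perm (Fin (N + 1)), if τ (Fin.last N) = w then
      (ε u (τ 0) * ∏ k : Fin N, ε (τ k.castSucc) (τ k.succ)) * C (W.g (cw u τ)) else 0 := by
  have : W.P ε u w = W.φ ε (W.M u w) := rfl
  rw [this, hc, map_sum]
  refine Finset.sum_congr rfl fun τ _ => ?_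
  split_ifs
  · rw [W.hφ, prod_cw]
  · rw [map_zero]

/-- The walk `(u; τ)` runs in `G` from `u` to `w`. -/
def Adm (G : Fin (N + 1) → Fin (N + 1) → Prop) (u w : Fin (N + 1))
    (τ : Equiv.Perm (Fin (N + 1))) : Prop :=
  τ (Fin.last N) = w ∧ G u (τ 0) ∧ ∀ k : Fin N, G (τ k.castSucc) (τ k.succ)

open Classical in
/-- The matrix of a digraph. -/
noncomputable def Q (G : Fin (N + 1) → Fin (N + 1) → Prop) :
    Matrix (Fin (N + 1)) (Fin (N + 1)) A := Matrix.of fun u w =>
  ∑ τ : Equiv.Perm (Fin (N + 1)), if Adm G u w τ then W.g (cw u τ) else 0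

open Classical in
theorem P_G (hc : W.Col) (G : Fin (N + 1) → Fin (N + 1) → Prop) :
    W.P (fun i j => if G i j then 1 else 0) = (C : A →+* A[X]).mapMatrix (W.Q G) := by
  ext1 u w
  rw [P_apply W hc, RingHom.mapMatrix_apply, Matrix.map_apply, Q, Matrix.of_apply, map_sum]
  refine Finset.sum_congr rfl fun τ _ => ?_
  have hA : ∀ (h1 : Adm G u w τ), (if Adm G u w τ then W.g (cw u τ) else 0) = W.g (cw u τ) :=
    fun h1 => if_pos h1
  have hB : ∀ (h1 : ¬ Adm G u w τ), (if Adm G u w τ then W.g (cw u τ) else 0) = 0 :=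
    fun h1 => if_neg h1
  by_cases h : τ (Fin.last N) = w
  · rw [if_pos h, Finset.prod_ite_zero]
    by_cases h1 : G u (τ 0)
    · by_cases h2 : ∀ k ∈ (Finset.univ : Finset (Fin N)), G (τ k.castSucc) (τ k.succ)
      · rw [if_pos h1, if_pos h2, hA ⟨h, h1, fun k => h2 k (Finset.mem_univ _)⟩]
        simp
      · rw [if_neg h2, hB (fun hh => h2 fun k _ => hh.2.2 k)]
        simp
    · rw [if_neg h1, hB (fun hh => h1 hh.2.1)]
      simp
  · rw [if_neg h, hB (fun hh => h hh.1), map_zero]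

theorem Q_pow (hc : W.Col) (G : Fin (N + 1) → Fin (N + 1) → Prop) :
    ∃ s, W.Q G ^ ν = Matrix.scalar _ s := by
  classical
  obtain ⟨s, hs⟩ := W.P_pow (fun i j => if G i j then 1 else 0)
  refine ⟨s.coeff 0, ?_⟩
  rw [W.P_G hc, ← map_pow] at hs
  ext1 a b
  have h := congrArg (fun p => Polynomial.coeff p 0) (congrFun (congrFun hs a) b)
  simp only [RingHom.mapMatrix_apply, Matrix.map_apply, coeff_C_zero] at h
  rw [h]
  by_cases h : a = b
  · subst h; simp
  · simp [Matrix.diagonal_apply_ne _ h]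

theorem Q_zero (G : Fin (N + 1) → Fin (N + 1) → Prop) (u w : Fin (N + 1))
    (h : ∀ τ, Adm G u w τ → W.g (cw u τ) = 0) : W.Q G u w = 0 := by
  classical
  rw [Q, Matrix.of_apply]
  refine Finset.sum_eq_zero fun τ _ => ?_
  split_ifs with h1
  · exact h τ h1
  · rfl

theorem Q_one (G : Fin (N + 1) → Fin (N + 1) → Prop) (u w : Fin (N + 1))
    (τ₀ : Equiv.Perm (Fin (N + 1))) (h0 : Adm G u w τ₀)
    (h : ∀ τ, Adm G u w τ → τ = τ₀) : W.Q G u w = W.g (cw u τ₀) := by
  classical
  rw [Q, Matrix.of_apply, Finset.sum_eq_single τ₀]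
  · rw [if_pos h0]
  · intro τ _ hτ
    rw [if_neg (fun h1 => hτ (h τ h1))]
  · intro h1; exact absurd (Finset.mem_univ _) h1

/-- Automorphisms of the digraph. -/
theorem Q_aut (G : Fin (N + 1) → Fin (N + 1) → Prop) (θ : Equiv.Perm (Fin (N + 1)))
    (hθ : ∀ i j, G (θ i) (θ j) ↔ G i j) (u w : Fin (N + 1)) :
    W.Q G (θ u) (θ w) = W.ψ θ (W.Q G u w) := by
  classical
  rw [Q, Matrix.of_apply, Matrix.of_apply, map_sum]
  rw [← Equiv.sum_comp (Equiv.mulLeft θ)]
  refine Finset.sum_congr rfl fun τ _ => ?_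
  have h1 : Adm G (θ u) (θ w) (Equiv.mulLeft θ τ) ↔ Adm G u w τ := by
    simp only [Adm, Equiv.coe_mulLeft, Equiv.Perm.coe_mul, Function.comp_apply, hθ,
      EmbeddingLike.apply_eq_iff_eq]
  by_cases h : Adm G u w τ
  · rw [if_pos (h1.mpr h), if_pos h, W.hψ, comp_cw]
    rfl
  · rw [if_neg (fun hh => h (h1.mp hh)), if_neg h, map_zero]

end WS

end Pool.Agent.TH901.NC
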