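import Mathlib
import Pool.Agent.TH901.NC.Abs

/-!
Positions of the vertices in an admissible walk.
-/

set_option autoImplicit false
set_option linter.all false

namespace Pool.Agent.TH901.NC

open WS

variable {N : ℕ}

/-- The position of the vertex `j`. -/
def pos (τ : Equiv.Perm (Fin (N + 1))) (j : ℕ) : ℕ :=
  if h : j < N + 1 then (τ.symm ⟨j, h⟩).val else 0

theorem pos_val (τ : Equiv.Perm (Fin (N + 1))) (j : Fin (N + 1)) :
    pos τ j.val = (τ.symm j).val := by
  rw [pos, dif_pos j.isLt]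

theorem pos_apply (τ : Equiv.Perm (Fin (N + 1))) (k : Fin (N + 1)) :
    pos τ (τ k).val = k.val := by
  rw [pos_val, Equiv.symm_apply_apply]

theorem pos_le (τ : Equiv.Perm (Fin (N + 1))) (j : ℕ) : pos τ j ≤ N := by
  rw [pos]; split_ifs with h
  · have := (τ.symm ⟨j, h⟩).isLt; omega
  · omega

theorem pos_inj (τ : Equiv.Perm (Fin (N + 1))) {i j : ℕ} (hi : i < N + 1) (hj : j < N + 1)
    (h : pos τ i = pos τ j) : i = j := by
  rw [pos, pos, dif_pos hi, dif_pos hj] at h
  have := τ.symm.injective (Fin.ext h)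
  exact congrArg Fin.val this

/-- The relation on vertices given by a relation on naturals. -/
def rel (H : ℕ → ℕ → Prop) : Fin (N + 1) → Fin (N + 1) → Prop := fun i j => H i.val j.val

variable {H : ℕ → ℕ → Prop} {u w : Fin (N + 1)} {τ : Equiv.Perm (Fin (N + 1))}

theorem adm_last (hA : Adm (rel H) u w τ) : pos τ w.val = N := by
  rw [← hA.1, pos_apply]; rfl

theorem adm_first (hA : Adm (rel H) u w τ) : ∃ t, t < N + 1 ∧ pos τ t = 0 ∧ H u.val t :=
  ⟨(τ 0).val, (τ 0).isLt, by rw [pos_apply]; rfl, hA.2.1⟩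

theorem adm_pred (hA : Adm (rel H) u w τ) {j : ℕ} (hj : j < N + 1) (h0 : pos τ j ≠ 0) :
    ∃ i, i < N + 1 ∧ pos τ i + 1 = pos τ j ∧ H i j := by
  obtain ⟨k, hk⟩ : ∃ k, τ k = ⟨j, hj⟩ := τ.surjective _
  have h1 : pos τ j = k.val := by
    have := pos_apply τ k
    rw [hk] at this; exact this
  have hk0 : k ≠ 0 := by
    rintro rfl; exact h0 h1
  obtain ⟨m, rfl⟩ := Fin.exists_succ_eq.mpr hk0
  refine ⟨(τ m.castSucc).val, (τ m.castSucc).isLt, ?_, ?_⟩
  · rw [pos_apply, h1]; rfl
  · have := hA.2.2 m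
    rw [rel, hk] at this; exact this

theorem adm_succ (hA : Adm (rel H) u w τ) {i : ℕ} (hi : i < N + 1) (h0 : pos τ i ≠ N) :
    ∃ j, j < N + 1 ∧ pos τ j = pos τ i + 1 ∧ H i j := by
  obtain ⟨k, hk⟩ : ∃ k, τ k = ⟨i, hi⟩ := τ.surjective _
  have h1 : pos τ i = k.val := by
    have := pos_apply τ k
    rw [hk] at this; exact this
  have hk0 : k ≠ Fin.last N := by
    rintro rfl; exact h0 h1
  obtain ⟨m, rfl⟩ := Fin.exists_castSucc_eq.mpr hk0
  refine ⟨(τ m.succ).val, (τ m.succ).isLt, ?_, ?_⟩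
  · rw [pos_apply, h1]; rfl
  · have := hA.2.2 m
    rw [rel, hk] at this; exact this

theorem perm_eq_one (h : ∀ j, j < N + 1 → pos τ j = j) : τ = 1 := by
  have : τ.symm = 1 := by
    ext j
    have := h j.val j.isLt
    rw [pos_val] at this
    exact this
  have h2 := congrArg Equiv.symm this
  rw [Equiv.symm_symm] at h2
  exact h2

theorem run {a b : ℕ} (h : ∀ j, a < j → j < b → pos τ (j - 1) + 1 = pos τ j) :
    ∀ k, a ≤ k → k < b → pos τ k = pos τ a + (k - a) := by
  intro k hk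
  induction k, hk using Nat.le_induction with
  | base => intro _; omega
  | succ k hk ih =>
    intro hb
    have := h (k + 1) (by omega) hb
    rw [Nat.add_sub_cancel] at this
    rw [← this, ih (by omega)]
    omega

theorem disj {a b la lb : ℕ} (ha : ∀ k, a ≤ k → k < a + la → pos τ k = pos τ a + (k - a))
    (hb : ∀ k, b ≤ k → k < b + lb → pos τ k = pos τ b + (k - b)) (hla : 0 < la) (hlb : 0 < lb)
    (hN : b + lb ≤ N + 1) (hab : a + la ≤ b) :
    pos τ a + la ≤ pos τ b ∨ pos τ b + lb ≤ pos τ a := by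
  by_contra hcon
  push Not at hcon
  obtain ⟨h1, h2⟩ := hcon
  rcases le_total (pos τ a) (pos τ b) with h | h
  · have e := ha (a + (pos τ b - pos τ a)) (by omega) (by omega)
    have e2 : pos τ (a + (pos τ b - pos τ a)) = pos τ b := by rw [e]; omega
    have := pos_inj τ (by omega) (by omega) e2
    omega
  · have e := hb (b + (pos τ a - pos τ b)) (by omega) (by omega)
    have e2 : pos τ (b + (pos τ a - pos τ b)) = pos τ a := by rw [e]; omega
    have := pos_inj τ (by omega) (by omega) e2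
    omega

/-- Three segments. -/
theorem seg3 {p q : ℕ} (hp : 0 < p) (hpq : p < q) (hq : q < N + 1)
    (hH : ∀ i j, H i j → j ≠ 0 → j ≠ p → j ≠ q → i + 1 = j)
    (hA : Adm (rel H) u w τ)
    (hst : pos τ 0 = 0 ∨ pos τ p = 0 ∨ pos τ q = 0) :
    (∀ k, k < p → pos τ k = pos τ 0 + k) ∧
    (∀ k, p ≤ k → k < q → pos τ k = pos τ p + (k - p)) ∧
    (∀ k, q ≤ k → k < N + 1 → pos τ k = pos τ q + (k - q)) ∧
    (pos τ 0 + p ≤ pos τ p ∨ pos τ p + (q - p) ≤ pos τ 0) ∧
    (pos τ 0 + p ≤ pos τ q ∨ pos τ q + (N + 1 - q) ≤ pos τ 0) ∧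
    (pos τ p + (q - p) ≤ pos τ q ∨ pos τ q + (N + 1 - q) ≤ pos τ p) ∧
    pos τ 0 + p ≤ N + 1 ∧ pos τ p + (q - p) ≤ N + 1 ∧ pos τ q + (N + 1 - q) ≤ N + 1 := by
  have h1 : ∀ j, j < N + 1 → j ≠ 0 → j ≠ p → j ≠ q → pos τ (j - 1) + 1 = pos τ j := by
    intro j hj h0 hp' hq'
    have hne : pos τ j ≠ 0 := by
      intro hz
      rcases hst with h | h | h
      · exact h0 (pos_inj τ hj (by omega) (hz.trans h.symm))
      · exact hp' (pos_inj τ hj (by omega) (hz.trans h.symm))
      · exact hq' (pos_inj τ hj (by omega) (hz.trans h.symm))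
    obtain ⟨i, hi, h2, h3⟩ := adm_pred hA hj hne
    have h4 := hH i j h3 h0 hp' hq'
    rw [← h4, Nat.add_sub_cancel, h4, h2]
  have ra := run (τ := τ) (a := 0) (b := p) (fun j h2 h3 => h1 j (by omega) (by omega) (by omega)
    (by omega))
  have rb := run (τ := τ) (a := p) (b := q) (fun j h2 h3 => h1 j (by omega) (by omega) (by omega)
    (by omega))
  have rc := run (τ := τ) (a := q) (b := N + 1) (fun j h2 h3 => h1 j (by omega) (by omega)
    (by omega) (by omega))
  refine ⟨fun k hk => by have := ra k (by omega) hk; omega, rb, rc, ?_, ?_, ?_, ?_, ?_, ?_⟩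
  · have := disj (τ := τ) (a := 0) (b := p) (la := p) (lb := q - p)
      (fun k h2 h3 => ra k h2 (by omega)) (fun k h2 h3 => rb k h2 (by omega)) hp (by omega)
      (by omega) (by omega)
    exact this
  · have := disj (τ := τ) (a := 0) (b := q) (la := p) (lb := N + 1 - q)
      (fun k h2 h3 => ra k h2 (by omega)) (fun k h2 h3 => rc k h2 (by omega)) hp (by omega)
      (by omega) (by omega)
    exact this
  · have := disj (τ := τ) (a := p) (b := q) (la := q - p) (lb := N + 1 - q)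
      (fun k h2 h3 => rb k h2 (by omega)) (fun k h2 h3 => rc k h2 (by omega)) (by omega) (by omega)
      (by omega) (by omega)
    exact this
  · have := ra (p - 1) (by omega) (by omega)
    have := pos_le τ (p - 1)
    omega
  · have := rb (q - 1) (by omega) (by omega)
    have := pos_le τ (q - 1)
    omega
  · have := rc N (by omega) (by omega)
    have := pos_le τ N
    omega

/-- The first vertex is the start of a segment. -/
theorem start3 {p q : ℕ} (hq : q < N + 1)
    (hH : ∀ i j, H i j → j ≠ 0 → j ≠ p → j ≠ q → i + 1 = j)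
    (hH2 : ∀ i j, H i j → i + 1 = j ∨ i + 1 = p ∨ i + 1 = q ∨ i = N)
    (hA : Adm (rel H) u w τ) (huw : u ≠ w) :
    ∃ t, (t = 0 ∨ t = p ∨ t = q) ∧ t < N + 1 ∧ pos τ t = 0 ∧ H u.val t := by
  obtain ⟨t, ht, ht0, hut⟩ := adm_first hA
  refine ⟨t, ?_, ht, ht0, hut⟩
  by_contra hcon
  push Not at hcon
  obtain ⟨h0, h1, h2⟩ := hcon
  have h3 := hH _ _ hut h0 h1 h2
  have h4 : pos τ u.val ≠ N := by
    intro h
    exact huw (Fin.ext (pos_inj τ u.isLt w.isLt (h.trans (adm_last hA).symm)))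
  obtain ⟨j, hj, hj1, hj2⟩ := adm_succ hA u.isLt h4
  have h5 := u.isLt
  rcases hH2 _ _ hj2 with h | h | h | h
  · have : j = t := by omega
    subst this
    omega
  · omega
  · omega
  · omega

end Pool.Agent.TH901.NC
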