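import Mathlib
import Pool.Agent.TH901.NC.Seg

/-!
The standard values vanish, except possibly the last one.
-/

set_option autoImplicit false
set_option linter.all false

namespace Pool.Agent.TH901.NC

open WS Polynomial

variable {N : ℕ}

theorem rot {G : Fin (N + 1) → Fin (N + 1) → Prop} {u : Fin (N + 1)}
    {τ : Equiv.Perm (Fin (N + 1))} (hA : Adm G u u τ) :
    ∃ (u' : Fin (N + 1)) (τ' : Equiv.Perm (Fin (N + 1))), Adm G u' u' τ' ∧ τ' 0 = 0 := by
  have hcyc : ∀ i : Fin (N + 1), G (τ i) (τ (i + 1)) := by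
    intro i
    refine Fin.lastCases ?_ (fun k => ?_) i
    · rw [Fin.last_add_one, hA.1]; exact hA.2.1
    · rw [Fin.coeSucc_eq_succ]; exact hA.2.2 k
  set k0 := τ.symm 0 with hk0
  refine ⟨τ (k0 + Fin.last N), (Equiv.addLeft k0).trans τ, ⟨?_, ?_, fun k => ?_⟩, ?_⟩
  · rfl
  · have := hcyc (k0 + Fin.last N)
    rw [add_assoc, Fin.last_add_one] at this
    exact this
  · have := hcyc (k0 + k.castSucc)
    rw [add_assoc, Fin.coeSucc_eq_succ] at this
    exact this
  · show τ (k0 + 0) = 0
    rw [add_zero, hk0, Equiv.apply_symm_apply]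

section A

/-- The digraph with two disjoint cycles. -/
def Ha (N p q : ℕ) : ℕ → ℕ → Prop := fun i j =>
  i + 1 = j ∨ (i + 1 = p ∧ j = 0) ∨ (i + 1 = q ∧ j = 0) ∨ (i = N ∧ j = p) ∨ (i = N ∧ j = q)

theorem Ha_data {p q : ℕ} (hp : 0 < p) (hpq : p < q) (hq : q < N + 1)
    {u w : Fin (N + 1)} {τ : Equiv.Perm (Fin (N + 1))} (hA : Adm (rel (Ha N p q)) u w τ)
    (hst : pos τ 0 = 0 ∨ pos τ p = 0 ∨ pos τ q = 0) :
    (pos τ 0 = 0 ∨ pos τ p + (q - p) = pos τ 0) ∧
    (pos τ p = 0 ∨ pos τ 0 + p = pos τ p ∨ pos τ q + (N + 1 - q) = pos τ p) ∧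
    (pos τ q = 0 ∨ pos τ p + (q - p) = pos τ q) := by
  obtain ⟨S1, S2, S3, -⟩ := seg3 hp hpq hq
    (by intro i j h; simp only [Ha] at h; omega) hA hst
  have e1 := S1 (p - 1) (by omega)
  have e2 := S2 (q - 1) (by omega) (by omega)
  have e3 := S3 N (by omega) (by omega)
  refine ⟨?_, ?_, ?_⟩
  · by_cases h0 : pos τ 0 = 0
    · exact Or.inl h0
    · obtain ⟨i, hi, h1, h2⟩ := adm_pred hA (by omega) h0
      simp only [Ha] at h2
      have : i = p - 1 ∨ i = q - 1 := by omega
      rcases this with rfl | rfl <;> omega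
  · by_cases h0 : pos τ p = 0
    · exact Or.inl h0
    · obtain ⟨i, hi, h1, h2⟩ := adm_pred hA (by omega) h0
      simp only [Ha] at h2
      have : i = p - 1 ∨ i = N := by omega
      rcases this with rfl | rfl <;> omega
  · by_cases h0 : pos τ q = 0
    · exact Or.inl h0
    · obtain ⟨i, hi, h1, h2⟩ := adm_pred hA (by omega) h0
      simp only [Ha] at h2
      have : i = q - 1 ∨ i = N := by omega
      rcases this with rfl | rfl <;> omega

theorem Ha_closed {p q : ℕ} (hp : 0 < p) (hpq : p < q) (hq : q < N + 1)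
    {u : Fin (N + 1)} {τ : Equiv.Perm (Fin (N + 1))} (hA : Adm (rel (Ha N p q)) u u τ) :
    False := by
  obtain ⟨u', τ', hA', h0⟩ := rot hA
  have hz : pos τ' 0 = 0 := by
    have := pos_apply τ' 0
    rw [h0] at this; exact this
  have hl := adm_last hA'
  obtain ⟨S1, S2, S3, S4, S5, S6, S7, S8, S9⟩ := seg3 hp hpq hq
    (by intro i j h; simp only [Ha] at h; omega) hA' (Or.inl hz)
  obtain ⟨d1, d2, d3⟩ := Ha_data hp hpq hq hA' (Or.inl hz)
  have h1 := hA'.2.1
  rw [h0] at h1
  simp only [rel, Ha, Fin.val_zero] at h1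
  have h2 : u'.val = p - 1 ∨ u'.val = q - 1 := by omega
  have e1 := S1 (p - 1) (by omega)
  have e2 := S2 (q - 1) (by omega) (by omega)
  rcases h2 with h2 | h2 <;> rw [h2] at hl <;> omega

theorem Ha_open {p q : ℕ} (hp : 0 < p) (hpq : p < q) (hq : q < N + 1)
    {u w : Fin (N + 1)} {τ : Equiv.Perm (Fin (N + 1))} (hA : Adm (rel (Ha N p q)) u w τ)
    (huw : u ≠ w) : (w.val = p - 1 ∨ w.val = N) ∧
      (w.val = N → τ = 1) := by
  obtain ⟨t, ht, htN, ht0, hut⟩ := start3 (p := p) hq
    (by intro i j h; simp only [Ha] at h; omega)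
    (by intro i j h; simp only [Ha] at h; omega) hA huw
  have hst : pos τ 0 = 0 ∨ pos τ p = 0 ∨ pos τ q = 0 := by
    rcases ht with rfl | rfl | rfl
    · exact Or.inl ht0
    · exact Or.inr (Or.inl ht0)
    · exact Or.inr (Or.inr ht0)
  obtain ⟨S1, S2, S3, S4, S5, S6, S7, S8, S9⟩ := seg3 hp hpq hq
    (by intro i j h; simp only [Ha] at h; omega) hA hst
  obtain ⟨d1, d2, d3⟩ := Ha_data hp hpq hq hA hst
  have hl := adm_last hA
  have hw := w.isLt
  have hwc : (w.val < p ∧ pos τ 0 + w.val = N) ∨ (p ≤ w.val ∧ w.val < q ∧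
      pos τ p + (w.val - p) = N) ∨ (q ≤ w.val ∧ pos τ q + (w.val - q) = N) := by
    by_cases h1 : w.val < p
    · left; refine ⟨h1, ?_⟩; rw [← S1 _ h1]; exact hl
    · by_cases h2 : w.val < q
      · right; left; refine ⟨by omega, h2, ?_⟩; rw [← S2 _ (by omega) h2]; exact hl
      · right; right; refine ⟨by omega, ?_⟩; rw [← S3 _ (by omega) hw]; exact hl
  refine ⟨by omega, fun hwN => ?_⟩
  have hC : pos τ q = q := by omega
  have hB : pos τ p = p := by omega
  have hA0 : pos τ 0 = 0 := by omega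
  refine perm_eq_one fun j hj => ?_
  by_cases h1 : j < p
  · rw [S1 _ h1]; omega
  · by_cases h2 : j < q
    · rw [S2 _ (by omega) h2]; omega
    · rw [S3 _ (by omega) hj]; omega

/-- The exchange of the first and the last segment. -/
def θa (N p : ℕ) (hp : 2 * p < N + 1) : Equiv.Perm (Fin (N + 1)) :=
  Function.Involutive.toPerm (fun j => ⟨if j.val < p then j.val + (N + 1 - p) else
    if j.val < N + 1 - p then j.val else j.val - (N + 1 - p), by
      have := j.isLt; split_ifs <;> omega⟩) (by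
      intro j
      apply Fin.ext
      have := j.isLt
      simp only
      split_ifs <;> omega)

variable {K A : Type*} [Field K] [CommRing A] [IsDomain A] [Algebra K A] {ν : ℕ}
  (W : WS K A N ν)

theorem killA (hc : W.Col) (hν : 0 < ν) (e : Fin (N + 1)) (he : 2 * (e.val + 1) < N + 1) :
    W.x e = 0 := by
  set p := e.val + 1 with hp
  set q := N + 1 - p with hq
  set G := (rel (Ha N p q) : Fin (N + 1) → Fin (N + 1) → Prop) with hG
  set b : Fin (N + 1) := Fin.last N with hb
  set c : Fin (N + 1) := ⟨p, by omega⟩ with hcc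
  obtain ⟨s, hs⟩ := W.Q_pow hc G
  have hcl : ∀ u, W.Q G u u = 0 := fun u =>
    W.Q_zero G u u fun τ hτ => (Ha_closed (by omega) (by omega) (by omega) hτ).elim
  have h0 : ∀ u w, w ≠ e → w ≠ b → W.Q G u w = 0 := by
    intro u w hwe hwb
    by_cases huw : u = w
    · rw [huw]; exact hcl w
    · refine W.Q_zero G u w fun τ hτ => ?_
      exfalso
      rcases (Ha_open (by omega) (by omega) (by omega) hτ huw).1 with h | h
      · exact hwe (Fin.ext (by omega))
      · exact hwb (Fin.ext h)
  have hab : W.Q G e b = W.x e := by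
    have : W.Q G e b = W.g (cw e (1 : Equiv.Perm (Fin (N + 1)))) := by
      refine W.Q_one G e b 1 ⟨rfl, ?_, fun k => Or.inl rfl⟩ fun τ hτ => ?_
      · right; left; exact ⟨rfl, rfl⟩
      · refine (Ha_open (by omega) (by omega) (by omega) hτ ?_).2 rfl
        intro h
        have := congrArg Fin.val h
        simp only [hb, Fin.val_last] at this
        omega
    rw [this]; rfl
  have hθ : ∀ i j, G (θa N p he i) (θa N p he j) ↔ G i j := by
    intro i j
    have hi := i.isLt
    have hj := j.isLt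
    show Ha N p q _ _ ↔ Ha N p q _ _
    simp only [Ha, θa, Function.Involutive.toPerm, Equiv.coe_fn_mk]
    split_ifs <;> omega
  have hθe : θa N p he e = b := by
    apply Fin.ext
    show (if e.val < p then e.val + (N + 1 - p) else
      if e.val < N + 1 - p then e.val else e.val - (N + 1 - p)) = N
    rw [if_pos (by omega)]; omega
  have hθb : θa N p he b = e := by
    apply Fin.ext
    show (if N < p then N + (N + 1 - p) else
      if N < N + 1 - p then N else N - (N + 1 - p)) = e.val
    rw [if_neg (by omega), if_neg (by omega)]; omega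
  have hba : W.Q G b e = W.ψ (θa N p he) (W.x e) := by
    rw [← hab, ← W.Q_aut G _ hθ, hθe, hθb]
  have h2 := two_cycle (W.Q G) e b c (by
      intro h; have := congrArg Fin.val h; simp only [hcc] at this; omega) (by
      intro h; have := congrArg Fin.val h; simp only [hcc, hb, Fin.val_last] at this; omega)
    h0 (hcl e) (hcl b) ν hν s hs
  rw [hab, hba] at h2
  rcases mul_eq_zero.mp h2 with h | h
  · exact h
  · exact W.hψi _ (h.trans (map_zero _).symm)

end A

end Pool.Agent.TH901.NC
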