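import Mathlib
import Pool.Agent.TH901.NC.Kill

/-!
The standard values vanish if the last one does.
-/

set_option autoImplicit false
set_option linter.all false

namespace Pool.Agent.TH901.NC

open WS Polynomial

variable {N : ℕ}

/-- The complete digraph on three segments. -/
def Hb (N p q : ℕ) : ℕ → ℕ → Prop := fun i j =>
  i + 1 = j ∨ (i + 1 = p ∧ j = q) ∨ (i + 1 = q ∧ j = 0) ∨ (i = N ∧ j = 0) ∨ (i = N ∧ j = p)

theorem Hb_data {p q : ℕ} (hp : 0 < p) (hpq : p < q) (hq : q < N + 1)
    {u w : Fin (N + 1)} {τ : Equiv.Perm (Fin (N + 1))} (hA : Adm (rel (Hb N p q)) u w τ)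
    (hst : pos τ 0 = 0 ∨ pos τ p = 0 ∨ pos τ q = 0) :
    (pos τ 0 = 0 ∨ pos τ p + (q - p) = pos τ 0 ∨ pos τ q + (N + 1 - q) = pos τ 0) ∧
    (pos τ p = 0 ∨ pos τ 0 + p = pos τ p ∨ pos τ q + (N + 1 - q) = pos τ p) ∧
    (pos τ q = 0 ∨ pos τ p + (q - p) = pos τ q ∨ pos τ 0 + p = pos τ q) := by
  obtain ⟨S1, S2, S3, -⟩ := seg3 hp hpq hq
    (by intro i j h; simp only [Hb] at h; omega) hA hst
  have e1 := S1 (p - 1) (by omega)
  have e2 := S2 (q - 1) (by omega) (by omega)
  have e3 := S3 N (by omega) (by omega)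
  refine ⟨?_, ?_, ?_⟩
  · by_cases h0 : pos τ 0 = 0
    · exact Or.inl h0
    · obtain ⟨i, hi, h1, h2⟩ := adm_pred hA (by omega) h0
      simp only [Hb] at h2
      have : i = q - 1 ∨ i = N := by omega
      rcases this with rfl | rfl <;> omega
  · by_cases h0 : pos τ p = 0
    · exact Or.inl h0
    · obtain ⟨i, hi, h1, h2⟩ := adm_pred hA (by omega) h0
      simp only [Hb] at h2
      have : i = p - 1 ∨ i = N := by omega
      rcases this with rfl | rfl <;> omega
  · by_cases h0 : pos τ q = 0
    · exact Or.inl h0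
    · obtain ⟨i, hi, h1, h2⟩ := adm_pred hA (by omega) h0
      simp only [Hb] at h2
      have : i = q - 1 ∨ i = p - 1 := by omega
      rcases this with rfl | rfl <;> omega

theorem Hb_open {p q : ℕ} (hp : 0 < p) (hpq : p < q) (hq : q < N + 1)
    (hd : N + 1 - q = q - p)
    {u w : Fin (N + 1)} {τ : Equiv.Perm (Fin (N + 1))} (hA : Adm (rel (Hb N p q)) u w τ)
    (huw : u ≠ w) : (w.val = q - 1 ∨ w.val = N ∨ pos τ u.val = 2 * (N + 1 - q) - 1) ∧
      (w.val = N → u.val = q - 1 → τ = 1) := by
  obtain ⟨t, ht, htN, ht0, hut⟩ := start3 (p := p) hq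
    (by intro i j h; simp only [Hb] at h; omega)
    (by intro i j h; simp only [Hb] at h; omega) hA huw
  have hst : pos τ 0 = 0 ∨ pos τ p = 0 ∨ pos τ q = 0 := by
    rcases ht with rfl | rfl | rfl
    · exact Or.inl ht0
    · exact Or.inr (Or.inl ht0)
    · exact Or.inr (Or.inr ht0)
  obtain ⟨S1, S2, S3, S4, S5, S6, S7, S8, S9⟩ := seg3 hp hpq hq
    (by intro i j h; simp only [Hb] at h; omega) hA hst
  obtain ⟨d1, d2, d3⟩ := Hb_data hp hpq hq hA hst
  have hl := adm_last hA
  have hw := w.isLt
  have hu := u.isLt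
  have huw' : u.val ≠ w.val := fun h => huw (Fin.ext h)
  have hwc : (w.val < p ∧ pos τ 0 + w.val = N) ∨ (p ≤ w.val ∧ w.val < q ∧
      pos τ p + (w.val - p) = N) ∨ (q ≤ w.val ∧ pos τ q + (w.val - q) = N) := by
    by_cases h1 : w.val < p
    · left; refine ⟨h1, ?_⟩; rw [← S1 _ h1]; exact hl
    · by_cases h2 : w.val < q
      · right; left; refine ⟨by omega, h2, ?_⟩; rw [← S2 _ (by omega) h2]; exact hl
      · right; right; refine ⟨by omega, ?_⟩; rw [← S3 _ (by omega) hw]; exact hl
  have huc : (u.val < p ∧ pos τ u.val = pos τ 0 + u.val) ∨ (p ≤ u.val ∧ u.val < q ∧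
      pos τ u.val = pos τ p + (u.val - p)) ∨ (q ≤ u.val ∧ pos τ u.val = pos τ q + (u.val - q)) := by
    by_cases h1 : u.val < p
    · left; exact ⟨h1, S1 _ h1⟩
    · by_cases h2 : u.val < q
      · right; left; exact ⟨by omega, h2, S2 _ (by omega) h2⟩
      · right; right; exact ⟨by omega, S3 _ (by omega) hu⟩
  simp only [Hb] at hut
  have ht' : (t = 0 ∧ pos τ 0 = 0 ∧ (u.val = q - 1 ∨ u.val = N)) ∨
      (t = p ∧ pos τ p = 0 ∧ (u.val = p - 1 ∨ u.val = N)) ∨
      (t = q ∧ pos τ q = 0 ∧ (u.val = q - 1 ∨ u.val = p - 1)) := by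
    rcases ht with rfl | rfl | rfl
    · left; exact ⟨rfl, ht0, by omega⟩
    · right; left; exact ⟨rfl, ht0, by omega⟩
    · right; right; exact ⟨rfl, ht0, by omega⟩
  refine ⟨?_, fun hwN huq => ?_⟩
  · clear S1 S2 S3 hA ht hst hut
    by_contra hcon
    push Not at hcon
    obtain ⟨c1, c2, c3⟩ := hcon
    have hwp : w.val = p - 1 ∧ pos τ 0 + p = N + 1 := by omega
    omega
  · have hC : pos τ q = q := by omega
    have hA0 : pos τ 0 = 0 := by omega
    have hB : pos τ p = p := by omega
    refine perm_eq_one fun j hj => ?_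
    by_cases h1 : j < p
    · rw [S1 _ h1]; omega
    · by_cases h2 : j < q
      · rw [S2 _ (by omega) h2]; omega
      · rw [S3 _ (by omega) hj]; omega

/-- The exchange of the last two segments, on numbers. -/
def tb (p d j : ℕ) : ℕ := if j < p then j else if j < p + d then j + d else j - d

theorem tb_tb {N p d j : ℕ} (hp : p + 2 * d = N + 1) (hj : j < N + 1) : tb p d (tb p d j) = j := by
  simp only [tb]
  split_ifs <;> omega

theorem tb_lt {N p d j : ℕ} (hp : p + 2 * d = N + 1) (hj : j < N + 1) : tb p d j < N + 1 := by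
  simp only [tb]
  split_ifs <;> omega

theorem Hb_aut {N p q d : ℕ} (hp : p + 2 * d = N + 1) (hq : q = p + d) (hp0 : 0 < p ∧ 0 < d)
    {i j : ℕ} (hi : i < N + 1) (hj : j < N + 1) (h : Hb N p q i j) :
    Hb N p q (tb p d i) (tb p d j) := by
  obtain ⟨h1, h2⟩ := hp0
  simp only [Hb] at h ⊢
  rcases h with h | h | h | h | h
  · subst h
    simp only [tb]
    by_cases c1 : i + 1 < p
    · left
      rw [if_pos (by omega), if_pos (by omega)]
    · by_cases c2 : i < p
      · right; left
        rw [if_pos c2, if_neg c1, if_pos (by omega)]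
        omega
      · by_cases c3 : i + 1 < p + d
        · left
          rw [if_neg c2, if_pos (by omega), if_neg c1, if_pos c3]
          omega
        · by_cases c4 : i < p + d
          · right; right; right; right
            rw [if_neg c2, if_pos c4, if_neg c1, if_neg c3]
            omega
          · left
            rw [if_neg c2, if_neg c4, if_neg c1, if_neg c3]
            omega
  · obtain ⟨h, rfl⟩ := h
    left
    simp only [tb]
    rw [if_pos (by omega), if_neg (by omega), if_neg (by omega)]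
    omega
  · obtain ⟨h, rfl⟩ := h
    right; right; right; left
    simp only [tb]
    rw [if_neg (by omega), if_pos (by omega), if_pos (by omega)]
    omega
  · obtain ⟨rfl, rfl⟩ := h
    right; right; left
    simp only [tb]
    rw [if_neg (by omega), if_neg (by omega), if_pos (by omega)]
    omega
  · obtain ⟨rfl, rfl⟩ := h
    left
    simp only [tb]
    rw [if_neg (by omega), if_neg (by omega), if_neg (by omega), if_pos (by omega)]
    omega

/-- The exchange of the last two segments. -/
def θb (N p d : ℕ) (hp : p + 2 * d = N + 1) : Equiv.Perm (Fin (N + 1)) :=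
  Function.Involutive.toPerm (fun j => ⟨tb p d j.val, tb_lt hp j.isLt⟩) (by
      intro j
      apply Fin.ext
      exact tb_tb hp j.isLt)

variable {K A : Type*} [Field K] [CommRing A] [IsDomain A] [Algebra K A] {ν : ℕ}
  (W : WS K A N ν)

theorem killB (hc : W.Col) (hν : 0 < ν) (e e' : Fin (N + 1)) (he : N + 1 < 2 * (e.val + 1))
    (heN : e.val < N) (hF : W.x (Fin.last N) = 0) (he' : e'.val = 2 * (N - e.val) - 1)
    (hx : W.x e' = 0) : W.x e = 0 := by
  set q := e.val + 1 with hq
  set d := N + 1 - q with hd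
  set p := 2 * q - (N + 1) with hp
  have hpd : p + 2 * d = N + 1 := by omega
  set G := (rel (Hb N p q) : Fin (N + 1) → Fin (N + 1) → Prop) with hG
  set b : Fin (N + 1) := Fin.last N with hb
  set c : Fin (N + 1) := ⟨p - 1, by omega⟩ with hcc
  obtain ⟨s, hs⟩ := W.Q_pow hc G
  have hcl : ∀ u, W.Q G u u = 0 := by
    intro u
    refine W.Q_zero G u u fun τ hτ => W.g_cw_zero u τ ?_
    have : τ.symm u = Fin.last N := by
      rw [Equiv.symm_apply_eq]; exact hτ.1.symm
    rw [this, hF]
  have h0 : ∀ u w, w ≠ e → w ≠ b → W.Q G u w = 0 := by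
    intro u w hwe hwb
    by_cases huw : u = w
    · rw [huw]; exact hcl w
    · refine W.Q_zero G u w fun τ hτ => W.g_cw_zero u τ ?_
      rcases (Hb_open (by omega) (by omega) (by omega) (by omega) hτ huw).1 with h | h | h
      · exact absurd (Fin.ext (by omega)) hwe
      · exact absurd (Fin.ext h) hwb
      · have : τ.symm u = e' := by
          apply Fin.ext
          rw [← pos_val, h, he']; omega
        rw [this, hx]
  have hab : W.Q G e b = W.x e := by
    have : W.Q G e b = W.g (cw e (1 : Equiv.Perm (Fin (N + 1)))) := by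
      refine W.Q_one G e b 1 ⟨rfl, ?_, fun k => Or.inl rfl⟩ fun τ hτ => ?_
      · right; right; left; exact ⟨rfl, rfl⟩
      · refine (Hb_open (by omega) (by omega) (by omega) (by omega) hτ ?_).2 rfl rfl
        intro h
        have := congrArg Fin.val h
        simp only [hb, Fin.val_last] at this
        omega
    rw [this]; rfl
  have hθ1 : ∀ i j, G i j → G (θb N p d hpd i) (θb N p d hpd j) := by
    intro i j hij
    exact Hb_aut (by omega) (by omega) (by omega) i.isLt j.isLt hij
  have hinv : ∀ i, θb N p d hpd (θb N p d hpd i) = i := by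
    intro i
    apply Fin.ext
    have := i.isLt
    exact tb_tb (by omega) this
  have hθ : ∀ i j, G (θb N p d hpd i) (θb N p d hpd j) ↔ G i j := by
    intro i j
    refine ⟨fun h => ?_, hθ1 i j⟩
    have := hθ1 _ _ h
    rwa [hinv, hinv] at this
  have hθe : θb N p d hpd e = b := by
    apply Fin.ext
    show tb p d e.val = N
    rw [tb]
    rw [if_neg (by omega), if_pos (by omega)]; omega
  have hθb : θb N p d hpd b = e := by
    apply Fin.ext
    show tb p d N = e.val
    rw [tb]
    rw [if_neg (by omega), if_neg (by omega)]; omega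
  have hba : W.Q G b e = W.ψ (θb N p d hpd) (W.x e) := by
    rw [← hab, ← W.Q_aut G _ hθ, hθe, hθb]
  have h2 := two_cycle (W.Q G) e b c (by
      intro h; have := congrArg Fin.val h; simp only [hcc] at this; omega) (by
      intro h; have := congrArg Fin.val h; simp only [hcc, hb, Fin.val_last] at this; omega)
    h0 (hcl e) (hcl b) ν hν s hs
  rw [hab, hba] at h2
  rcases mul_eq_zero.mp h2 with h | h
  · exact h
  · exact W.hψi _ (h.trans (map_zero _).symm)

/-- If the closed walks do not contribute, nothing does. -/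
theorem kill_all (hc : W.Col) (hν : 0 < ν) (h3 : ¬ 3 ∣ N + 1) (h2 : ¬ 2 ∣ N + 1)
    (hF : W.x (Fin.last N) = 0) : ∀ e, W.x e = 0 := by
  have key : ∀ (m : ℕ) (e : Fin (N + 1)),
      3 * (N + 1) - m ≤ max (3 * (e.val + 1) - 2 * (N + 1)) (2 * (N + 1) - 3 * (e.val + 1)) →
      W.x e = 0 := by
    intro m
    induction m using Nat.strong_induction_on with
    | _ m ih =>
      intro e he
      have heN := e.isLt
      by_cases h1 : e.val = N
      · have : e = Fin.last N := Fin.ext h1
        rw [this, hF]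
      by_cases h4 : 2 * (e.val + 1) < N + 1
      · exact killA W hc hν e h4
      have h5 : N + 1 < 2 * (e.val + 1) := by omega
      have h6 : 2 * (N - e.val) - 1 < N + 1 := by omega
      refine killB W hc hν e ⟨2 * (N - e.val) - 1, h6⟩ h5 (by omega) hF rfl ?_
      set D := max (3 * (e.val + 1) - 2 * (N + 1)) (2 * (N + 1) - 3 * (e.val + 1)) with hD
      have hD0 : 0 < D := by omega
      have hD3 : D < 3 * (N + 1) := by omega
      refine ih (3 * (N + 1) - 2 * D) (by omega) _ ?_
      simp only
      omega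
  intro e
  exact key (3 * (N + 1)) e (by omega)

end Pool.Agent.TH901.NC
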