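import Mathlib
import Pool.Agent.TH901.NC.KillB

/-!
Closed walks: the two orientations of a cycle.
-/

set_option autoImplicit false
set_option linter.all false

namespace Pool.Agent.TH901.NC

open WS Polynomial
open scoped Fin.CommRing

variable {N : ℕ}

theorem steps {τ : Equiv.Perm (Fin (N + 1))} (δ : Fin (N + 1))
    (h : ∀ k : Fin N, τ k.succ = τ k.castSucc + δ ∨ τ k.succ = τ k.castSucc - δ)
    (h0 : ∀ hN : 0 < N, τ (⟨0, hN⟩ : Fin N).succ = τ (⟨0, hN⟩ : Fin N).castSucc + δ) :
    ∀ k : Fin N, τ k.succ = τ k.castSucc + δ := by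
  have key : ∀ (m : ℕ) (hm : m < N), τ (⟨m, hm⟩ : Fin N).succ = τ (⟨m, hm⟩ : Fin N).castSucc + δ := by
    intro m
    induction m with
    | zero => intro hm; exact h0 hm
    | succ m ih =>
      intro hm
      have h1 := ih (by omega)
      rcases h ⟨m + 1, hm⟩ with h2 | h2
      · exact h2
      · exfalso
        have e : (⟨m + 1, hm⟩ : Fin N).castSucc = (⟨m, by omega⟩ : Fin N).succ := rfl
        rw [e, h1, add_sub_cancel_right] at h2
        have h3 := τ.injective h2
        have h4 := congrArg Fin.val h3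
        simp only [Fin.val_succ, Fin.val_castSucc] at h4
        omega
  intro k
  exact key k.val k.isLt

theorem run_eq {τ : Equiv.Perm (Fin (N + 1))} (δ : Fin (N + 1)) (hδ : δ = 1 ∨ δ = -1)
    (h : ∀ k : Fin N, τ k.succ = τ k.castSucc + δ) (k : Fin (N + 1)) : τ k = τ 0 + δ * k := by
  induction k using Fin.induction with
  | zero => rw [mul_zero, add_zero]
  | succ k ih =>
    rw [h k, ih, ← Fin.coeSucc_eq_succ, mul_add, mul_one, add_assoc]

theorem last_eq : (Fin.last N : Fin (N + 1)) = -1 := by
  rw [eq_neg_iff_add_eq_zero, Fin.last_add_one]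

/-- An admissible walk on the bidirected cycle runs around or turns at once. -/
theorem bidir (hN : 2 ≤ N) {u : Fin (N + 1)} {τ : Equiv.Perm (Fin (N + 1))}
    (hu : τ 0 = u + 1 ∨ u = τ 0 + 1)
    (h : ∀ k : Fin N, τ k.succ = τ k.castSucc + 1 ∨ τ k.castSucc = τ k.succ + 1) :
    τ = Equiv.addLeft (u + 1) ∨ τ = Equiv.subLeft (u - 1) ∨ τ.symm u = 1 := by
  have h' : ∀ k : Fin N, τ k.succ = τ k.castSucc + 1 ∨ τ k.succ = τ k.castSucc - 1 := by
    intro k
    rcases h k with h1 | h1
    · exact Or.inl h1
    · right; rw [h1, add_sub_cancel_right]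
  have hone : (1 : Fin (N + 1)) = (⟨0, by omega⟩ : Fin N).succ := by
    apply Fin.ext
    simp only [Fin.val_succ]
    rw [Fin.val_one', Nat.mod_eq_of_lt (by omega)]
  have hzero : (0 : Fin (N + 1)) = (⟨0, by omega⟩ : Fin N).castSucc := rfl
  rcases h' ⟨0, by omega⟩ with h1 | h1
  · have h2 := run_eq 1 (Or.inl rfl) (steps 1 h' (fun _ => h1))
    rcases hu with hu | hu
    · left
      ext1 k
      rw [h2, hu, one_mul]; rfl
    · right; right
      rw [Equiv.symm_apply_eq, h2, hu, one_mul]
  · have h2 := run_eq (-1) (Or.inr rfl) (steps (-1) (fun k => by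
      rcases h' k with h3 | h3
      · right; rw [h3, sub_neg_eq_add]
      · left; rw [h3, sub_eq_add_neg]) (fun _ => by rw [← sub_eq_add_neg]; exact h1))
    rcases hu with hu | hu
    · right; right
      rw [Equiv.symm_apply_eq, h2, hu]; ring
    · right; left
      ext1 k
      rw [h2, hu]
      show _ = τ 0 + 1 - 1 - k
      ring

variable {K A : Type*} [Field K] [CommRing A] [IsDomain A] [Algebra K A] {ν : ℕ}
  (W : WS K A N ν)

/-- Values at the positive cycle. -/
def pp (u : Fin (N + 1)) : A := W.g (cw u (Equiv.addLeft (u + 1)))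

/-- Values at the negative cycle. -/
def qq (u : Fin (N + 1)) : A := W.g (cw u (Equiv.subLeft (u - 1)))

theorem psi_pp (a u : Fin (N + 1)) : W.ψ (Equiv.addLeft a) (pp W u) = pp W (a + u) := by
  rw [pp, pp, W.hψ, comp_cw]
  congr 2
  funext k
  show a + (u + 1 + k) = a + u + 1 + k
  ring

theorem psi_qq (a u : Fin (N + 1)) : W.ψ (Equiv.addLeft a) (qq W u) = qq W (a + u) := by
  rw [qq, qq, W.hψ, comp_cw]
  congr 2
  funext k
  show a + (u - 1 - k) = a + u - 1 - k
  ring

theorem psi_neg (u : Fin (N + 1)) : W.ψ (Equiv.neg _) (pp W u) = qq W (-u) := by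
  rw [pp, qq, W.hψ, comp_cw]
  congr 2
  funext k
  show -(u + 1 + k) = -u - 1 - k
  ring

theorem pp_last : pp W (Fin.last N) = W.x (Fin.last N) := by
  rw [pp, Fin.last_add_one, x]
  congr 2
  funext k
  show 0 + k = k
  rw [zero_add]

theorem pp_ne (hF : W.x (Fin.last N) ≠ 0) (u : Fin (N + 1)) : pp W u ≠ 0 := by
  intro h
  apply hF
  have := psi_pp W (Fin.last N - u) u
  rw [h, map_zero, sub_add_cancel, pp_last] at this
  exact this.symm

theorem qq_ne (hF : W.x (Fin.last N) ≠ 0) (u : Fin (N + 1)) : qq W u ≠ 0 := by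
  intro h
  apply pp_ne W hF (-u)
  apply W.hψi (Equiv.neg _)
  rw [psi_neg, neg_neg, h, map_zero]

/-- The weights of the bidirected cycle. -/
noncomputable def εb (A : Type*) [CommRing A] (N : ℕ) : Fin (N + 1) → Fin (N + 1) → A[X] :=
  fun i j => if j = i + 1 then 1 else if i = j + 1 then X else 0

theorem εb_ne {i j : Fin (N + 1)} (h : εb A N i j ≠ 0) : j = i + 1 ∨ i = j + 1 := by
  rw [εb] at h
  split_ifs at h with h1 h2
  · exact Or.inl h1
  · exact Or.inr h2
  · exact absurd rfl h

theorem Pb (hN : 2 ≤ N) (hc : W.Col) (hx : W.x 1 = 0) (u w : Fin (N + 1)) :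
    W.P (εb A N) u w = if u = w then C (pp W u) + X ^ (N + 1) * C (qq W u) else 0 := by
  have htwo : (1 : Fin (N + 1)) + 1 ≠ 0 := by
    intro h
    have := congrArg Fin.val h
    rw [Fin.val_add, Fin.val_one', Nat.mod_eq_of_lt (by omega : 1 < N + 1),
      Nat.mod_eq_of_lt (by omega)] at this
    simp at this
  have hne : Equiv.addLeft (u + 1) ≠ Equiv.subLeft (u - 1) := by
    intro h
    have := congrArg (fun f : Equiv.Perm (Fin (N + 1)) => f 0) h
    simp only [Equiv.coe_addLeft, add_zero, Equiv.subLeft_apply, sub_zero] at this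
    apply htwo
    have h2 : u + 1 - (u - 1) = 0 := by rw [this, sub_self]
    rw [← h2]; ring
  have hz : ∀ τ : Equiv.Perm (Fin (N + 1)), τ ≠ Equiv.addLeft (u + 1) →
      τ ≠ Equiv.subLeft (u - 1) → (εb A N u (τ 0) *
        ∏ k : Fin N, εb A N (τ k.castSucc) (τ k.succ)) * C (W.g (cw u τ)) = 0 := by
    intro τ h1 h2
    by_cases h3 : εb A N u (τ 0) * ∏ k : Fin N, εb A N (τ k.castSucc) (τ k.succ) = 0
    · rw [h3, zero_mul]
    · have h4 := left_ne_zero_of_mul h3
      have h5 := right_ne_zero_of_mul h3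
      rw [Finset.prod_ne_zero_iff] at h5
      rcases bidir hN (εb_ne h4) (fun k => εb_ne (h5 k (Finset.mem_univ _))) with h | h | h
      · exact absurd h h1
      · exact absurd h h2
      · rw [W.g_cw_zero u τ (by rw [h, hx]), C_0, mul_zero]
  have hp1 : (Equiv.addLeft (u + 1) : Equiv.Perm (Fin (N + 1))) (Fin.last N) = u := by
    rw [last_eq]; show u + 1 + -1 = u; ring
  have hp2 : (Equiv.subLeft (u - 1) : Equiv.Perm (Fin (N + 1))) (Fin.last N) = u := by
    rw [last_eq]; show u - 1 - -1 = u; ring
  rw [W.P_apply hc, Finset.sum_eq_add (Equiv.addLeft (u + 1)) (Equiv.subLeft (u - 1)) hne]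
  · rw [hp1, hp2]
    by_cases h : u = w
    · rw [if_pos h, if_pos h, if_pos h]
      congr 1
      · have : (εb A N u ((Equiv.addLeft (u + 1) : Equiv.Perm (Fin (N + 1))) 0) *
            ∏ k : Fin N, εb A N ((Equiv.addLeft (u + 1) : Equiv.Perm (Fin (N + 1))) k.castSucc)
              ((Equiv.addLeft (u + 1) : Equiv.Perm (Fin (N + 1))) k.succ)) = 1 := by
          rw [Finset.prod_eq_one, mul_one]
          · rw [εb, if_pos]
            show u + 1 + 0 = u + 1
            rw [add_zero]
          · intro k _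
            rw [εb, if_pos]
            show u + 1 + k.succ = u + 1 + k.castSucc + 1
            rw [← Fin.coeSucc_eq_succ]; ring
        rw [this, one_mul]; rfl
      · have : (εb A N u ((Equiv.subLeft (u - 1) : Equiv.Perm (Fin (N + 1))) 0) *
            ∏ k : Fin N, εb A N ((Equiv.subLeft (u - 1) : Equiv.Perm (Fin (N + 1))) k.castSucc)
              ((Equiv.subLeft (u - 1) : Equiv.Perm (Fin (N + 1))) k.succ)) = X ^ (N + 1) := by
          have e1 : ∀ k : Fin N,
              εb A N ((Equiv.subLeft (u - 1) : Equiv.Perm (Fin (N + 1))) k.castSucc)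
              ((Equiv.subLeft (u - 1) : Equiv.Perm (Fin (N + 1))) k.succ) = X := by
            intro k
            have h1 : (Equiv.subLeft (u - 1) : Equiv.Perm (Fin (N + 1))) k.castSucc =
                (Equiv.subLeft (u - 1) : Equiv.Perm (Fin (N + 1))) k.succ + 1 := by
              show u - 1 - k.castSucc = u - 1 - k.succ + 1
              rw [← Fin.coeSucc_eq_succ]; ring
            rw [εb, if_neg, if_pos h1]
            intro h2
            rw [h1] at h2
            apply htwo
            have := sub_eq_zero.mpr h2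
            rw [← neg_eq_zero, ← this]; ring
          have e2 : εb A N u ((Equiv.subLeft (u - 1) : Equiv.Perm (Fin (N + 1))) 0) = X := by
            have h1 : (Equiv.subLeft (u - 1) : Equiv.Perm (Fin (N + 1))) 0 = u - 1 := by
              show u - 1 - 0 = u - 1
              rw [sub_zero]
            rw [h1, εb, if_neg, if_pos (by ring)]
            intro h2
            apply htwo
            have := sub_eq_zero.mpr h2
            rw [← neg_eq_zero, ← this]; ring
          rw [e2, Finset.prod_congr rfl fun k _ => e1 k, Finset.prod_const, Finset.card_univ,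
            Fintype.card_fin, pow_succ']
        rw [this]; rfl
    · rw [if_neg h, if_neg h, if_neg h, add_zero]
  · rintro τ _ ⟨h1, h2⟩
    split_ifs
    · exact hz τ h1 h2
    · rfl
  · intro h; exact absurd (Finset.mem_univ _) h
  · intro h; exact absurd (Finset.mem_univ _) h

end Pool.Agent.TH901.NC
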