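import Mathlib
import Pool.Agent.TH901.NC.Cyc

/-!
Walk systems of column type have a scalar matrix.
-/

set_option autoImplicit false
set_option linter.all false

namespace Pool.Agent.TH901.NC

open WS Polynomial
open scoped Fin.CommRing

variable {N : ℕ}
variable {K A : Type*} [Field K] [CommRing A] [IsDomain A] [Algebra K A] {ν : ℕ}
  (W : WS K A N ν)

theorem diag_root (hν : 0 < ν) (ε : Fin (N + 1) → Fin (N + 1) → A[X])
    (hd : ∀ u w, u ≠ w → W.P ε u w = 0) (u w : Fin (N + 1)) (h0 : W.P ε u u ≠ 0) :
    ∃ ζ : K, W.P ε w w = C (algebraMap K A ζ) * W.P ε u u := by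
  obtain ⟨s, hs⟩ := W.P_pow ε
  have hdiag : W.P ε = Matrix.diagonal (fun u => W.P ε u u) := by
    ext1 a b
    by_cases h : a = b
    · subst h; rw [Matrix.diagonal_apply_eq]
    · rw [Matrix.diagonal_apply_ne _ h, hd a b h]
  have h1 : ∀ u, (W.P ε u u) ^ ν = s := by
    intro u
    have := congrFun (congrFun hs u) u
    rw [hdiag, Matrix.diagonal_pow, Matrix.diagonal_apply_eq] at this
    simpa using this
  exact W.root _ _ h0 ((h1 u).trans (h1 w).symm)

theorem pp_const (hN : 4 ≤ N) (h2 : ¬ 2 ∣ N + 1) (hν : 0 < ν) (hc : W.Col)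
    (hF : W.x (Fin.last N) ≠ 0) (u : Fin (N + 1)) : pp W u = pp W 0 := by
  have hone : (1 : Fin (N + 1)).val = 1 := by
    rw [Fin.val_one', Nat.mod_eq_of_lt (by omega)]
  have hx : W.x 1 = 0 := killA W hc hν 1 (by rw [hone]; omega)
  have hP := Pb W (by omega) hc hx
  have hc0 : ∀ u, (W.P (εb A N) u u).coeff 0 = pp W u := by
    intro u
    rw [hP, if_pos rfl, coeff_add, coeff_C_zero, pow_succ', mul_assoc, coeff_X_mul_zero, add_zero]
  have hcN : ∀ u, (W.P (εb A N) u u).coeff (N + 1) = qq W u := by
    intro u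
    rw [hP, if_pos rfl, coeff_add, coeff_C_succ, zero_add, coeff_X_pow_mul', if_pos le_rfl,
      Nat.sub_self, coeff_C_zero]
  obtain ⟨ζ, hζ⟩ := diag_root W hν (εb A N) (fun u w h => by rw [hP, if_neg h]) 0 1 (by
    intro h
    have := hc0 0
    rw [h, coeff_zero] at this
    exact pp_ne W hF 0 this.symm)
  have e1 : pp W 1 = algebraMap K A ζ * pp W 0 := by
    rw [← hc0, ← hc0, hζ, coeff_C_mul]
  have e2 : qq W 1 = algebraMap K A ζ * qq W 0 := by
    rw [← hcN, ← hcN, hζ, coeff_C_mul]
  have e3 : qq W (-1) = algebraMap K A ζ * qq W 0 := by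
    have := congrArg (W.ψ (Equiv.neg _)) e1
    rw [map_mul, psi_neg, psi_neg, neg_zero, AlgHom.commutes] at this
    exact this
  have e4 : qq W 0 = algebraMap K A ζ * qq W 1 := by
    have := congrArg (W.ψ (Equiv.addLeft 1)) e3
    rw [map_mul, psi_qq, psi_qq, AlgHom.commutes, add_neg_cancel, add_zero] at this
    exact this
  have e5 : ζ * ζ = 1 := by
    have h5 : algebraMap K A (ζ * ζ) = algebraMap K A 1 := by
      rw [map_mul, map_one]
      apply mul_right_cancel₀ (qq_ne W hF 0)
      rw [one_mul, mul_assoc, ← e2, ← e4]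
    exact (algebraMap K A).injective h5
  have e6 : ∀ k : ℕ, pp W (k : Fin (N + 1)) = algebraMap K A (ζ ^ k) * pp W 0 := by
    intro k
    induction k with
    | zero => rw [Nat.cast_zero, pow_zero, map_one, one_mul]
    | succ k ih =>
      have := congrArg (W.ψ (Equiv.addLeft (k : Fin (N + 1)))) e1
      rw [map_mul, psi_pp, psi_pp, AlgHom.commutes, add_zero, ih] at this
      rw [Nat.cast_succ, this, pow_succ', map_mul, mul_assoc]
  have e7 : ζ ^ (N + 1) = 1 := by
    have h7 := e6 (N + 1)
    have hz : ((N + 1 : ℕ) : Fin (N + 1)) = 0 := by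
      apply Fin.ext
      simp
    rw [hz] at h7
    have h8 : algebraMap K A (ζ ^ (N + 1)) = algebraMap K A 1 := by
      apply mul_right_cancel₀ (pp_ne W hF 0)
      rw [← h7, map_one, one_mul]
    exact (algebraMap K A).injective h8
  have e8 : ζ = 1 := by
    obtain ⟨m, hm⟩ : ∃ m, N + 1 = 2 * m + 1 := ⟨N / 2, by omega⟩
    rw [hm, pow_succ, pow_mul, pow_two, e5, one_pow, one_mul] at e7
    exact e7
  have := e6 u.val
  rw [e8, one_pow, map_one, one_mul] at this
  rwa [Fin.cast_val_eq_self] at this

/-- The cycle with a chord. -/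
noncomputable def εc (A : Type*) [CommRing A] (N : ℕ) (e : Fin (N + 1)) :
    Fin (N + 1) → Fin (N + 1) → A[X] :=
  fun i j => if j = i + 1 then 1 else if i = e ∧ j = 0 then X else 0

/-- The constant coefficient of a weight whose edges outside the cycle are divisible by `X`. -/
theorem coeff_cycle (hc : W.Col) (ε : Fin (N + 1) → Fin (N + 1) → A[X])
    (h1 : ∀ i, (ε i (i + 1)).coeff 0 = 1) (h0 : ∀ i j, j ≠ i + 1 → (ε i j).coeff 0 = 0)
    (u w : Fin (N + 1)) : (W.P ε u w).coeff 0 = if u = w then pp W u else 0 := by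
  rw [W.P_apply hc, finset_sum_coeff]
  have hprod : ∀ τ : Equiv.Perm (Fin (N + 1)),
      ((ε u (τ 0) * ∏ k : Fin N, ε (τ k.castSucc) (τ k.succ)) * C (W.g (cw u τ))).coeff 0 =
        ((ε u (τ 0)).coeff 0 * ∏ k : Fin N, (ε (τ k.castSucc) (τ k.succ)).coeff 0) *
          W.g (cw u τ) := by
    intro τ
    rw [mul_coeff_zero, mul_coeff_zero, coeff_C_zero, coeff_zero_prod]
  have hp1 : (Equiv.addLeft (u + 1) : Equiv.Perm (Fin (N + 1))) (Fin.last N) = u := by
    rw [last_eq]; show u + 1 + -1 = u; ring
  rw [Finset.sum_eq_single (Equiv.addLeft (u + 1))]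
  · rw [hp1]
    by_cases h : u = w
    · rw [if_pos h, if_pos h, hprod]
      have a1 : (Equiv.addLeft (u + 1) : Equiv.Perm (Fin (N + 1))) 0 = u + 1 := by
        show u + 1 + 0 = u + 1
        rw [add_zero]
      rw [a1, h1, Finset.prod_eq_one, one_mul, one_mul]; rfl
      intro k _
      have : (Equiv.addLeft (u + 1) : Equiv.Perm (Fin (N + 1))) k.succ =
          (Equiv.addLeft (u + 1) : Equiv.Perm (Fin (N + 1))) k.castSucc + 1 := by
        show u + 1 + k.succ = u + 1 + k.castSucc + 1
        rw [← Fin.coeSucc_eq_succ]; ring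
      rw [this, h1]
    · rw [if_neg h, if_neg h, coeff_zero]
  · intro τ _ hτ
    split_ifs with h
    · rw [hprod]
      by_contra hne
      have h3 := left_ne_zero_of_mul hne
      have h4 := left_ne_zero_of_mul h3
      have h5 := right_ne_zero_of_mul h3
      rw [Finset.prod_ne_zero_iff] at h5
      have a1 : τ 0 = u + 1 := by
        by_contra h6; exact h4 (h0 _ _ h6)
      have a2 : ∀ k : Fin N, τ k.succ = τ k.castSucc + 1 := by
        intro k
        by_contra h6
        exact h5 k (Finset.mem_univ _) (h0 _ _ h6)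
      apply hτ
      ext1 k
      rw [run_eq 1 (Or.inl rfl) a2, a1, one_mul]; rfl
    · rw [coeff_zero]
  · intro h; exact absurd (Finset.mem_univ _) h

/-- The chord relation. -/
def Hc (N e : ℕ) : ℕ → ℕ → Prop := fun i j => i + 1 = j ∨ (i = N ∧ j = 0) ∨ (i = e ∧ j = 0)

theorem Hc_open {e : Fin (N + 1)} (he : e.val < N) {τ : Equiv.Perm (Fin (N + 1))}
    (hA : Adm (rel (Hc N e.val)) e (Fin.last N) τ) : τ = 1 := by
  obtain ⟨t, ht, ht0, hut⟩ := adm_first hA
  simp only [Hc] at hut
  have hl := adm_last hA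
  rw [Fin.val_last] at hl
  by_cases h : t = 0
  · subst h
    have h1 : ∀ j, 0 < j → j < N + 1 → pos τ (j - 1) + 1 = pos τ j := by
      intro j hj hjN
      have hne : pos τ j ≠ 0 := by
        intro hz
        have := pos_inj τ hjN (by omega) (hz.trans ht0.symm)
        omega
      obtain ⟨i, hi, h2, h3⟩ := adm_pred hA hjN hne
      simp only [Hc] at h3
      have h4 : i + 1 = j := by omega
      rw [← h4, Nat.add_sub_cancel, h4, h2]
    refine perm_eq_one fun j hj => ?_
    rw [run h1 j (by omega) hj, ht0]; omega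
  · exfalso
    have ht' : t = e.val + 1 := by omega
    subst ht'
    have h4 : pos τ e.val ≠ N := by
      intro hh
      have := pos_inj τ e.isLt (by omega) (hh.trans hl.symm)
      omega
    obtain ⟨j, hj, hj1, hj2⟩ := adm_succ hA e.isLt h4
    simp only [Hc] at hj2
    have hj0 : j = 0 := by
      by_contra hne
      have : j = e.val + 1 := by omega
      rw [this] at hj1
      omega
    subst hj0
    have h1 : ∀ j, 0 < j → j < e.val + 1 → pos τ (j - 1) + 1 = pos τ j := by
      intro j hj hjN
      have hne : pos τ j ≠ 0 := by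
        intro hz
        have := pos_inj τ (by omega) (by omega) (hz.trans ht0.symm)
        omega
      obtain ⟨i, hi, h2, h3⟩ := adm_pred hA (by omega) hne
      simp only [Hc] at h3
      have h4 : i + 1 = j := by omega
      rw [← h4, Nat.add_sub_cancel, h4, h2]
    have := run h1 e.val (by omega) (by omega)
    omega

theorem kill_open (hN : 4 ≤ N) (h2 : ¬ 2 ∣ N + 1) (hν : 0 < ν) (hνK : (ν : K) ≠ 0) (hc : W.Col)
    (hF : W.x (Fin.last N) ≠ 0) (e : Fin (N + 1)) (he : e ≠ Fin.last N) : W.x e = 0 := by
  have heN : e.val < N := by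
    have h1 := e.isLt
    have h3 : e.val ≠ N := fun h => he (Fin.ext h)
    omega
  have h0N : (0 : Fin (N + 1)) ≠ e + 1 := by
    intro h
    apply he
    rw [last_eq, eq_neg_iff_add_eq_zero]
    exact h.symm
  have hp := pp_const W hN h2 hν hc hF
  have hcoe := coeff_cycle W hc (εc A N e) (fun i => by rw [εc, if_pos rfl, coeff_one_zero])
    (fun i j h => by
      rw [εc, if_neg h]
      split_ifs
      · rw [coeff_X_zero]
      · rw [coeff_zero])
  obtain ⟨s, hs⟩ := W.P_pow (εc A N e)
  set B : Matrix (Fin (N + 1)) (Fin (N + 1)) A[X] := (W.P (εc A N e)).map divX with hB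
  have hPB : W.P (εc A N e) = (Matrix.scalar _ (C (pp W 0)) : Matrix (Fin (N + 1)) _ A[X]) +
      (X : A[X]) • B := by
    ext1 a b
    rw [Matrix.add_apply, Matrix.smul_apply, smul_eq_mul, hB, Matrix.map_apply]
    refine (divX_mul_X_add (W.P (εc A N e) a b)).symm.trans ?_
    rw [hcoe]
    by_cases h : a = b
    · subst h
      rw [if_pos rfl, hp a]
      simp only [Matrix.scalar_apply, Matrix.diagonal_apply_eq]
      ring
    · rw [if_neg h]
      simp only [Matrix.scalar_apply, Matrix.diagonal_apply_ne _ h]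
      rw [C_0]
      ring
  rw [hPB] at hs
  have h3 := pow_perturb_coeff (pp W 0) B ν s hs e (Fin.last N) he
  have hνA : (ν : A) ≠ 0 := by
    rw [← map_natCast (algebraMap K A)]
    intro h
    exact hνK ((algebraMap K A).injective (h.trans (map_zero _).symm))
  have h4 : (B e (Fin.last N)).coeff 0 = 0 := by
    rcases mul_eq_zero.mp h3 with h | h
    · rcases mul_eq_zero.mp h with h' | h'
      · exact absurd h' hνA
      · exact absurd h' (pow_ne_zero _ (pp_ne W hF 0))
    · exact h
  rw [hB, Matrix.map_apply, coeff_divX, zero_add, W.P_apply hc, finset_sum_coeff,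
    Finset.sum_eq_single 1] at h4
  · rw [if_pos (by rfl)] at h4
    have a1 : εc A N e e ((1 : Equiv.Perm (Fin (N + 1))) 0) = X := by
      show (if (0 : Fin (N + 1)) = e + 1 then (1 : A[X]) else
        if e = e ∧ (0 : Fin (N + 1)) = 0 then X else 0) = X
      rw [if_neg h0N, if_pos ⟨rfl, rfl⟩]
    rw [a1, Finset.prod_eq_one, mul_one, coeff_mul_C, coeff_X_one, one_mul] at h4
    · exact h4
    · intro k _
      rw [εc, if_pos]
      show k.succ = k.castSucc + 1
      rw [← Fin.coeSucc_eq_succ]
  · intro τ _ hτ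
    split_ifs with hl
    · by_cases h5 : (εc A N e e (τ 0) * ∏ k : Fin N, εc A N e (τ k.castSucc) (τ k.succ)) = 0
      · rw [h5, zero_mul, coeff_zero]
      · exfalso
        apply hτ
        refine Hc_open heN ⟨hl, ?_, fun k => ?_⟩
        · have h6 := left_ne_zero_of_mul h5
          rw [εc] at h6
          split_ifs at h6 with h7 h8
          · left
            rw [h7, Fin.val_add_one_of_lt' (by omega)]
          · right; right; exact ⟨rfl, by rw [h8.2]; rfl⟩
          · exact absurd rfl h6
        · have h6 := Finset.prod_ne_zero_iff.mp (right_ne_zero_of_mul h5) k (Finset.mem_univ _)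
          rw [εc] at h6
          split_ifs at h6 with h7 h8
          · by_cases h9 : (τ k.castSucc).val = N
            · right; left
              refine ⟨h9, ?_⟩
              rw [h7]
              have : τ k.castSucc = Fin.last N := Fin.ext h9
              rw [this, Fin.last_add_one]; rfl
            · left
              have := (τ k.castSucc).isLt
              rw [h7, Fin.val_add_one_of_lt' (by omega)]
          · right; right; exact ⟨by rw [h8.1], by rw [h8.2]; rfl⟩
          · exact absurd rfl h6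
    · rw [coeff_zero]
  · intro h; exact absurd (Finset.mem_univ _) h

/-- The matrix of a walk system of column type is scalar. -/
theorem col_scalar (hN : 4 ≤ N) (h2 : ¬ 2 ∣ N + 1) (h3 : ¬ 3 ∣ N + 1) (hν : 0 < ν)
    (hνK : (ν : K) ≠ 0) (hc : W.Col) : ∃ c, W.M = Matrix.scalar _ c := by
  by_cases hF : W.x (Fin.last N) = 0
  · have h0 := kill_all W hc hν h3 h2 hF
    refine ⟨0, ?_⟩
    rw [map_zero]
    ext1 u w
    rw [hc, Matrix.zero_apply]
    refine Finset.sum_eq_zero fun τ _ => ?_
    split_ifs
    · exact W.g_cw_zero u τ (h0 _)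
    · rfl
  · have h0 := kill_open W hN h2 hν hνK hc hF
    have hoff : ∀ (u w : Fin (N + 1)) (τ : Equiv.Perm (Fin (N + 1))), u ≠ w →
        τ (Fin.last N) = w → W.g (cw u τ) = 0 := by
      intro u w τ huw hτ
      refine W.g_cw_zero u τ (h0 _ fun h => huw ?_)
      rw [Equiv.symm_apply_eq] at h
      rw [h, hτ]
    set ε : Fin (N + 1) → Fin (N + 1) → A[X] := fun i j => if j = i + 1 then 1 else X with hε
    have hcoe := coeff_cycle W hc ε (fun i => by simp only [hε, if_pos, coeff_one_zero])
      (fun i j h => by simp only [hε, if_neg h, coeff_X_zero])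
    have heval : ∀ u w, (W.P ε u w).eval 1 = W.M u w := by
      intro u w
      rw [W.P_apply hc, hc, eval_finset_sum]
      refine Finset.sum_congr rfl fun τ _ => ?_
      have h1 : ∀ i j, (ε i j).eval 1 = 1 := by
        intro i j
        simp only [hε]
        split_ifs <;> simp
      split_ifs
      · rw [eval_mul, eval_mul, eval_prod, eval_C, h1, Finset.prod_eq_one (fun k _ => h1 _ _),
          one_mul, one_mul]
      · rw [eval_zero]
    have hd : ∀ u w, u ≠ w → W.P ε u w = 0 := by
      intro u w huw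
      rw [W.P_apply hc]
      refine Finset.sum_eq_zero fun τ _ => ?_
      split_ifs with h
      · rw [hoff u w τ huw h, C_0, mul_zero]
      · rfl
    have heq : ∀ w, W.P ε w w = W.P ε 0 0 := by
      intro w
      have hne : W.P ε 0 0 ≠ 0 := by
        intro h
        have := hcoe 0 0
        rw [h, coeff_zero, if_pos rfl] at this
        exact pp_ne W hF 0 this.symm
      obtain ⟨ζ, hζ⟩ := diag_root W hν ε hd 0 w hne
      have h4 := congrArg (fun p => coeff p 0) hζ
      simp only [coeff_C_mul, hcoe, if_true] at h4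
      rw [pp_const W hN h2 hν hc hF w] at h4
      have h5 : algebraMap K A ζ = 1 := by
        apply mul_right_cancel₀ (pp_ne W hF 0)
        rw [one_mul, ← h4]
      rw [hζ, h5, C_1, one_mul]
    refine ⟨W.M 0 0, ?_⟩
    ext1 u w
    by_cases h : u = w
    · subst h
      rw [Matrix.scalar_apply, Matrix.diagonal_apply_eq, ← heval, heq, heval]
    · rw [Matrix.scalar_apply, Matrix.diagonal_apply_ne _ h, ← heval, hd u w h, eval_zero]

end Pool.Agent.TH901.NC
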