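import Mathlib
import Pool.Agent.TH901.NC.Col

/-!
The case where `ν` is a power of the characteristic.
-/

set_option autoImplicit false
set_option linter.all false

namespace Pool.Agent.TH901.NC

open WS Polynomial
open scoped Fin.CommRing

variable {N : ℕ}
variable {K A : Type*} [Field K] [CommRing A] [Algebra K A] {ν : ℕ}

/-- The exponent is invertible in `K` or a power of the characteristic. -/
def Good (K : Type*) [Field K] (ν : ℕ) : Prop :=
  (ν : K) ≠ 0 ∨ ∃ p k : ℕ, p.Prime ∧ CharP K p ∧ ν = p ^ k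

theorem rot_sum [IsDomain A] (W : WS K A N ν) (hp : ∀ u, pp W u = pp W 0) (hc : W.Col)
    (u w : Fin (N + 1)) : W.M u u = W.M w w := by
  have key : ∀ (u w : Fin (N + 1)) (τ : Equiv.Perm (Fin (N + 1))), τ (Fin.last N) = u →
      ((Equiv.addLeft (τ.symm w + 1)).trans τ) (Fin.last N) = w ∧
      W.g (cw w ((Equiv.addLeft (τ.symm w + 1)).trans τ)) = W.g (cw u τ) := by
    intro u w τ hτ
    constructor
    · show τ (τ.symm w + 1 + Fin.last N) = w
      rw [last_eq, add_neg_cancel_right, Equiv.apply_symm_apply]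
    · have h1 : W.ψ τ (pp W (τ.symm w)) = W.g (cw w ((Equiv.addLeft (τ.symm w + 1)).trans τ)) := by
        rw [pp, W.hψ, comp_cw, Equiv.apply_symm_apply]
        rfl
      have h2 : W.ψ τ (pp W (Fin.last N)) = W.g (cw u τ) := by
        rw [pp, W.hψ, comp_cw, hτ, Fin.last_add_one]
        congr 2
        funext k
        show τ (0 + k) = τ k
        rw [zero_add]
      rw [← h1, ← h2, hp, hp (Fin.last N)]
  rw [hc, hc, ← Finset.sum_filter, ← Finset.sum_filter]
  refine Finset.sum_nbij' (fun τ => (Equiv.addLeft (τ.symm w + 1)).trans τ)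
    (fun τ => (Equiv.addLeft (τ.symm u + 1)).trans τ) ?_ ?_ ?_ ?_ ?_
  · intro τ hτ
    rw [Finset.mem_filter] at hτ ⊢
    exact ⟨Finset.mem_univ _, (key u w τ hτ.2).1⟩
  · intro τ hτ
    rw [Finset.mem_filter] at hτ ⊢
    exact ⟨Finset.mem_univ _, (key w u τ hτ.2).1⟩
  · intro τ hτ
    rw [Finset.mem_filter] at hτ
    ext1 k
    have h3 : ((Equiv.addLeft (τ.symm w + 1)).trans τ).symm u = Fin.last N - (τ.symm w + 1) := by
      rw [Equiv.symm_apply_eq]
      show u = τ (τ.symm w + 1 + (Fin.last N - (τ.symm w + 1)))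
      rw [add_sub_cancel, hτ.2]
    show τ (τ.symm w + 1 + (((Equiv.addLeft (τ.symm w + 1)).trans τ).symm u + 1 + k)) = τ k
    rw [h3, last_eq]
    congr 1
    ring
  · intro τ hτ
    rw [Finset.mem_filter] at hτ
    ext1 k
    have h3 : ((Equiv.addLeft (τ.symm u + 1)).trans τ).symm w = Fin.last N - (τ.symm u + 1) := by
      rw [Equiv.symm_apply_eq]
      show w = τ (τ.symm u + 1 + (Fin.last N - (τ.symm u + 1)))
      rw [add_sub_cancel, hτ.2]
    show τ (τ.symm u + 1 + (((Equiv.addLeft (τ.symm u + 1)).trans τ).symm w + 1 + k)) = τ k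
    rw [h3, last_eq]
    congr 1
    ring
  · intro τ hτ
    rw [Finset.mem_filter] at hτ
    exact (key u w τ hτ.2).2.symm

open Classical in
/-- The system without the closed walks. -/
noncomputable def WS.open' (W : WS K A N ν) (s' : A)
    (hs' : (W.M - Matrix.scalar _ (W.M 0 0)) ^ ν = Matrix.scalar _ s')
    (hd : ∀ u, W.M u u = W.M 0 0) : WS K A N ν where
  g v := if v 0 = v (Fin.last _) then 0 else W.g v
  φ := W.φ
  hφ ε v := by
    split_ifs
    · rw [map_zero, C_0, mul_zero]
    · exact W.hφ ε v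
  ψ := W.ψ
  hψ τ v := by
    by_cases h : v 0 = v (Fin.last _)
    · rw [if_pos h, if_pos (by rw [Function.comp_apply, Function.comp_apply, h]), map_zero]
    · have h' : ¬ (τ ∘ v) 0 = (τ ∘ v) (Fin.last _) := fun hh => h (τ.injective hh)
      rw [if_neg h, if_neg h', W.hψ]
  hψi := W.hψi
  root := W.root
  M := W.M - Matrix.scalar _ (W.M 0 0)
  hM u w := by
    by_cases huw : u = w
    · subst huw
      rw [Matrix.sub_apply, Matrix.scalar_apply, Matrix.diagonal_apply_eq, hd, sub_self]
      symm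
      refine Finset.sum_eq_zero fun v _ => ?_
      by_cases h : v 0 = u ∧ v (Fin.last _) = u ∧ Function.Surjective v
      · rw [if_pos h, if_pos (h.1.trans h.2.1.symm)]
      · rw [if_neg h]
    · rw [Matrix.sub_apply, Matrix.scalar_apply, Matrix.diagonal_apply_ne _ huw, sub_zero, W.hM]
      refine Finset.sum_congr rfl fun v _ => ?_
      by_cases h : v 0 = u ∧ v (Fin.last _) = w ∧ Function.Surjective v
      · rw [if_pos h, if_pos h, if_neg (fun hh => huw (h.1.symm.trans (hh.trans h.2.1)))]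
      · rw [if_neg h, if_neg h]
  s := s'
  hs := hs'

/-- The matrix of a walk system of column type is scalar. -/
theorem col_scalar' [IsDomain A] (W : WS K A N ν) (hN : 4 ≤ N) (h2 : ¬ 2 ∣ N + 1)
    (h3 : ¬ 3 ∣ N + 1) (hν : 0 < ν) (hg : Good K ν) (hc : W.Col) :
    ∃ c, W.M = Matrix.scalar _ c := by
  rcases hg with hg | ⟨p, k, hp, hch, rfl⟩
  · exact col_scalar W hN h2 h3 hν hg hc
  by_cases hF : W.x (Fin.last N) = 0
  · have h0 := kill_all W hc hν h3 h2 hF
    refine ⟨0, ?_⟩
    rw [map_zero]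
    ext1 u w
    rw [hc, Matrix.zero_apply]
    refine Finset.sum_eq_zero fun τ _ => ?_
    split_ifs
    · exact W.g_cw_zero u τ (h0 _)
    · rfl
  have hpp := pp_const W hN h2 hν hc hF
  have hd : ∀ u, W.M u u = W.M 0 0 := fun u => rot_sum W hpp hc u 0
  haveI : Fact p.Prime := ⟨hp⟩
  haveI : CharP A p := charP_of_injective_algebraMap (algebraMap K A).injective p
  haveI : Nonempty (Fin (N + 1)) := ⟨0⟩
  have hcomm : Commute (W.M - Matrix.scalar _ (W.M 0 0)) (Matrix.scalar _ (W.M 0 0)) :=
    (Matrix.scalar_commute _ (fun _ => Commute.all _ _) _).symm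
  have hs' : (W.M - Matrix.scalar _ (W.M 0 0)) ^ (p ^ k) =
      Matrix.scalar _ (W.s - (W.M 0 0) ^ (p ^ k)) := by
    have e1 := add_pow_char_pow_of_commute (p := p) (n := k) hcomm
    rw [sub_add_cancel, W.hs, ← map_pow] at e1
    rw [map_sub, e1, add_sub_cancel_right]
  set W' := W.open' _ hs' hd with hW'
  have hc' : W'.Col := by
    intro u w
    by_cases huw : u = w
    · subst huw
      have e1 : W'.M u u = 0 := by
        show (W.M - Matrix.scalar (Fin (N + 1)) (W.M 0 0) :
          Matrix (Fin (N + 1)) (Fin (N + 1)) A) u u = 0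
        rw [Matrix.sub_apply, Matrix.scalar_apply, Matrix.diagonal_apply_eq, hd, sub_self]
      rw [e1]
      symm
      refine Finset.sum_eq_zero fun τ _ => ?_
      split_ifs with h
      · show (if cw u τ 0 = cw u τ (Fin.last _) then 0 else W.g (cw u τ)) = 0
        rw [if_pos]
        rw [← Fin.succ_last, cw_succ, cw_zero, h]
      · rfl
    · have e1 : W'.M u w = W.M u w := by
        show (W.M - Matrix.scalar (Fin (N + 1)) (W.M 0 0) :
          Matrix (Fin (N + 1)) (Fin (N + 1)) A) u w = _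
        rw [Matrix.sub_apply, Matrix.scalar_apply, Matrix.diagonal_apply_ne _ huw, sub_zero]
      rw [e1, hc]
      refine Finset.sum_congr rfl fun τ _ => ?_
      by_cases h : τ (Fin.last N) = w
      · rw [if_pos h, if_pos h]
        show _ = (if cw u τ 0 = cw u τ (Fin.last _) then 0 else W.g (cw u τ))
        rw [if_neg]
        rw [← Fin.succ_last, cw_succ, cw_zero, h]
        exact huw
      · rw [if_neg h, if_neg h]
  have hF' : W'.x (Fin.last N) = 0 := by
    show (if cw (Fin.last N) id 0 = cw (Fin.last N) id (Fin.last (N + 1)) then 0 else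
      W.g (cw (Fin.last N) id)) = 0
    rw [if_pos]
    rw [← Fin.succ_last, cw_succ]; rfl
  have h0 := kill_all W' hc' hν h3 h2 hF'
  refine ⟨W.M 0 0, ?_⟩
  have h4 : W'.M = 0 := by
    ext1 u w
    rw [hc', Matrix.zero_apply]
    refine Finset.sum_eq_zero fun τ _ => ?_
    split_ifs
    · exact W'.g_cw_zero u τ (h0 _)
    · rfl
  have h5 : W'.M = W.M - Matrix.scalar _ (W.M 0 0) := rfl
  rw [h5, sub_eq_zero] at h4
  exact h4

end Pool.Agent.TH901.NC
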