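import Mathlib
import Pool.Agent.TH901.NC.Frob

/-!
General exponents.
-/

set_option autoImplicit false
set_option linter.all false

namespace Pool.Agent.TH901.NC

open WS Polynomial
open scoped Fin.CommRing

/-- Every exponent is a power of the characteristic times an invertible number. -/
theorem split_exp (K : Type*) [Field K] {ν : ℕ} (hν : 0 < ν) :
    ∃ q m : ℕ, 0 < q ∧ 0 < m ∧ ν = q * m ∧ (m : K) ≠ 0 ∧ Good K q := by
  obtain ⟨p, hp⟩ := CharP.exists K
  rcases CharP.char_is_prime_or_zero K p with hpp | rfl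
  · obtain ⟨k, m, hm, e⟩ := Nat.exists_eq_pow_mul_and_not_dvd hν.ne' p hpp.ne_one
    refine ⟨p ^ k, m, pow_pos hpp.pos _, ?_, e, ?_, Or.inr ⟨p, k, hpp, hp, rfl⟩⟩
    · rcases Nat.eq_zero_or_pos m with rfl | h
      · exact absurd (dvd_zero p) hm
      · exact h
    · rw [Ne, CharP.cast_eq_zero_iff K p]; exact hm
  · refine ⟨1, ν, one_pos, hν, (one_mul _).symm, ?_,
      Or.inl (by rw [Nat.cast_one]; exact one_ne_zero)⟩
    rw [Ne, CharP.cast_eq_zero_iff K 0, zero_dvd_iff]; exact hν.ne'

theorem comm_of_low {A : Type*} [CommRing A] [IsDomain A] {n m : ℕ}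
    (P Y : Matrix (Fin n) (Fin n) A[X]) (l : A) (hl : l ≠ 0) (hm0 : 0 < m)
    (hP : (constantCoeff : A[X] →+* A).mapMatrix P = Matrix.scalar _ l) (hm : (m : A) ≠ 0)
    (h : P ^ m * Y = Y * P ^ m) : P * Y = Y * P := by
  obtain ⟨m, rfl⟩ : ∃ k, m = k + 1 := ⟨m - 1, by omega⟩
  set Z := P * Y - Y * P with hZ
  have htel : ∑ k ∈ Finset.range (m + 1), P ^ k * Z * P ^ (m - k) = 0 := by
    have e : ∀ k ∈ Finset.range (m + 1), P ^ k * Z * P ^ (m - k) =
        P ^ (k + 1) * Y * P ^ (m + 1 - (k + 1)) - P ^ k * Y * P ^ (m + 1 - k) := by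
      intro k hk
      have hk' : k ≤ m := by
        have := Finset.mem_range.mp hk; omega
      have a1 : m + 1 - (k + 1) = m - k := by omega
      have a2 : m + 1 - k = (m - k) + 1 := by omega
      rw [a1, a2, hZ, pow_succ P k, pow_succ' P (m - k)]
      noncomm_ring
    rw [Finset.sum_congr rfl e,
      Finset.sum_range_sub (fun k => P ^ k * Y * P ^ (m + 1 - k))]
    simp [h]
  have key : ∀ e : ℕ, ∃ Z' : Matrix (Fin n) (Fin n) A[X], Z = (X ^ e : A[X]) • Z' := by
    intro e
    induction e with
    | zero => exact ⟨Z, by rw [pow_zero, one_smul]⟩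
    | succ e ih =>
      obtain ⟨Z', hZ'⟩ := ih
      have h1 : ∑ k ∈ Finset.range (m + 1), P ^ k * Z' * P ^ (m - k) = 0 := by
        have h2 : (X ^ e : A[X]) • (∑ k ∈ Finset.range (m + 1), P ^ k * Z' * P ^ (m - k)) = 0 := by
          rw [Finset.smul_sum, ← htel]
          refine Finset.sum_congr rfl fun k _ => ?_
          rw [hZ', Matrix.mul_smul, Matrix.smul_mul]
        ext1 i j
        have h3 := congrFun (congrFun h2 i) j
        rw [Matrix.smul_apply, Matrix.zero_apply, smul_eq_mul] at h3
        exact (mul_eq_zero.mp h3).resolve_left (pow_ne_zero _ X_ne_zero)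
      have h2 := congrArg ((constantCoeff : A[X] →+* A).mapMatrix (m := Fin n)) h1
      rw [map_sum, map_zero] at h2
      have hterm : ∀ k ∈ Finset.range (m + 1),
          (constantCoeff : A[X] →+* A).mapMatrix (P ^ k * Z' * P ^ (m - k)) =
            l ^ m • (constantCoeff : A[X] →+* A).mapMatrix Z' := by
        intro k hk
        have hk' : k ≤ m := by
          have := Finset.mem_range.mp hk; omega
        rw [map_mul, map_mul, map_pow, map_pow, hP, ← map_pow, ← map_pow]
        ext i j
        simp only [Matrix.scalar_apply, Matrix.mul_diagonal, Matrix.diagonal_mul,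
          Matrix.smul_apply, smul_eq_mul]
        have : l ^ m = l ^ k * l ^ (m - k) := by rw [← pow_add]; congr 1; omega
        rw [this]; ring
      rw [Finset.sum_congr rfl hterm, Finset.sum_const, Finset.card_range] at h2
      refine ⟨Z'.map divX, ?_⟩
      rw [hZ']
      ext1 i j
      rw [Matrix.smul_apply, Matrix.smul_apply, Matrix.map_apply, smul_eq_mul, smul_eq_mul]
      have h3 := congrFun (congrFun h2 i) j
      rw [Matrix.smul_apply, Matrix.smul_apply, Matrix.zero_apply, nsmul_eq_mul, smul_eq_mul] at h3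
      have h4 : (Z' i j).coeff 0 = 0 := by
        have h5 := ((mul_eq_zero.mp h3).resolve_left hm)
        exact (mul_eq_zero.mp h5).resolve_left (pow_ne_zero _ hl)
      have h6 := divX_mul_X_add (Z' i j)
      rw [h4, C_0, add_zero] at h6
      rw [pow_succ, mul_assoc]
      congr 1
      rw [mul_comm]
      exact h6.symm
  have hZ0 : Z = 0 := by
    ext1 i j
    rw [Matrix.zero_apply]
    ext d
    obtain ⟨Z', hZ'⟩ := key (d + 1)
    rw [hZ', Matrix.smul_apply, smul_eq_mul, coeff_X_pow_mul', if_neg (by omega), coeff_zero]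
  exact sub_eq_zero.mp hZ0

variable {N : ℕ}
variable {K A : Type*} [Field K] [CommRing A] [Algebra K A] {ν : ℕ}

/-- The matrix of a walk system of column type is scalar. -/
theorem col_scalar'' [IsDomain A] (W : WS K A N ν) (hN : 4 ≤ N) (h2 : ¬ 2 ∣ N + 1)
    (h3 : ¬ 3 ∣ N + 1) (hν : 0 < ν) (hc : W.Col) :
    ∃ c, W.M = Matrix.scalar _ c := by
  by_cases hF : W.x (Fin.last N) = 0
  · have h0 := kill_all W hc hν h3 h2 hF
    refine ⟨0, ?_⟩
    rw [map_zero]
    ext1 u w
    rw [hc, Matrix.zero_apply]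
    refine Finset.sum_eq_zero fun τ _ => ?_
    split_ifs
    · exact W.g_cw_zero u τ (h0 _)
    · rfl
  obtain ⟨q, m, hq, hm, rfl, hmK, hg⟩ := split_exp K hν
  have hpp := pp_const W hN h2 hν hc hF
  set ε : Fin (N + 1) → Fin (N + 1) → A[X] := fun i j => if j = i + 1 then 1 else X with hε
  have hcoe := coeff_cycle W hc ε (fun i => by simp only [hε, if_pos, coeff_one_zero])
    (fun i j h => by simp only [hε, if_neg h, coeff_X_zero])
  have heval : (evalRingHom (1 : A)).mapMatrix (W.P ε) = W.M := by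
    ext1 u w
    show (W.P ε u w).eval 1 = W.M u w
    rw [W.P_apply hc, hc, eval_finset_sum]
    refine Finset.sum_congr rfl fun τ _ => ?_
    have h1 : ∀ i j, (ε i j).eval 1 = 1 := by
      intro i j
      simp only [hε]
      split_ifs <;> simp
    split_ifs
    · rw [eval_mul, eval_mul, eval_prod, eval_C, h1, Finset.prod_eq_one (fun k _ => h1 _ _),
        one_mul, one_mul]
    · rw [eval_zero]
  obtain ⟨s, hs⟩ := W.P_pow ε
  have hlow : (constantCoeff : A[X] →+* A).mapMatrix (W.P ε ^ q) =
      Matrix.scalar _ (pp W 0 ^ q) := by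
    rw [map_pow, map_pow]
    congr 1
    ext1 u w
    show (W.P ε u w).coeff 0 = _
    rw [hcoe]
    by_cases h : u = w
    · subst h
      rw [if_pos rfl, hpp u, Matrix.scalar_apply, Matrix.diagonal_apply_eq]
    · rw [if_neg h, Matrix.scalar_apply, Matrix.diagonal_apply_ne _ h]
  have hmA : (m : A) ≠ 0 := by
    rw [← map_natCast (algebraMap K A)]
    intro h
    exact hmK ((algebraMap K A).injective (h.trans (map_zero _).symm))
  obtain ⟨s', hs'⟩ : ∃ s', W.P ε ^ q = Matrix.scalar _ s' := by
    have h5 := Matrix.mem_range_scalar_iff_commute_single'.mpr (fun i j => by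
      show Matrix.single i j 1 * (W.P ε ^ q) = (W.P ε ^ q) * Matrix.single i j 1
      refine (comm_of_low (W.P ε ^ q) (Matrix.single i j 1) _
        (pow_ne_zero _ (pp_ne W hF 0)) hm hlow hmA ?_).symm
      rw [← pow_mul, hs]
      exact (Matrix.scalar_commute _ (fun _ => Commute.all _ _) _).eq)
    obtain ⟨c, hc⟩ := h5
    exact ⟨c, hc.symm⟩
  set W' : WS K A N q :=
    { g := W.g
      φ := W.φ
      hφ := W.hφ
      ψ := W.ψ
      hψ := W.hψ
      hψi := W.hψi
      root := fun a b ha h => W.root a b ha (by rw [pow_mul, pow_mul, h])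
      M := W.M
      hM := W.hM
      s := s'.eval 1
      hs := by
        rw [← heval, ← map_pow, hs']
        ext1 a b
        by_cases h : a = b
        · subst h; simp
        · simp [Matrix.diagonal_apply_ne _ h] } with hW'
  exact col_scalar' W' hN h2 h3 hq hg hc

end Pool.Agent.TH901.NC
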