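import Mathlib
import Pool.Agent.TH901.NC.Col

/-!
The three types of walks; reduction to column type.
-/

set_option autoImplicit false
set_option linter.all false

namespace Pool.Agent.TH901.NC

open WS Polynomial

section Lead

variable {R : Type*} [CommRing R] [IsDomain R] {V : Type*} [Fintype V] [DecidableEq V]

/-- Powers of the lowest form. -/
theorem low_pow (P : Matrix V V R[X]) (m ν : ℕ) (s : R[X]) (hs : P ^ ν = Matrix.scalar V s)
    (hm : ∀ u w d, d < m → (P u w).coeff d = 0) :
    ∃ c, (Matrix.of fun u w => (P u w).coeff m) ^ ν = Matrix.scalar V c := by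
  have h1 : ∀ u w, ∃ b, P u w = X ^ m * b := fun u w =>
    X_pow_dvd_iff.mpr (fun d hd => hm u w d hd)
  choose b hb using h1
  set B : Matrix V V R[X] := Matrix.of b with hB
  have hPB : P = (X ^ m : R[X]) • B := by
    ext1 u w
    rw [hb]; rfl
  rcases isEmpty_or_nonempty V with hV | ⟨⟨v₀⟩⟩
  · exact ⟨0, by ext1 u; exact (hV.false u).elim⟩
  have h2 : (X ^ m : R[X]) ^ ν • B ^ ν = Matrix.scalar V s := by
    rw [← hs, hPB, _root_.smul_pow]
  have hX : ((X ^ m : R[X]) ^ ν) ≠ 0 := pow_ne_zero _ (pow_ne_zero _ X_ne_zero)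
  have h3 : B ^ ν = Matrix.scalar V ((B ^ ν) v₀ v₀) := by
    ext1 u w
    have e1 := congrFun (congrFun h2 u) w
    rw [Matrix.smul_apply, smul_eq_mul] at e1
    by_cases h : u = w
    · subst h
      have e2 := congrFun (congrFun h2 v₀) v₀
      rw [Matrix.smul_apply, smul_eq_mul] at e2
      rw [Matrix.scalar_apply, Matrix.diagonal_apply_eq] at e1 e2 ⊢
      exact mul_left_cancel₀ hX (e1.trans e2.symm)
    · rw [Matrix.scalar_apply, Matrix.diagonal_apply_ne _ h] at e1 ⊢
      exact (mul_eq_zero.mp e1).resolve_left hX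
  refine ⟨((B ^ ν) v₀ v₀).coeff 0, ?_⟩
  have h4 : (Matrix.of fun u w => (P u w).coeff m) = (constantCoeff : R[X] →+* R).mapMatrix B := by
    ext1 u w
    rw [Matrix.of_apply, hb, RingHom.mapMatrix_apply, Matrix.map_apply, constantCoeff_apply]
    rw [show X ^ m * b u w = b u w * X ^ m by ring]
    have := coeff_mul_X_pow (b u w) m 0
    rw [zero_add] at this
    rw [this]; rfl
  rw [h4, ← map_pow]
  conv_lhs => rw [h3]
  ext1 u w
  by_cases h : u = w
  · subst h
    simp
  · simp [Matrix.diagonal_apply_ne _ h]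

end Lead

section Comb

variable {N : ℕ}

theorem rep {v : Fin (N + 2) → Fin (N + 1)} (hv : Function.Surjective v) :
    ∃ z, ∀ h : Fin (N + 1) → ℕ, ∑ k, h (v k) = ∑ j, h j + h z := by
  classical
  obtain ⟨s, hs⟩ := hv.hasRightInverse
  have hsi : Function.Injective s := hs.injective
  have hcard : ((Finset.univ.image s)ᶜ).card = 1 := by
    rw [Finset.card_compl, Finset.card_image_of_injective _ hsi, Finset.card_univ, Fintype.card_fin,
      Fintype.card_fin]
    omega
  obtain ⟨k0, hk0⟩ := Finset.card_eq_one.mp hcard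
  refine ⟨v k0, fun h => ?_⟩
  rw [← Finset.sum_add_sum_compl (Finset.univ.image s), hk0, Finset.sum_singleton,
    Finset.sum_image (fun a _ b _ hab => hsi hab)]
  congr 1
  exact Finset.sum_congr rfl fun j _ => by rw [hs j]

/-- Column type. -/
def colT (v : Fin (N + 2) → Fin (N + 1)) : Prop :=
  Function.Injective fun k : Fin (N + 1) => v k.succ

/-- Row type. -/
def rowT (v : Fin (N + 2) → Fin (N + 1)) : Prop :=
  Function.Injective fun k : Fin (N + 1) => v k.castSucc

theorem colT_surj {v : Fin (N + 2) → Fin (N + 1)} (h : colT v) : Function.Surjective v := by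
  intro j
  obtain ⟨k, hk⟩ := (Finite.injective_iff_surjective.mp h) j
  exact ⟨_, hk⟩

theorem rowT_surj {v : Fin (N + 2) → Fin (N + 1)} (h : rowT v) : Function.Surjective v := by
  intro j
  obtain ⟨k, hk⟩ := (Finite.injective_iff_surjective.mp h) j
  exact ⟨_, hk⟩

theorem colT_iff {v : Fin (N + 2) → Fin (N + 1)} {z : Fin (N + 1)}
    (hz : ∀ h : Fin (N + 1) → ℕ, ∑ k, h (v k) = ∑ j, h j + h z) : colT v ↔ v 0 = z := by
  classical
  constructor
  · intro hc
    by_contra hne
    have h1 := hz (fun x => if x = v 0 then 1 else 0)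
    rw [Fin.sum_univ_succ] at h1
    have h2 : ∑ k : Fin (N + 1), (if v k.succ = v 0 then 1 else 0) = 1 := by
      obtain ⟨k, hk⟩ := (Finite.injective_iff_surjective.mp hc) (v 0)
      rw [Finset.sum_eq_single k]
      · exact if_pos hk
      · intro k' _ hk'
        refine if_neg fun h => hk' (hc ?_)
        show v k'.succ = v k.succ
        rw [h]; exact hk.symm
      · intro h; exact absurd (Finset.mem_univ _) h
    rw [h2] at h1
    simp only [if_true, Finset.sum_ite_eq', Finset.mem_univ, if_neg (Ne.symm hne)] at h1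
    omega
  · intro h0
    refine Finite.injective_iff_surjective.mpr fun j => ?_
    by_contra hcon
    push Not at hcon
    have h1 := hz (fun x => if x = j then 1 else 0)
    rw [Fin.sum_univ_succ] at h1
    have h2 : ∑ k : Fin (N + 1), (if v k.succ = j then 1 else 0) = 0 :=
      Finset.sum_eq_zero fun k _ => if_neg (hcon k)
    rw [h2, h0] at h1
    simp only [Finset.sum_ite_eq', Finset.mem_univ, if_true] at h1
    omega

theorem rowT_iff {v : Fin (N + 2) → Fin (N + 1)} {z : Fin (N + 1)}
    (hz : ∀ h : Fin (N + 1) → ℕ, ∑ k, h (v k) = ∑ j, h j + h z) :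
    rowT v ↔ v (Fin.last _) = z := by
  classical
  constructor
  · intro hc
    by_contra hne
    have h1 := hz (fun x => if x = v (Fin.last _) then 1 else 0)
    rw [Fin.sum_univ_castSucc] at h1
    have h2 : ∑ k : Fin (N + 1), (if v k.castSucc = v (Fin.last _) then 1 else 0) = 1 := by
      obtain ⟨k, hk⟩ := (Finite.injective_iff_surjective.mp hc) (v (Fin.last _))
      rw [Finset.sum_eq_single k]
      · exact if_pos hk
      · intro k' _ hk'
        refine if_neg fun h => hk' (hc ?_)
        show v k'.castSucc = v k.castSucc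
        rw [h]; exact hk.symm
      · intro h; exact absurd (Finset.mem_univ _) h
    rw [h2] at h1
    simp only [if_true, Finset.sum_ite_eq', Finset.mem_univ, if_neg (Ne.symm hne)] at h1
    omega
  · intro h0
    refine Finite.injective_iff_surjective.mpr fun j => ?_
    by_contra hcon
    push Not at hcon
    have h1 := hz (fun x => if x = j then 1 else 0)
    rw [Fin.sum_univ_castSucc] at h1
    have h2 : ∑ k : Fin (N + 1), (if v k.castSucc = j then 1 else 0) = 0 :=
      Finset.sum_eq_zero fun k _ => if_neg (hcon k)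
    rw [h2, h0] at h1
    simp only [Finset.sum_ite_eq', Finset.mem_univ, if_true] at h1
    omega

theorem closed_col {v : Fin (N + 2) → Fin (N + 1)} (hv : Function.Surjective v)
    (h : v 0 = v (Fin.last _)) : colT v := by
  refine Finite.injective_iff_surjective.mpr fun j => ?_
  obtain ⟨k, hk⟩ := hv j
  by_cases hk0 : k = 0
  · refine ⟨Fin.last N, ?_⟩
    show v (Fin.last N).succ = j
    rw [Fin.succ_last, ← h, ← hk0, hk]
  · obtain ⟨m, rfl⟩ := Fin.exists_succ_eq.mpr hk0
    exact ⟨m, hk⟩

/-- The exponent of a walk for a weight `r i + k j`. -/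
theorem expo (h : Fin (N + 1) → ℕ) (v : Fin (N + 2) → Fin (N + 1)) :
    ∑ k : Fin (N + 1), (h (v k.castSucc) + h (v k.succ)) + h (v 0) + h (v (Fin.last _)) =
      2 * ∑ k, h (v k) := by
  rw [Finset.sum_add_distrib]
  have h3 : ∑ k, h (v k) = h (v 0) + ∑ k : Fin (N + 1), h (v k.succ) := Fin.sum_univ_succ _
  have h4 : ∑ k, h (v k) = ∑ k : Fin (N + 1), h (v k.castSucc) + h (v (Fin.last _)) :=
    Fin.sum_univ_castSucc _
  omega

end Comb

variable {N : ℕ}
variable {K A : Type*} [Field K] [CommRing A] [Algebra K A] {ν : ℕ}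

namespace WS

/-- The reversed system. -/
def rev (W : WS K A N ν) : WS K A N ν where
  g v := W.g (v ∘ Fin.rev)
  φ ε := W.φ (fun i j => ε j i)
  hφ ε v := by
    rw [W.hφ]
    congr 1
    rw [← Equiv.prod_comp Fin.revPerm]
    refine Finset.prod_congr rfl fun k _ => ?_
    simp only [Fin.revPerm_apply, Function.comp_apply, Fin.rev_castSucc, Fin.rev_succ, Fin.rev_rev]
  ψ := W.ψ
  hψ τ v := by rw [W.hψ]; rfl
  hψi := W.hψi
  root := W.root
  M := W.M.transpose
  hM u w := by
    rw [Matrix.transpose_apply, W.hM]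
    refine Fintype.sum_equiv (Equiv.arrowCongr Fin.revPerm (Equiv.refl _)) _ _ fun v => ?_
    have e1 : (Equiv.arrowCongr Fin.revPerm (Equiv.refl (Fin (N + 1))) v : Fin (N + 2) → _) =
        v ∘ Fin.rev := rfl
    rw [e1]
    have e2 : (v ∘ Fin.rev) ∘ Fin.rev = v := by funext k; simp
    have e3 : (v ∘ Fin.rev) 0 = v (Fin.last _) := by simp
    have e4 : (v ∘ Fin.rev) (Fin.last _) = v 0 := by simp
    have e5 : Function.Surjective (v ∘ Fin.rev) ↔ Function.Surjective v :=
      Function.Surjective.of_comp_iff v Fin.rev_surjective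
    rw [e2, e3, e4]
    by_cases h : v 0 = w ∧ v (Fin.last _) = u ∧ Function.Surjective v
    · rw [if_pos h, if_pos ⟨h.2.1, h.1, e5.mpr h.2.2⟩]
    · rw [if_neg h, if_neg (fun hh => h ⟨hh.2.1, hh.1, e5.mp hh.2.2⟩)]
  s := W.s
  hs := by
    rw [← Matrix.transpose_pow, W.hs]
    simp

variable (W : WS K A N ν)

/-- The contribution of the walks of column type. -/
def Xm : Matrix (Fin (N + 1)) (Fin (N + 1)) A := Matrix.of fun u w =>
  ∑ τ : Equiv.Perm (Fin (N + 1)), if τ (Fin.last N) = w then W.g (cw u τ) else 0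

open Classical in
theorem sum_col (u w : Fin (N + 1)) :
    ∑ v : Fin (N + 2) → Fin (N + 1), (if v 0 = u ∧ v (Fin.last _) = w ∧ colT v then W.g v else 0) =
      W.Xm u w := by
  rw [Xm, Matrix.of_apply]
  symm
  refine Finset.sum_of_injOn (fun τ : Equiv.Perm (Fin (N + 1)) => cw u τ) ?_ ?_ ?_ ?_
  · intro τ _ τ' _ h
    ext1 k
    have := congrFun h k.succ
    simpa using this
  · intro τ _; simp
  · intro v _ hv
    refine if_neg fun h => hv ?_
    refine ⟨Equiv.ofBijective (fun k => v k.succ) ⟨h.2.2, Finite.injective_iff_surjective.mp h.2.2⟩,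
      by simp, ?_⟩
    funext k
    refine Fin.cases ?_ (fun k => ?_) k
    · exact h.1.symm
    · rfl
  · intro τ _
    have h1 : cw u (τ : Fin (N + 1) → Fin (N + 1)) (Fin.last (N + 1)) = τ (Fin.last N) := by
      rw [← Fin.succ_last]; rfl
    by_cases h : τ (Fin.last N) = w
    · rw [if_pos h, if_pos ⟨rfl, h1.trans h, τ.injective⟩]
    · rw [if_neg h, if_neg (fun hh => h (h1.symm.trans hh.2.1))]

open Classical in
theorem sum_row (u w : Fin (N + 1)) :
    ∑ v : Fin (N + 2) → Fin (N + 1), (if v 0 = u ∧ v (Fin.last _) = w ∧ rowT v then W.g v else 0) =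
      W.rev.Xm w u := by
  rw [← sum_col]
  refine Fintype.sum_equiv (Equiv.arrowCongr Fin.revPerm (Equiv.refl _)) _ _ fun v => ?_
  have e1 : (Equiv.arrowCongr Fin.revPerm (Equiv.refl (Fin (N + 1))) v : Fin (N + 2) → _) =
      v ∘ Fin.rev := rfl
  rw [e1]
  have e0 : W.rev.g (v ∘ Fin.rev) = W.g v := by
    show W.g ((v ∘ Fin.rev) ∘ Fin.rev) = W.g v
    congr 1
    funext k; simp
  have e3 : (v ∘ Fin.rev) 0 = v (Fin.last _) := by simp
  have e4 : (v ∘ Fin.rev) (Fin.last _) = v 0 := by simp
  have e5 : colT (v ∘ Fin.rev) ↔ rowT v := by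
    have : (fun k : Fin (N + 1) => (v ∘ Fin.rev) k.succ) = (fun k => v k.castSucc) ∘ Fin.rev := by
      funext k
      simp [Fin.rev_succ]
    rw [colT, rowT, this]
    exact Function.Injective.of_comp_iff' _ Fin.rev_bijective
  rw [e0, e3, e4, e5]
  by_cases h : v 0 = u ∧ v (Fin.last _) = w ∧ rowT v
  · rw [if_pos h, if_pos ⟨h.2.1, h.1, h.2.2⟩]
  · rw [if_neg h, if_neg (fun hh => h ⟨hh.2.1, hh.1, hh.2.2⟩)]

open Classical in
/-- The contribution of the walks of interior type. -/
noncomputable def Im (u w : Fin (N + 1)) : A := ∑ v : Fin (N + 2) → Fin (N + 1),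
  if v 0 = u ∧ v (Fin.last _) = w ∧ (Function.Surjective v ∧ ¬ colT v ∧ ¬ rowT v) then W.g v else 0

theorem M_diag (u : Fin (N + 1)) : W.M u u = W.Xm u u := by
  classical
  rw [W.hM, ← sum_col]
  refine Finset.sum_congr rfl fun v _ => ?_
  by_cases h : v 0 = u ∧ v (Fin.last _) = u ∧ Function.Surjective v
  · rw [if_pos h, if_pos ⟨h.1, h.2.1, closed_col h.2.2 (h.1.trans h.2.1.symm)⟩]
  · rw [if_neg h, if_neg (fun hh => h ⟨hh.1, hh.2.1, colT_surj hh.2.2⟩)]

theorem M_off {u w : Fin (N + 1)} (huw : u ≠ w) :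
    W.M u w = W.Xm u w + W.rev.Xm w u + W.Im u w := by
  classical
  rw [W.hM, ← sum_col, ← sum_row, Im, ← Finset.sum_add_distrib, ← Finset.sum_add_distrib]
  refine Finset.sum_congr rfl fun v _ => ?_
  by_cases h0 : v 0 = u
  · by_cases h1 : v (Fin.last _) = w
    · by_cases h2 : Function.Surjective v
      · obtain ⟨z, hz⟩ := rep h2
        have hc := colT_iff hz
        have hr := rowT_iff hz
        by_cases h3 : colT v
        · have h4 : ¬ rowT v := by
            intro h4
            apply huw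
            rw [← h0, ← h1, hc.mp h3, hr.mp h4]
          rw [if_pos ⟨h0, h1, h2⟩, if_pos ⟨h0, h1, h3⟩, if_neg (fun h => h4 h.2.2),
            if_neg (fun h => h.2.2.2.1 h3), add_zero, add_zero]
        · by_cases h4 : rowT v
          · rw [if_pos ⟨h0, h1, h2⟩, if_neg (fun h => h3 h.2.2), if_pos ⟨h0, h1, h4⟩,
              if_neg (fun h => h.2.2.2.2 h4), add_zero, zero_add]
          · rw [if_pos ⟨h0, h1, h2⟩, if_neg (fun h => h3 h.2.2), if_neg (fun h => h4 h.2.2),
              if_pos ⟨h0, h1, h2, h3, h4⟩, zero_add, zero_add]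
      · rw [if_neg (fun h => h2 h.2.2), if_neg (fun h => h2 (colT_surj h.2.2)),
          if_neg (fun h => h2 (rowT_surj h.2.2)), if_neg (fun h => h2 h.2.2.1), add_zero, add_zero]
    · rw [if_neg (fun h => h1 h.2.1), if_neg (fun h => h1 h.2.1),
        if_neg (fun h => h1 h.2.1), if_neg (fun h => h1 h.2.1), add_zero, add_zero]
  · rw [if_neg (fun h => h0 h.1), if_neg (fun h => h0 h.1),
      if_neg (fun h => h0 h.1), if_neg (fun h => h0 h.1), add_zero, add_zero]

end WS

end Pool.Agent.TH901.NC
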