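import Mathlib
import Pool.Agent.TH901.NC.Types
import Pool.Agent.TH901.NC.Mixed

/-!
The matrix of every walk system is scalar.
-/

set_option autoImplicit false
set_option linter.all false

namespace Pool.Agent.TH901.NC

open WS Polynomial

variable {N : ℕ}

theorem third (hN : 2 ≤ N) (i j : Fin (N + 1)) : ∃ c, c ≠ i ∧ c ≠ j := by
  by_contra hcon
  push Not at hcon
  have h1 : (Finset.univ : Finset (Fin (N + 1))) ⊆ {i, j} := by
    intro c _
    rw [Finset.mem_insert, Finset.mem_singleton]
    by_cases h : c = i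
    · exact Or.inl h
    · exact Or.inr (hcon c h)
  have h2 := Finset.card_le_card h1
  rw [Finset.card_univ, Fintype.card_fin] at h2
  have h3 := Finset.card_le_two (a := i) (b := j)
  omega

theorem two_trans {u w a b : Fin (N + 1)} (huw : u ≠ w) (hab : a ≠ b) :
    ∃ τ : Equiv.Perm (Fin (N + 1)), τ u = a ∧ τ w = b := by
  refine ⟨(Equiv.swap u a).trans (Equiv.swap (Equiv.swap u a w) b), ?_, ?_⟩
  · rw [Equiv.trans_apply, Equiv.swap_apply_left]
    refine Equiv.swap_apply_of_ne_of_ne ?_ hab
    intro h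
    have h2 : Equiv.swap u a u = Equiv.swap u a w := by rw [Equiv.swap_apply_left]; exact h
    exact huw ((Equiv.swap u a).injective h2)
  · rw [Equiv.trans_apply, Equiv.swap_apply_left]

variable {K A : Type*} [Field K] [CommRing A] [Algebra K A] {ν : ℕ}

namespace WS

variable (W : WS K A N ν)

theorem psi_Xm (θ : Equiv.Perm (Fin (N + 1))) (u w : Fin (N + 1)) :
    W.ψ θ (W.Xm u w) = W.Xm (θ u) (θ w) := by
  rw [Xm, Matrix.of_apply, Matrix.of_apply, map_sum]
  rw [← Equiv.sum_comp (Equiv.mulLeft θ) (fun τ => if τ (Fin.last N) = θ w then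
    W.g (cw (θ u) τ) else 0)]
  refine Finset.sum_congr rfl fun τ _ => ?_
  by_cases h : τ (Fin.last N) = w
  · rw [if_pos h, if_pos (by simp [h]), W.hψ, comp_cw]
    rfl
  · rw [if_neg h, if_neg (by simpa using h), map_zero]

theorem psi_Im (θ : Equiv.Perm (Fin (N + 1))) (u w : Fin (N + 1)) :
    W.ψ θ (W.Im u w) = W.Im (θ u) (θ w) := by
  classical
  rw [Im, Im, map_sum]
  refine Fintype.sum_equiv (Equiv.arrowCongr (Equiv.refl _) θ) _ _ fun v => ?_
  have e1 : (Equiv.arrowCongr (Equiv.refl (Fin (N + 2))) θ v : Fin (N + 2) → _) = θ ∘ v := rfl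
  rw [e1]
  have e2 : Function.Surjective (θ ∘ v) ↔ Function.Surjective v :=
    Function.Surjective.of_comp_iff' θ.bijective v
  have e3 : colT (θ ∘ v) ↔ colT v :=
    Function.Injective.of_comp_iff θ.injective (fun k : Fin (N + 1) => v k.succ)
  have e4 : rowT (θ ∘ v) ↔ rowT v :=
    Function.Injective.of_comp_iff θ.injective (fun k : Fin (N + 1) => v k.castSucc)
  have e5 : (θ ∘ v) 0 = θ u ↔ v 0 = u := θ.apply_eq_iff_eq
  have e6 : (θ ∘ v) (Fin.last _) = θ w ↔ v (Fin.last _) = w := θ.apply_eq_iff_eq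
  by_cases h : v 0 = u ∧ v (Fin.last _) = w ∧ (Function.Surjective v ∧ ¬ colT v ∧ ¬ rowT v)
  · rw [if_pos h, if_pos (by rw [e5, e6, e2, e3, e4]; exact h), W.hψ]
  · rw [if_neg h, if_neg (by rw [e5, e6, e2, e3, e4]; exact h), map_zero]

theorem P_walk (ε : Fin (N + 1) → Fin (N + 1) → A[X]) (u w : Fin (N + 1)) :
    W.φ ε (W.M u w) = ∑ v : Fin (N + 2) → Fin (N + 1),
      open Classical in
      if v 0 = u ∧ v (Fin.last _) = w ∧ Function.Surjective v then
        (∏ k : Fin (N + 1), ε (v k.castSucc) (v k.succ)) * C (W.g v) else 0 := by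
  classical
  rw [W.hM, map_sum]
  refine Finset.sum_congr rfl fun v _ => ?_
  by_cases h : v 0 = u ∧ v (Fin.last _) = w ∧ Function.Surjective v
  · rw [if_pos h, if_pos h, W.hφ]
  · rw [if_neg h, if_neg h, map_zero]

theorem Im_mul [IsDomain A] (hN : 2 ≤ N) (hν : 0 < ν) (i j : Fin (N + 1)) (hij : i ≠ j) :
    W.Im i j * W.Im j i = 0 := by
  classical
  obtain ⟨c, hci, hcj⟩ := third hN i j
  set h : Fin (N + 1) → ℕ := fun x => if x = i ∨ x = j then 1 else 0 with hh
  have hi : h i = 1 := if_pos (Or.inl rfl)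
  have hj : h j = 1 := if_pos (Or.inr rfl)
  have hle : ∀ x, h x ≤ 1 := by
    intro x; simp only [hh]; split_ifs <;> omega
  have hx : ∀ x, h x = 1 → x = i ∨ x = j := by
    intro x hx
    by_contra hcon
    simp only [hh, if_neg hcon] at hx
    omega
  have hsum : ∑ x, h x = 2 := by
    simp only [hh]
    rw [Finset.sum_boole]
    have : (Finset.univ.filter fun x => x = i ∨ x = j) = {i, j} := by
      ext x; simp
    rw [this, Finset.card_pair hij]
    rfl
  set ε : Fin (N + 1) → Fin (N + 1) → A[X] := fun u w => X ^ (h u + h w) with hε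
  set E : (Fin (N + 2) → Fin (N + 1)) → ℕ := fun v =>
    ∑ k : Fin (N + 1), (h (v k.castSucc) + h (v k.succ)) with hE
  have hcoe : ∀ u w d, (W.P ε u w).coeff d = ∑ v : Fin (N + 2) → Fin (N + 1),
      if v 0 = u ∧ v (Fin.last _) = w ∧ Function.Surjective v ∧ E v = d then W.g v else 0 := by
    intro u w d
    have : W.P ε u w = W.φ ε (W.M u w) := rfl
    rw [this, P_walk, finset_sum_coeff]
    refine Finset.sum_congr rfl fun v _ => ?_
    by_cases h1 : v 0 = u ∧ v (Fin.last _) = w ∧ Function.Surjective v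
    · rw [if_pos h1]
      have h2 : ∏ k : Fin (N + 1), ε (v k.castSucc) (v k.succ) = X ^ E v := by
        simp only [hε, hE]
        rw [Finset.prod_pow_eq_pow_sum]
      rw [h2, coeff_X_pow_mul', ]
      by_cases h3 : E v = d
      · rw [if_pos h3.le, if_pos ⟨h1.1, h1.2.1, h1.2.2, h3⟩, h3, Nat.sub_self, coeff_C_zero]
      · have hB : (if v 0 = u ∧ v (Fin.last _) = w ∧ Function.Surjective v ∧ E v = d then
            W.g v else 0) = 0 := if_neg (fun hh => h3 hh.2.2.2)
        rw [hB]
        by_cases h4 : E v ≤ d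
        · rw [if_pos h4, coeff_C_ne_zero (by omega)]
        · rw [if_neg h4]
    · rw [if_neg h1, if_neg (fun hh => h1 ⟨hh.1, hh.2.1, hh.2.2.1⟩), coeff_zero]
  have hEv : ∀ v z, (∀ h : Fin (N + 1) → ℕ, ∑ k, h (v k) = ∑ j, h j + h z) →
      E v + h (v 0) + h (v (Fin.last _)) = 4 + 2 * h z := by
    intro v z hz
    have e1 := expo h v
    rw [hz h, hsum] at e1
    simp only [hE]
    omega
  obtain ⟨s, hs⟩ := W.P_pow ε
  obtain ⟨c', hc'⟩ := low_pow (W.P ε) 2 ν s hs (by
    intro u w d hd
    rw [hcoe]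
    refine Finset.sum_eq_zero fun v _ => if_neg fun hh => ?_
    obtain ⟨z, hz⟩ := rep hh.2.2.1
    have e1 := hEv v z hz
    have := hle (v 0)
    have := hle (v (Fin.last _))
    have := hh.2.2.2
    omega)
  have hL : ∀ u w, u ≠ w → (u = i ∨ u = j) → (w = i ∨ w = j) →
      (W.P ε u w).coeff 2 = W.Im u w := by
    intro u w huw hu hw
    rw [hcoe, Im]
    refine Finset.sum_congr rfl fun v _ => ?_
    have hhu : h u = 1 := by rcases hu with rfl | rfl <;> assumption
    have hhw : h w = 1 := by rcases hw with rfl | rfl <;> assumption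
    have key : (v 0 = u ∧ v (Fin.last _) = w ∧ Function.Surjective v ∧ E v = 2) ↔
        (v 0 = u ∧ v (Fin.last _) = w ∧ (Function.Surjective v ∧ ¬ colT v ∧ ¬ rowT v)) := by
      constructor
      · rintro ⟨h1, h2, h3, h4⟩
        obtain ⟨z, hz⟩ := rep h3
        have e1 := hEv v z hz
        rw [h1, h2, hhu, hhw, h4] at e1
        have hz0 : h z = 0 := by omega
        refine ⟨h1, h2, h3, fun h5 => ?_, fun h5 => ?_⟩
        · have := (colT_iff hz).mp h5
          rw [← this, h1, hhu] at hz0
          omega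
        · have := (rowT_iff hz).mp h5
          rw [← this, h2, hhw] at hz0
          omega
      · rintro ⟨h1, h2, h3, h4, h5⟩
        obtain ⟨z, hz⟩ := rep h3
        have e1 := hEv v z hz
        rw [h1, h2, hhu, hhw] at e1
        refine ⟨h1, h2, h3, ?_⟩
        have hzu : z ≠ u := fun hh => h4 ((colT_iff hz).mpr (by rw [h1, hh]))
        have hzw : z ≠ w := fun hh => h5 ((rowT_iff hz).mpr (by rw [h2, hh]))
        have hz0 : h z = 0 := by
          by_contra hne
          have := hle z
          have h6 := hx z (by omega)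
          have h7 : ∀ x, (x = i ∨ x = j) → x = u ∨ x = w := by
            intro x hx
            rcases hu with rfl | rfl <;> rcases hw with rfl | rfl
            · exact absurd rfl huw
            · exact hx
            · exact hx.symm
            · exact absurd rfl huw
          rcases h7 z h6 with h8 | h8
          · exact hzu h8
          · exact hzw h8
        omega
    simp only [key]
  have hd : ∀ u, (u = i ∨ u = j) → (W.P ε u u).coeff 2 = 0 := by
    intro u hu
    rw [hcoe]
    refine Finset.sum_eq_zero fun v _ => if_neg fun hh => ?_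
    have hhu : h u = 1 := by rcases hu with rfl | rfl <;> assumption
    obtain ⟨h1, h2, h3, h4⟩ := hh
    obtain ⟨z, hz⟩ := rep h3
    have e1 := hEv v z hz
    have e2 := (colT_iff hz).mp (closed_col h3 (h1.trans h2.symm))
    rw [← e2, h1, h2, hhu, h4] at e1
    omega
  have h2 := two_cycle (Matrix.of fun u w => (W.P ε u w).coeff 2) i j c hci hcj (by
      intro u w hwi hwj
      rw [Matrix.of_apply, hcoe]
      refine Finset.sum_eq_zero fun v _ => if_neg fun hh => ?_
      obtain ⟨h1, h2, h3, h4⟩ := hh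
      obtain ⟨z, hz⟩ := rep h3
      have e1 := hEv v z hz
      have hw0 : h w = 0 := if_neg (fun hh => by
        rcases hh with hh | hh
        · exact hwi hh
        · exact hwj hh)
      have := hle (v 0)
      rw [h2, hw0, h4] at e1
      omega) (hd i (Or.inl rfl)) (hd j (Or.inr rfl)) ν hν c' hc'
  rw [Matrix.of_apply, Matrix.of_apply, hL i j hij (Or.inl rfl) (Or.inr rfl),
    hL j i hij.symm (Or.inr rfl) (Or.inl rfl)] at h2
  exact h2

theorem Im_zero [IsDomain A] (hN : 2 ≤ N) (hν : 0 < ν) (i j : Fin (N + 1)) (hij : i ≠ j) :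
    W.Im i j = 0 := by
  have h1 := W.Im_mul hN hν i j hij
  have h2 : W.ψ (Equiv.swap i j) (W.Im i j) = W.Im j i := by
    rw [psi_Im, Equiv.swap_apply_left, Equiv.swap_apply_right]
  rcases mul_eq_zero.mp h1 with h | h
  · exact h
  · rw [← h2] at h
    exact W.hψi _ (h.trans (map_zero _).symm)

theorem phi_Xm (r : Fin (N + 1) → ℕ) (u w : Fin (N + 1)) (e : ℕ)
    (he : e + r w = 2 * ∑ x, r x + r u) :
    W.φ (fun a b => X ^ (r a + r b)) (W.Xm u w) = X ^ e * C (W.Xm u w) := by
  rw [Xm, Matrix.of_apply, map_sum, map_sum, Finset.mul_sum]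
  refine Finset.sum_congr rfl fun τ _ => ?_
  by_cases h : τ (Fin.last N) = w
  · rw [if_pos h, W.hφ]
    have hpc := prod_cw (fun a b => (X : A[X]) ^ (r a + r b)) u τ
    beta_reduce at hpc
    rw [hpc, Finset.prod_pow_eq_pow_sum, ← pow_add]
    congr 2
    rw [Finset.sum_add_distrib]
    have h1 : ∑ x, r x = ∑ k : Fin N, r (τ k.castSucc) + r (τ (Fin.last N)) := by
      rw [← Fin.sum_univ_castSucc (fun k => r (τ k)), Equiv.sum_comp τ r]
    have h2 : ∑ x, r x = r (τ 0) + ∑ k : Fin N, r (τ k.succ) := by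
      rw [← Fin.sum_univ_succ (fun k => r (τ k)), Equiv.sum_comp τ r]
    rw [h] at h1
    omega
  · rw [if_neg h, map_zero, map_zero, mul_zero]

theorem dich [IsDomain A] (hN : 2 ≤ N) (hν : 0 < ν) (a b : Fin (N + 1)) (hab : a ≠ b) :
    W.Xm a b * W.rev.Xm a b = 0 := by
  classical
  obtain ⟨c, hca, hcb⟩ := third hN a b
  set r : Fin (N + 1) → ℕ := fun x => if x = a then 0 else if x = b then 2 else 1 with hr
  have hra : r a = 0 := if_pos rfl
  have hrb : r b = 2 := by
    show (if b = a then 0 else if b = b then 2 else 1) = 2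
    rw [if_neg hab.symm, if_pos rfl]
  have hrx : ∀ x, x ≠ a → x ≠ b → r x = 1 := fun x h1 h2 => by
    simp only [hr]; rw [if_neg h1, if_neg h2]
  have hle : ∀ x, r x ≤ 2 := by
    intro x; simp only [hr]; split_ifs <;> omega
  have hr0 : ∀ x, r x = 0 → x = a := by
    intro x hx
    by_contra h1
    by_cases h2 : x = b
    · rw [h2, hrb] at hx; omega
    · rw [hrx x h1 h2] at hx; omega
  have hr2 : ∀ x, r x = 2 → x = b := by
    intro x hx
    by_contra h1
    by_cases h2 : x = a
    · rw [h2, hra] at hx; omega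
    · rw [hrx x h2 h1] at hx; omega
  set S := 2 * ∑ x, r x with hS
  have hS2 : 2 ≤ S := by
    have : r b ≤ ∑ x, r x := Finset.single_le_sum (fun _ _ => Nat.zero_le _) (Finset.mem_univ b)
    omega
  set ε : Fin (N + 1) → Fin (N + 1) → A[X] := fun u w => X ^ (r u + r w) with hε
  have hoff : ∀ u w, u ≠ w → W.P ε u w = X ^ (S + r u - r w) * C (W.Xm u w) +
      X ^ (S + r w - r u) * C (W.rev.Xm w u) := by
    intro u w huw
    have e0 : W.P ε u w = W.φ ε (W.M u w) := rfl
    have := hle u
    have := hle w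
    rw [e0, W.M_off huw, W.Im_zero hN hν u w huw, add_zero, map_add,
      phi_Xm W r u w (S + r u - r w) (by omega)]
    congr 1
    have e1 : W.φ ε = W.rev.φ (fun a b => X ^ (r a + r b)) := by
      show W.φ ε = W.φ (fun i j => X ^ (r j + r i))
      congr 1
      funext i j
      show (X : A[X]) ^ (r i + r j) = X ^ (r j + r i)
      rw [add_comm]
    rw [e1, phi_Xm W.rev r w u (S + r w - r u) (by omega)]
  have hdiag : ∀ u, W.P ε u u = X ^ S * C (W.Xm u u) := by
    intro u
    have e0 : W.P ε u u = W.φ ε (W.M u u) := rfl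
    rw [e0, W.M_diag, phi_Xm W r u u S (by omega)]
  have hmono : ∀ (e d : ℕ) (y : A), (X ^ e * C y : A[X]).coeff d = if e = d then y else 0 := by
    intro e d y
    rw [coeff_X_pow_mul']
    by_cases h : e = d
    · rw [if_pos h.le, if_pos h, h, Nat.sub_self, coeff_C_zero]
    · rw [if_neg h]
      split_ifs with h4
      · rw [coeff_C_ne_zero (by omega)]
      · rfl
  obtain ⟨s, hs⟩ := W.P_pow ε
  obtain ⟨c', hc'⟩ := low_pow (W.P ε) (S - 2) ν s hs (by
    intro u w d hd
    have := hle u
    have := hle w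
    by_cases huw : u = w
    · subst huw
      rw [hdiag, hmono, if_neg (by omega)]
    · rw [hoff u w huw, coeff_add, hmono, hmono, if_neg (by omega), if_neg (by omega), add_zero])
  have hdz : ∀ u, (W.P ε u u).coeff (S - 2) = 0 := by
    intro u
    rw [hdiag, hmono, if_neg (by omega)]
  have h2 := two_cycle (Matrix.of fun u w => (W.P ε u w).coeff (S - 2)) a b c hca hcb (by
      intro u w hwa hwb
      rw [Matrix.of_apply]
      by_cases huw : u = w
      · rw [huw]; exact hdz w
      · have h1 := hrx w hwa hwb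
        have := hle u
        rw [hoff u w huw, coeff_add, hmono, hmono, if_neg (by omega), if_neg (by omega), add_zero])
      (hdz a) (hdz b) ν hν c' hc'
  rw [Matrix.of_apply, Matrix.of_apply, hoff a b hab, hoff b a hab.symm, coeff_add, coeff_add,
    hmono, hmono, hmono, hmono, hra, hrb, if_pos (by omega), if_neg (by omega),
    if_neg (by omega), if_pos (by omega), add_zero, zero_add] at h2
  exact h2

/-- The matrix of a walk system is scalar. -/
theorem scalar [IsDomain A] (hN : 4 ≤ N) (h2 : ¬ 2 ∣ N + 1) (h3 : ¬ 3 ∣ N + 1)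
    (hν : 0 < ν) : ∃ c, W.M = Matrix.scalar _ c := by
  by_cases H : ∀ u w, u ≠ w → W.rev.Xm w u = 0
  · refine col_scalar'' W hN h2 h3 hν fun u w => ?_
    by_cases huw : u = w
    · subst huw
      rw [W.M_diag]; rfl
    · rw [W.M_off huw, W.Im_zero (by omega) hν u w huw, H u w huw, add_zero, add_zero]; rfl
  · push Not at H
    obtain ⟨u, w, huw, hne⟩ := H
    have h4 : W.Xm w u = 0 := by
      rcases mul_eq_zero.mp (W.dich (by omega) hν w u huw.symm) with h | h
      · exact h
      · exact absurd h hne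
    have h5 : ∀ a b, a ≠ b → W.Xm a b = 0 := by
      intro a b hab
      obtain ⟨τ, h6, h7⟩ := two_trans huw.symm hab
      rw [← h6, ← h7, ← psi_Xm, h4, map_zero]
    have hrr : W.rev.rev.Xm = W.Xm := by
      have : W.rev.rev.g = W.g := by
        funext v
        show W.g ((v ∘ Fin.rev) ∘ Fin.rev) = W.g v
        congr 1
        funext k; simp
      ext1 a b
      rw [Xm, Xm, this]
    obtain ⟨c, hc⟩ := col_scalar'' W.rev hN h2 h3 hν (fun u w => by
      by_cases huw : u = w
      · subst huw
        rw [W.rev.M_diag]; rfl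
      · rw [W.rev.M_off huw, W.rev.Im_zero (by omega) hν u w huw, hrr, h5 w u (Ne.symm huw),
          add_zero, add_zero]; rfl)
    refine ⟨c, ?_⟩
    have h8 : W.M = W.rev.M.transpose := by
      show W.M = W.M.transpose.transpose
      rw [Matrix.transpose_transpose]
    rw [h8, hc]
    simp

end WS

end Pool.Agent.TH901.NC
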