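import Mathlib
import Pool.Agent.TH901.NC.Reduce
import Pool.Agent.TH46.NC.Main

/-!
Expansion of noncommutative polynomials along walks.
-/

set_option autoImplicit false
set_option linter.all false

namespace Pool.Agent.TH901.NC

open Matrix Pool.Agent.H552R3.PC Pool.Agent.TH46.NC

variable {K : Type*} [Field K] {σ : Type*} (J : σ → Prop) [DecidablePred J]

/-- The number of letters outside `J`. -/
def yd (l : List σ) : ℕ := (l.filter (fun s => ¬ J s)).length

theorem yd_nil : yd J [] = 0 := rfl

theorem yd_cons_self {s : σ} (h : J s) (l : List σ) : yd J (s :: l) = yd J l := by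
  simp [yd, h]

theorem yd_cons_of_ne {s : σ} (h : ¬ J s) (l : List σ) : yd J (s :: l) = yd J l + 1 := by
  simp [yd, h]

/-- Linear combinations of words with exactly `m` letters outside `J`. -/
def WD (K : Type*) [Field K] {σ : Type*} (J : σ → Prop) [DecidablePred J] (m : ℕ) :
    Submodule K (FreeAlgebra K σ) :=
  Submodule.span K {w : FreeAlgebra K σ | ∃ l : List σ, yd J l = m ∧
    w = (l.map (FreeAlgebra.ι K)).prod}

section Walk

variable {V S : Type*} [CommRing S] [Algebra K S] (a : σ → V → S) (R : σ → V → V → S)

/-- The action of a letter on functions of walks. -/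
def tm (s : σ) (φ : List V → S) (L : List V) : S :=
  match L with
  | [] => 0
  | [u] => if J s then a s u * φ [u] else 0
  | u :: u' :: t => if J s then a s u * φ (u :: u' :: t) else R s u u' * φ (u' :: t)

/-- The same as a linear map. -/
def Tm (K : Type*) [Field K] [Algebra K S] (s : σ) : Module.End K (List V → S) where
  toFun φ := tm J a R s φ
  map_add' φ ψ := by
    funext L
    match L with
    | [] => simp [tm]
    | [u] => by_cases h : J s <;> simp [tm, h, mul_add]
    | u :: u' :: t => by_cases h : J s <;> simp [tm, h, mul_add]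
  map_smul' c φ := by
    funext L
    match L with
    | [] => simp [tm]
    | [u] => by_cases h : J s <;> simp [tm, h]
    | u :: u' :: t => by_cases h : J s <;> simp [tm, h]

/-- Walks of length zero. -/
def e0 : List V → S := fun L => match L with
  | [_] => 1
  | _ => 0

/-- The value of `f` along a walk. -/
noncomputable def gw (f : FreeAlgebra K σ) (L : List V) : S :=
  FreeAlgebra.lift K (Tm J a R K) f e0 L

/-- The value of a word along a walk. -/
def wv : List σ → List V → S
  | [] => e0
  | s :: l => tm J a R s (wv l)

theorem gw_word (l : List σ) (L : List V) :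
    gw J a R ((l.map (FreeAlgebra.ι K)).prod) L = wv J a R l L := by
  have : (FreeAlgebra.lift K (Tm J a R K) ((l.map (FreeAlgebra.ι K)).prod)) e0 = wv J a R l := by
    rw [lift_word]
    induction l with
    | nil => rfl
    | cons s l ih =>
      rw [List.map_cons, List.prod_cons, Module.End.mul_apply, ih]
      rfl
  rw [gw, this]

theorem gw_add (f g : FreeAlgebra K σ) (L : List V) :
    gw J a R (f + g) L = gw J a R f L + gw J a R g L := by
  rw [gw, map_add]; rfl

theorem gw_zero (L : List V) : gw J a R (0 : FreeAlgebra K σ) L = 0 := by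
  rw [gw, map_zero]; rfl

theorem gw_smul (c : K) (f : FreeAlgebra K σ) (L : List V) :
    gw J a R (c • f) L = c • gw J a R f L := by
  rw [gw, map_smul]; rfl

theorem tm_self {s : σ} (h : J s) (φ : List V → S) (u : V) (t : List V) :
    tm J a R s φ (u :: t) = a s u * φ (u :: t) := by
  cases t <;> simp [tm, h]

theorem tm_ne {s : σ} (h : ¬ J s) (φ : List V → S) (u u' : V) (t : List V) :
    tm J a R s φ (u :: u' :: t) = R s u u' * φ (u' :: t) := by
  simp [tm, h]

theorem tm_ne_single {s : σ} (h : ¬ J s) (φ : List V → S) (u : V) :
    tm J a R s φ [u] = 0 := by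
  simp [tm, h]

/-- The product of the weights along a walk. -/
def ew {S : Type*} [CommRing S] (ε : V → V → S) : List V → S
  | [] => 1
  | [_] => 1
  | u :: u' :: t => ε u u' * ew ε (u' :: t)

theorem wv_hom {S' : Type*} [CommRing S'] (φ ι : S →+* S') (ε : V → V → S')
    (ha : ∀ s u, φ (a s u) = ι (a s u)) (hR : ∀ s i j, φ (R s i j) = ε i j * ι (R s i j))
    (l : List σ) : ∀ L : List V, φ (wv J a R l L) = ew ε L * ι (wv J a R l L) := by
  induction l with
  | nil =>
    intro L
    match L with
    | [] => simp [wv, e0]
    | [u] => simp [wv, e0, ew]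
    | u :: u' :: t => simp [wv, e0]
  | cons s l ih =>
    intro L
    match L with
    | [] => simp [wv, tm]
    | [u] =>
      by_cases h : J s
      · rw [wv, tm_self J _ _ h, map_mul, map_mul, ih, ha]; ring
      · rw [wv, tm_ne_single J a R h, map_zero, map_zero, mul_zero]
    | u :: u' :: t =>
      by_cases h : J s
      · rw [wv, tm_self J _ _ h, map_mul, map_mul, ih, ha]; ring
      · rw [wv, tm_ne J a R h, map_mul, map_mul, ih, hR, ew]; ring

theorem wv_map (φ : S →+* S) (θ : V → V)
    (ha : ∀ s u, φ (a s u) = a s (θ u)) (hR : ∀ s i j, φ (R s i j) = R s (θ i) (θ j))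
    (l : List σ) : ∀ L : List V, φ (wv J a R l L) = wv J a R l (L.map θ) := by
  induction l with
  | nil =>
    intro L
    match L with
    | [] => simp [wv, e0]
    | [u] => simp [wv, e0]
    | u :: u' :: t => simp [wv, e0]
  | cons s l ih =>
    intro L
    match L with
    | [] => simp [wv, tm]
    | [u] =>
      by_cases h : J s
      · rw [wv, tm_self J _ _ h, map_mul, ih, ha, List.map_cons, List.map_nil, tm_self J _ _ h]
      · rw [wv, tm_ne_single J a R h, map_zero, List.map_cons, List.map_nil,
          tm_ne_single J a R h]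
    | u :: u' :: t =>
      by_cases h : J s
      · rw [wv, tm_self J _ _ h, map_mul, ih, ha, List.map_cons, tm_self J _ _ h]
      · rw [wv, tm_ne J a R h, map_mul, ih, hR, List.map_cons, List.map_cons, List.map_cons,
          tm_ne J a R h]

theorem wv_res [DecidableEq V] (T : Finset V) (a' : σ → V → S) (R' : σ → V → V → S)
    (ha : ∀ s u, a' s u = if u ∈ T then a s u else 0)
    (hR : ∀ s i j, R' s i j = if i ∈ T ∧ j ∈ T then R s i j else 0) (l : List σ) :
    ∀ L : List V, (2 ≤ L.length ∨ ∀ u ∈ L, u ∈ T) →
      wv J a' R' l L = if ∀ u ∈ L, u ∈ T then wv J a R l L else 0 := by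
  induction l with
  | nil =>
    intro L hL
    match L with
    | [] => simp [wv, e0]
    | [u] =>
      rcases hL with hL | hL
      · simp at hL
      · rw [if_pos hL]; rfl
    | u :: u' :: t => simp [wv, e0]
  | cons s l ih =>
    intro L hL
    match L with
    | [] => simp [wv, tm]
    | [u] =>
      rcases hL with hL | hL
      · simp at hL
      · have hu : u ∈ T := hL u (by simp)
        rw [if_pos hL]
        by_cases h : J s
        · rw [wv, wv, tm_self J _ _ h, tm_self J _ _ h, ha, if_pos hu, ih _ (Or.inr hL), if_pos hL]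
        · rw [wv, wv, tm_ne_single J _ _ h, tm_ne_single J _ _ h]
    | u :: u' :: t =>
      by_cases h : J s
      · rw [wv, wv, tm_self J _ _ h, tm_self J _ _ h, ha, ih _ (Or.inl (by simp))]
        by_cases h1 : ∀ v ∈ u :: u' :: t, v ∈ T
        · rw [if_pos h1, if_pos h1, if_pos (h1 u (by simp))]
        · rw [if_neg h1, if_neg h1, mul_zero]
      · rw [wv, wv, tm_ne J _ _ h, tm_ne J _ _ h, hR]
        by_cases h1 : ∀ v ∈ u :: u' :: t, v ∈ T
        · rw [if_pos h1, if_pos ⟨h1 u (by simp), h1 u' (by simp)⟩,
            ih _ (Or.inr fun v hv => h1 v (List.mem_cons_of_mem _ hv)),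
            if_pos (fun v hv => h1 v (List.mem_cons_of_mem _ hv))]
        · rw [if_neg h1]
          by_cases h2 : u ∈ T ∧ u' ∈ T
          · have h3 : ¬ ∀ v ∈ u' :: t, v ∈ T := by
              intro h4
              apply h1
              intro v hv
              rcases List.mem_cons.mp hv with rfl | hv
              · exact h2.1
              · exact h4 v hv
            have h5 : 2 ≤ (u' :: t).length := by
              match t with
              | [] =>
                exfalso; apply h3
                intro v hv
                rw [List.mem_singleton] at hv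
                rw [hv]; exact h2.2
              | _ :: _ => simp
            rw [ih _ (Or.inl h5), if_neg h3, mul_zero]
          · rw [if_neg h2, zero_mul]

end Walk

section Expand

variable {S : Type*} [CommRing S] [Algebra K S] {n : ℕ}
  (a : σ → Fin n → S) (R : σ → Fin n → Fin n → S)

/-- The matrices. -/
def mt (s : σ) : Matrix (Fin n) (Fin n) S := if J s then Matrix.diagonal (a s) else Matrix.of (R s)

theorem expand_word (w : Fin n) (l : List σ) : ∀ (m : ℕ) (u : Fin n), yd J l = m →
    ((l.map (mt J a R)).prod) u w = ∑ v : Fin (m + 1) → Fin n,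
      if v 0 = u ∧ v (Fin.last m) = w then wv J a R l (List.ofFn v) else 0 := by
  induction l with
  | nil =>
    intro m u hm
    rw [yd_nil] at hm
    subst hm
    rw [List.map_nil, List.prod_nil, Matrix.one_apply]
    by_cases h : u = w
    · subst h
      rw [if_pos rfl, Finset.sum_eq_single (fun _ => u)]
      · rw [if_pos ⟨rfl, rfl⟩]; simp [wv, e0]
      · intro v _ hv
        refine if_neg fun hh => hv ?_
        funext i
        have hi : i = 0 := Fin.ext (by have := i.isLt; simp only [Fin.val_zero]; omega)
        rw [hi]; exact hh.1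
      · intro h; exact absurd (Finset.mem_univ _) h
    · rw [if_neg h]
      symm
      refine Finset.sum_eq_zero fun v _ => if_neg fun hh => h ?_
      rw [← hh.1, ← hh.2]
      rfl
  | cons s l ih =>
    intro m u hm
    rw [List.map_cons, List.prod_cons, Matrix.mul_apply]
    by_cases hs : J s
    · rw [yd_cons_self J hs] at hm
      rw [Finset.sum_eq_single u]
      · rw [ih m u hm, Finset.mul_sum]
        refine Finset.sum_congr rfl fun v _ => ?_
        by_cases h : v 0 = u ∧ v (Fin.last m) = w
        · rw [if_pos h, if_pos h, wv, List.ofFn_succ, tm_self J _ _ hs, h.1, mt, if_pos hs,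
            Matrix.diagonal_apply_eq]
        · rw [if_neg h, if_neg h, mul_zero]
      · intro b _ hb
        rw [mt, if_pos hs, Matrix.diagonal_apply_ne _ (Ne.symm hb), zero_mul]
      · intro h; exact absurd (Finset.mem_univ _) h
    · rw [yd_cons_of_ne J hs] at hm
      obtain ⟨m', rfl⟩ : ∃ m', m = m' + 1 := ⟨yd J l, hm.symm⟩
      have hm' : yd J l = m' := by omega
      have hR' : (∑ v : Fin (m' + 1 + 1) → Fin n,
          if v 0 = u ∧ v (Fin.last (m' + 1)) = w then wv J a R (s :: l) (List.ofFn v) else 0) =
          ∑ v : Fin (m' + 1) → Fin n, if v (Fin.last m') = w then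
            R s u (v 0) * wv J a R l (List.ofFn v) else 0 := by
        rw [← (Fin.consEquiv (fun _ : Fin (m' + 2) => Fin n)).sum_comp, Fintype.sum_prod_type,
          Finset.sum_eq_single u]
        · refine Finset.sum_congr rfl fun v _ => ?_
          have e2 : (Fin.consEquiv (fun _ : Fin (m' + 2) => Fin n)) (u, v) =
              (Fin.cons u v : Fin (m' + 2) → Fin n) := rfl
          have e3 : (Fin.cons u v : Fin (m' + 2) → Fin n) (Fin.last (m' + 1)) =
              v (Fin.last m') := by
            rw [← Fin.succ_last, Fin.cons_succ]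
          rw [e2, Fin.cons_zero, e3]
          by_cases h : v (Fin.last m') = w
          · rw [if_pos ⟨rfl, h⟩, if_pos h, wv, List.ofFn_succ, Fin.cons_zero]
            simp only [Fin.cons_succ]
            rw [List.ofFn_succ, tm_ne J a R hs]
          · rw [if_neg (fun hh => h hh.2), if_neg h]
        · intro b _ hb
          refine Finset.sum_eq_zero fun v _ => if_neg fun hh => hb ?_
          exact hh.1
        · intro h; exact absurd (Finset.mem_univ _) h
      have e1 : ∀ b, mt J a R s u b * ((l.map (mt J a R)).prod) b w =
          ∑ v : Fin (m' + 1) → Fin n, if v 0 = b ∧ v (Fin.last m') = w then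
            R s u (v 0) * wv J a R l (List.ofFn v) else 0 := by
        intro b
        rw [ih m' b hm', Finset.mul_sum]
        refine Finset.sum_congr rfl fun v _ => ?_
        by_cases h : v 0 = b ∧ v (Fin.last m') = w
        · rw [if_pos h, if_pos h, mt, if_neg hs, Matrix.of_apply, h.1]
        · rw [if_neg h, if_neg h, mul_zero]
      rw [hR', Finset.sum_congr rfl fun b _ => e1 b, Finset.sum_comm]
      refine Finset.sum_congr rfl fun v _ => ?_
      rw [Finset.sum_eq_single (v 0)]
      · by_cases h : v (Fin.last m') = w
        · rw [if_pos ⟨rfl, h⟩, if_pos h]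
        · rw [if_neg (fun hh => h hh.2), if_neg h]
      · intro b _ hb
        exact if_neg fun hh => hb hh.1.symm
      · intro h; exact absurd (Finset.mem_univ _) h

theorem expand {m : ℕ} {f : FreeAlgebra K σ} (hf : f ∈ WD K J m) (u w : Fin n) :
    (FreeAlgebra.lift K (mt J a R) f) u w = ∑ v : Fin (m + 1) → Fin n,
      if v 0 = u ∧ v (Fin.last m) = w then gw J a R f (List.ofFn v) else 0 := by
  refine Submodule.span_induction (p := fun f _ => (FreeAlgebra.lift K (mt J a R) f) u w =
    ∑ v : Fin (m + 1) → Fin n,
      if v 0 = u ∧ v (Fin.last m) = w then gw J a R f (List.ofFn v) else 0) ?_ ?_ ?_ ?_ hf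
  · rintro _ ⟨l, hl, rfl⟩
    rw [lift_word, expand_word J a R w l m u hl]
    refine Finset.sum_congr rfl fun v _ => ?_
    rw [gw_word]
  · rw [map_zero, Matrix.zero_apply]
    symm
    refine Finset.sum_eq_zero fun v _ => ?_
    rw [gw_zero]; simp
  · intro f g _ _ h1 h2
    rw [map_add, Matrix.add_apply, h1, h2, ← Finset.sum_add_distrib]
    refine Finset.sum_congr rfl fun v _ => ?_
    rw [gw_add]
    split_ifs <;> simp
  · intro c f _ h1
    rw [map_smul, Matrix.smul_apply, h1, Finset.smul_sum]
    refine Finset.sum_congr rfl fun v _ => ?_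
    rw [gw_smul]
    split_ifs <;> simp

end Expand

end Pool.Agent.TH901.NC
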