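import Mathlib
import Pool.Agent.TH901.NC.Words
import Pool.Agent.TH901.NC.Nil

/-!
Vanishing on smaller matrices; only surjective walks contribute.
-/

set_option autoImplicit false
set_option linter.all false

namespace Pool.Agent.TH901.NC

open Matrix Pool.Agent.H552R3.PC Pool.Agent.TH46.NC

variable {K : Type*} [Field K] {σ : Type*} (J : σ → Prop) [DecidablePred J]

theorem ne_nil_of_yd {l : List σ} {m : ℕ} (hm : 0 < m) (h : yd J l = m) : l ≠ [] := by
  rintro rfl
  rw [yd_nil] at h
  omega

section Emb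

variable {B : Type*} [CommRing B] [Algebra K B] {p q : ℕ}
  (P : Matrix (Fin p) (Fin q) B) (Q : Matrix (Fin q) (Fin p) B)

theorem emb_word (hQP : Q * P = 1) (X : σ → Matrix (Fin q) (Fin q) B) (l : List σ) (hl : l ≠ []) :
    (l.map (fun s => P * X s * Q)).prod = P * (l.map X).prod * Q := by
  induction l with
  | nil => exact absurd rfl hl
  | cons s l ih =>
    rw [List.map_cons, List.prod_cons, List.map_cons, List.prod_cons]
    by_cases h : l = []
    · subst h; simp
    · rw [ih h]
      calc P * X s * Q * (P * (l.map X).prod * Q) = P * X s * (Q * P) * (l.map X).prod * Q := by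
            simp only [Matrix.mul_assoc]
        _ = _ := by rw [hQP, Matrix.mul_one]; simp only [Matrix.mul_assoc]

theorem lift_emb (hQP : Q * P = 1) {m : ℕ} (hm : 0 < m) {f : FreeAlgebra K σ} (hf : f ∈ WD K J m)
    (X : σ → Matrix (Fin q) (Fin q) B) :
    FreeAlgebra.lift K (fun s => P * X s * Q) f = P * FreeAlgebra.lift K X f * Q := by
  refine Submodule.span_induction (p := fun f _ =>
    FreeAlgebra.lift K (fun s => P * X s * Q) f = P * FreeAlgebra.lift K X f * Q) ?_ ?_ ?_ ?_ hf
  · rintro _ ⟨l, hl, rfl⟩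
    rw [lift_word, lift_word, emb_word P Q hQP X l (ne_nil_of_yd J hm hl)]
  · rw [map_zero, map_zero, Matrix.mul_zero, Matrix.zero_mul]
  · intro f g _ _ h1 h2
    rw [map_add, map_add, h1, h2, Matrix.mul_add, Matrix.add_mul]
  · intro c f _ h1
    rw [map_smul, map_smul, h1, Matrix.mul_smul, Matrix.smul_mul]

theorem emb_pow (hQP : Q * P = 1) (F : Matrix (Fin q) (Fin q) B) (ν : ℕ) (hν : 0 < ν) :
    (P * F * Q) ^ ν = P * F ^ ν * Q := by
  obtain ⟨m, rfl⟩ : ∃ m, ν = m + 1 := ⟨ν - 1, by omega⟩
  clear hν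
  induction m with
  | zero => simp
  | succ m ih =>
    rw [pow_succ, ih, pow_succ F (m + 1)]
    calc P * F ^ (m + 1) * Q * (P * F * Q) = P * F ^ (m + 1) * (Q * P) * F * Q := by
          simp only [Matrix.mul_assoc]
      _ = _ := by rw [hQP, Matrix.mul_one]; simp only [Matrix.mul_assoc]

/-- The inclusion omitting `z`. -/
def Pz (B : Type*) [CommRing B] {N : ℕ} (z : Fin (N + 1)) : Matrix (Fin (N + 1)) (Fin N) B :=
  Matrix.of fun i a => if i = z.succAbove a then 1 else 0

theorem Pz_mul {N : ℕ} (z : Fin (N + 1)) : (Pz B z).transpose * Pz B z = 1 := by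
  ext1 a b
  rw [Matrix.mul_apply, Finset.sum_eq_single (z.succAbove a)]
  · simp only [Matrix.transpose_apply, Pz, Matrix.of_apply, if_true, one_mul]
    by_cases h : a = b
    · subst h; simp
    · rw [Matrix.one_apply_ne h, if_neg]
      intro hh; exact h (Fin.succAbove_right_injective hh)
  · intro i _ hi
    simp only [Matrix.transpose_apply, Pz, Matrix.of_apply]
    rw [if_neg hi, zero_mul]
  · intro h; exact absurd (Finset.mem_univ _) h

theorem Pz_zero {N : ℕ} (z : Fin (N + 1)) (F : Matrix (Fin N) (Fin N) B)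
    (Q' : Matrix (Fin N) (Fin (N + 1)) B) (j : Fin (N + 1)) :
    (Pz B z * F * Q') z j = 0 := by
  rw [Matrix.mul_assoc, Matrix.mul_apply]
  refine Finset.sum_eq_zero fun a _ => ?_
  rw [Pz, Matrix.of_apply, if_neg (Fin.succAbove_ne z a).symm, zero_mul]

theorem Pz_sub {N : ℕ} (z : Fin (N + 1)) (U : Matrix (Fin (N + 1)) (Fin (N + 1)) B)
    (h1 : ∀ j, U z j = 0) (h2 : ∀ i, U i z = 0) :
    U = Pz B z * U.submatrix z.succAbove z.succAbove * (Pz B z).transpose := by
  ext1 i j
  rcases Fin.eq_self_or_eq_succAbove z i with rfl | ⟨a, rfl⟩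
  · rw [h1, Pz_zero]
  · rcases Fin.eq_self_or_eq_succAbove z j with rfl | ⟨b, rfl⟩
    · rw [h2, Matrix.mul_apply]
      symm
      refine Finset.sum_eq_zero fun c _ => ?_
      rw [Matrix.transpose_apply, Pz, Matrix.of_apply, if_neg (Fin.succAbove_ne _ c).symm, mul_zero]
    · rw [Matrix.mul_apply, Finset.sum_eq_single b]
      · rw [Matrix.transpose_apply, Matrix.mul_apply, Finset.sum_eq_single a]
        · simp [Pz]
        · intro c _ hc
          rw [Pz, Matrix.of_apply, if_neg, zero_mul]
          intro hh; exact hc (Fin.succAbove_right_injective hh).symm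
        · intro h; exact absurd (Finset.mem_univ _) h
      · intro c _ hc
        rw [Matrix.transpose_apply, Pz, Matrix.of_apply, if_neg, mul_zero]
        intro hh; exact hc (Fin.succAbove_right_injective hh).symm
      · intro h; exact absurd (Finset.mem_univ _) h

end Emb

variable {N ν : ℕ} [Infinite K]

/-- `f` vanishes on matrices of size one less. -/
theorem vanish_small (hN : 0 < N) (hν : 0 < ν) {m : ℕ} (hm : 0 < m) {f : FreeAlgebra K σ}
    (hf : f ∈ WD K J m)
    (hsc : ∀ (X : σ → Matrix (Fin (N + 1)) (Fin (N + 1)) K) (Z : Matrix (Fin (N + 1)) (Fin (N + 1)) K),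
      FreeAlgebra.lift K X (f ^ ν) * Z = Z * FreeAlgebra.lift K X (f ^ ν))
    (X : σ → Matrix (Fin N) (Fin N) K) : FreeAlgebra.lift K X f = 0 := by
  haveI : NeZero N := ⟨hN.ne'⟩
  refine zero_of_nil f ν (fun X => ?_) X
  set z : Fin (N + 1) := Fin.last N
  set P := Pz K z with hP
  have hQP := Pz_mul (B := K) z
  have h1 := lift_emb J P P.transpose hQP hm hf X
  obtain ⟨c, hc⟩ := scalar_of_comm _ (hsc (fun s => P * X s * P.transpose))
  rw [map_pow, h1, emb_pow P P.transpose hQP _ ν hν] at hc
  have h2 := congrFun (congrFun hc z) z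
  rw [Pz_zero] at h2
  have hc0 : c = 0 := by simpa using h2.symm
  rw [hc0, map_zero] at hc
  calc (FreeAlgebra.lift K X f) ^ ν =
        (P.transpose * P) * (FreeAlgebra.lift K X f) ^ ν * (P.transpose * P) := by
        rw [hQP, Matrix.one_mul, Matrix.mul_one]
    _ = P.transpose * (P * (FreeAlgebra.lift K X f) ^ ν * P.transpose) * P := by
        simp only [Matrix.mul_assoc]
    _ = 0 := by rw [hc, Matrix.mul_zero, Matrix.zero_mul]

section Surj

variable {B : Type*} [CommRing B] [Algebra K B] {f : FreeAlgebra K σ}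
  (a : σ → Fin (N + 1) → B) (R : σ → Fin (N + 1) → Fin (N + 1) → B)

theorem lift_support {m : ℕ} (hm : 0 < m) (hf : f ∈ WD K J m)
    (hsm : ∀ X : σ → Matrix (Fin N) (Fin N) K, FreeAlgebra.lift K X f = 0)
    (z : Fin (N + 1)) (U : σ → Matrix (Fin (N + 1)) (Fin (N + 1)) B)
    (h1 : ∀ s j, U s z j = 0) (h2 : ∀ s i, U s i z = 0) : FreeAlgebra.lift K U f = 0 := by
  have e : U = fun s => Pz B z * (U s).submatrix z.succAbove z.succAbove * (Pz B z).transpose := by
    funext s
    exact Pz_sub z (U s) (h1 s) (h2 s)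
  rw [e, lift_emb J _ _ (Pz_mul z) hm hf, transfer f hsm, Matrix.mul_zero, Matrix.zero_mul]

theorem gw_res {V : Type*} [DecidableEq V] {B : Type*} [CommRing B] [Algebra K B]
    {f : FreeAlgebra K σ} {m : ℕ} (hf : f ∈ WD K J m)
    (a : σ → V → B) (R : σ → V → V → B) (T : Finset V)
    (L : List V) (hL : 2 ≤ L.length) :
    gw J (fun s u => if u ∈ T then a s u else 0)
      (fun s i j => if i ∈ T ∧ j ∈ T then R s i j else 0) f L =
      if ∀ u ∈ L, u ∈ T then gw J a R f L else 0 := by
  refine Submodule.span_induction (p := fun f _ =>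
    gw J (fun s u => if u ∈ T then a s u else 0)
      (fun s i j => if i ∈ T ∧ j ∈ T then R s i j else 0) f L =
      if ∀ u ∈ L, u ∈ T then gw J a R f L else 0) ?_ ?_ ?_ ?_ hf
  · rintro _ ⟨l, hl, rfl⟩
    rw [gw_word, gw_word]
    exact wv_res J a R T _ _ (fun _ _ => rfl) (fun _ _ _ => rfl) l L (Or.inl hL)
  · rw [gw_zero, gw_zero]; simp
  · intro f g _ _ h1 h2
    rw [gw_add, gw_add, h1, h2]
    split_ifs <;> simp
  · intro c f _ h1
    rw [gw_smul, gw_smul, h1]
    split_ifs <;> simp

theorem part_sum {m : ℕ} (hm : 0 < m) (hf : f ∈ WD K J m)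
    (hsm : ∀ X : σ → Matrix (Fin N) (Fin N) K, FreeAlgebra.lift K X f = 0)
    (u w : Fin (N + 1)) (T : Finset (Fin (N + 1))) (hT : T ≠ Finset.univ) :
    ∑ v : Fin (m + 1) → Fin (N + 1), (if v 0 = u ∧ v (Fin.last m) = w ∧ ∀ k, v k ∈ T then
      gw J a R f (List.ofFn v) else 0) = 0 := by
  obtain ⟨z, hz⟩ : ∃ z, z ∉ T := by
    by_contra hcon
    push Not at hcon
    exact hT (Finset.eq_univ_iff_forall.mpr hcon)
  have h1 := lift_support J hm hf hsm z (mt J (fun s u => if u ∈ T then a s u else 0)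
      (fun s i j => if i ∈ T ∧ j ∈ T then R s i j else 0)) (by
      intro s j
      rw [mt]
      split_ifs
      · by_cases h : z = j
        · subst h; rw [Matrix.diagonal_apply_eq, if_neg hz]
        · rw [Matrix.diagonal_apply_ne _ h]
      · rw [Matrix.of_apply, if_neg (fun h => hz h.1)]) (by
      intro s j
      rw [mt]
      split_ifs
      · by_cases h : j = z
        · subst h; rw [Matrix.diagonal_apply_eq, if_neg hz]
        · rw [Matrix.diagonal_apply_ne _ h]
      · rw [Matrix.of_apply, if_neg (fun h => hz h.2)])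
  have h2 := congrFun (congrFun h1 u) w
  rw [expand J _ _ hf, Matrix.zero_apply] at h2
  refine Eq.trans (Finset.sum_congr rfl fun v _ => ?_) h2
  rw [gw_res J hf a R T _ (by rw [List.length_ofFn]; omega)]
  have h3 : (∀ u ∈ List.ofFn v, u ∈ T) ↔ ∀ k, v k ∈ T := by
    rw [List.forall_mem_ofFn_iff]
  by_cases h : v 0 = u ∧ v (Fin.last m) = w
  · rw [if_pos h]
    by_cases h4 : ∀ k, v k ∈ T
    · rw [if_pos ⟨h.1, h.2, h4⟩, if_pos (h3.mpr h4)]
    · rw [if_neg (fun hh => h4 hh.2.2), if_neg (fun hh => h4 (h3.mp hh))]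
  · rw [if_neg h, if_neg (fun hh => h ⟨hh.1, hh.2.1⟩)]

/-- Only surjective walks contribute. -/
theorem surj_sum {m : ℕ} (hm : 0 < m) (hf : f ∈ WD K J m)
    (hsm : ∀ X : σ → Matrix (Fin N) (Fin N) K, FreeAlgebra.lift K X f = 0)
    (u w : Fin (N + 1)) :
    (FreeAlgebra.lift K (mt J a R) f) u w = ∑ v : Fin (m + 1) → Fin (N + 1),
      open Classical in
      if v 0 = u ∧ v (Fin.last m) = w ∧ Function.Surjective v then
        gw J a R f (List.ofFn v) else 0 := by
  classical
  set b : Finset (Fin (N + 1)) → B := fun T => ∑ v : Fin (m + 1) → Fin (N + 1),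
    if v 0 = u ∧ v (Fin.last m) = w ∧ Finset.univ.image v = T then
      gw J a R f (List.ofFn v) else 0 with hb
  have hA : ∀ T : Finset (Fin (N + 1)), ∑ T' ∈ T.powerset, b T' =
      ∑ v : Fin (m + 1) → Fin (N + 1), (if v 0 = u ∧ v (Fin.last m) = w ∧ ∀ k, v k ∈ T then
      gw J a R f (List.ofFn v) else 0) := by
    intro T
    simp only [hb]
    rw [Finset.sum_comm]
    refine Finset.sum_congr rfl fun v _ => ?_
    by_cases h : v 0 = u ∧ v (Fin.last m) = w ∧ ∀ k, v k ∈ T
    · rw [if_pos h, Finset.sum_eq_single (Finset.univ.image v)]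
      · rw [if_pos ⟨h.1, h.2.1, rfl⟩]
      · intro T' _ hT'
        exact if_neg fun hh => hT' hh.2.2.symm
      · intro hh
        exfalso; apply hh
        rw [Finset.mem_powerset]
        intro y hy
        obtain ⟨k, _, rfl⟩ := Finset.mem_image.mp hy
        exact h.2.2 k
    · rw [if_neg h]
      refine Finset.sum_eq_zero fun T' hT' => if_neg fun hh => h ⟨hh.1, hh.2.1, fun k => ?_⟩
      rw [Finset.mem_powerset] at hT'
      apply hT'
      rw [← hh.2.2]
      exact Finset.mem_image_of_mem _ (Finset.mem_univ k)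
  have hB : ∀ T : Finset (Fin (N + 1)), T ≠ Finset.univ → b T = 0 := by
    intro T
    induction T using Finset.strongInduction with
    | H T ih =>
      intro hT
      have h1 := hA T
      rw [part_sum J a R hm hf hsm u w T hT, Finset.sum_eq_single T] at h1
      · exact h1
      · intro T' hT' hne
        have h2 : T' ⊂ T := by
          rw [Finset.mem_powerset] at hT'
          exact lt_of_le_of_ne hT' hne
        refine ih T' h2 fun h3 => ?_
        rw [h3] at h2
        exact h2.2 (Finset.subset_univ T)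
      · intro h; exact absurd (Finset.mem_powerset_self T) h
  have h1 := hA Finset.univ
  rw [Finset.sum_eq_single Finset.univ] at h1
  · rw [expand J a R hf]
    have h2 : (∑ v : Fin (m + 1) → Fin (N + 1), if v 0 = u ∧ v (Fin.last m) = w then
        gw J a R f (List.ofFn v) else 0) = ∑ v : Fin (m + 1) → Fin (N + 1),
        (if v 0 = u ∧ v (Fin.last m) = w ∧ ∀ k, v k ∈ (Finset.univ : Finset (Fin (N + 1))) then
        gw J a R f (List.ofFn v) else 0) := by
      refine Finset.sum_congr rfl fun v _ => ?_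
      by_cases h : v 0 = u ∧ v (Fin.last m) = w
      · rw [if_pos h, if_pos ⟨h.1, h.2, fun k => Finset.mem_univ _⟩]
      · rw [if_neg h, if_neg (fun hh => h ⟨hh.1, hh.2.1⟩)]
    rw [h2, ← h1]
    simp only [hb]
    refine Finset.sum_congr rfl fun v _ => ?_
    have h3 : Finset.univ.image v = Finset.univ ↔ Function.Surjective v := by
      rw [Finset.eq_univ_iff_forall]
      constructor
      · intro h4 y
        obtain ⟨k, _, hk⟩ := Finset.mem_image.mp (h4 y)
        exact ⟨k, hk⟩
      · intro h4 y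
        obtain ⟨k, hk⟩ := h4 y
        exact Finset.mem_image.mpr ⟨k, Finset.mem_univ _, hk⟩
    by_cases h : v 0 = u ∧ v (Fin.last m) = w ∧ Function.Surjective v
    · rw [if_pos h, if_pos ⟨h.1, h.2.1, h3.mpr h.2.2⟩]
    · rw [if_neg h, if_neg (fun hh => h ⟨hh.1, hh.2.1, h3.mp hh.2.2⟩)]
  · intro T _ hT
    exact hB T hT
  · intro h; exact absurd (Finset.mem_powerset_self _) h

end Surj

end Pool.Agent.TH901.NC
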