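import Mathlib
import Pool.Agent.TH901.NC.Small

/-!
The walk system of a noncommutative polynomial.
-/

set_option autoImplicit false
set_option linter.all false

namespace Pool.Agent.TH901.NC

open Matrix Pool.Agent.H552R3.PC Pool.Agent.TH46.NC Polynomial

variable {K : Type*} [Field K] {σ : Type*} (J : σ → Prop) [DecidablePred J]

/-- Coordinates. -/
abbrev CA (K : Type*) [Field K] (σ : Type*) (N : ℕ) :=
  MvPolynomial ((σ × Fin (N + 1)) ⊕ (σ × Fin (N + 1) × Fin (N + 1))) K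

/-- The generic diagonal entries. -/
noncomputable def ca (K : Type*) [Field K] (σ : Type*) (N : ℕ) (s : σ) (i : Fin (N + 1)) :
    CA K σ N := MvPolynomial.X (Sum.inl (s, i))

/-- The generic entries of the other variables. -/
noncomputable def cR (K : Type*) [Field K] (σ : Type*) (N : ℕ) (s : σ) (i j : Fin (N + 1)) :
    CA K σ N := MvPolynomial.X (Sum.inr (s, i, j))

section

variable {N : ℕ}

/-- The weights. -/
noncomputable def phi (K : Type*) [Field K] (σ : Type*) (N : ℕ)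
    (ε : Fin (N + 1) → Fin (N + 1) → (CA K σ N)[X]) : CA K σ N →ₐ[K] (CA K σ N)[X] :=
  MvPolynomial.aeval (Sum.elim (fun p => C (ca K σ N p.1 p.2))
    (fun p => ε p.2.1 p.2.2 * C (cR K σ N p.1 p.2.1 p.2.2)))

/-- The renamings. -/
noncomputable def psi (K : Type*) [Field K] (σ : Type*) (N : ℕ)
    (τ : Equiv.Perm (Fin (N + 1))) : CA K σ N →ₐ[K] CA K σ N :=
  MvPolynomial.rename (Sum.map (fun p => (p.1, τ p.2)) (fun p => (p.1, τ p.2.1, τ p.2.2)))

theorem psi_inj (τ : Equiv.Perm (Fin (N + 1))) : Function.Injective (psi K σ N τ) := by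
  refine MvPolynomial.rename_injective _ (Function.Injective.sumMap ?_ ?_)
  · rintro ⟨s, a⟩ ⟨s', a'⟩ hh
    simp only [Prod.mk.injEq] at hh
    rw [Prod.mk.injEq]
    exact ⟨hh.1, τ.injective hh.2⟩
  rintro ⟨s, a, b⟩ ⟨s', a', b'⟩ hh
  simp only [Prod.mk.injEq] at hh
  obtain ⟨r1, r2, r3⟩ := hh
  rw [Prod.mk.injEq, Prod.mk.injEq]
  exact ⟨r1, τ.injective r2, τ.injective r3⟩

theorem gw_hom {V S S' : Type*} [CommRing S] [Algebra K S] [CommRing S'] [Algebra K S']
    (a : σ → V → S) (R : σ → V → V → S) (φ ι : S →ₐ[K] S') (ε : V → V → S')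
    (ha : ∀ s u, φ (a s u) = ι (a s u)) (hR : ∀ s i j, φ (R s i j) = ε i j * ι (R s i j))
    {m : ℕ} {f : FreeAlgebra K σ} (hf : f ∈ WD K J m) (L : List V) :
    φ (gw J a R f L) = ew ε L * ι (gw J a R f L) := by
  refine Submodule.span_induction (p := fun f _ =>
    φ (gw J a R f L) = ew ε L * ι (gw J a R f L)) ?_ ?_ ?_ ?_ hf
  · rintro _ ⟨l, hl, rfl⟩
    rw [gw_word]
    exact wv_hom J a R φ.toRingHom ι.toRingHom ε ha hR l L
  · rw [gw_zero, map_zero, map_zero, mul_zero]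
  · intro f g _ _ h1 h2
    rw [gw_add, map_add, map_add, h1, h2, mul_add]
  · intro c f _ h1
    rw [gw_smul, map_smul, map_smul, h1, mul_smul_comm]

theorem gw_map {V S : Type*} [CommRing S] [Algebra K S]
    (a : σ → V → S) (R : σ → V → V → S) (φ : S →ₐ[K] S) (θ : V → V)
    (ha : ∀ s u, φ (a s u) = a s (θ u)) (hR : ∀ s i j, φ (R s i j) = R s (θ i) (θ j))
    {m : ℕ} {f : FreeAlgebra K σ} (hf : f ∈ WD K J m) (L : List V) :
    φ (gw J a R f L) = gw J a R f (L.map θ) := by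
  refine Submodule.span_induction (p := fun f _ =>
    φ (gw J a R f L) = gw J a R f (L.map θ)) ?_ ?_ ?_ ?_ hf
  · rintro _ ⟨l, hl, rfl⟩
    rw [gw_word, gw_word]
    exact wv_map J a R φ.toRingHom θ ha hR l L
  · rw [gw_zero, gw_zero, map_zero]
  · intro f g _ _ h1 h2
    rw [gw_add, gw_add, map_add, h1, h2]
  · intro c f _ h1
    rw [gw_smul, gw_smul, map_smul, h1]

theorem ew_ofFn {V S : Type*} [CommRing S] (ε : V → V → S) :
    ∀ (m : ℕ) (v : Fin (m + 1) → V), ew ε (List.ofFn v) =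
      ∏ k : Fin m, ε (v k.castSucc) (v k.succ) := by
  intro m
  induction m with
  | zero =>
    intro v
    rw [List.ofFn_succ, List.ofFn_zero]
    simp [ew]
  | succ m ih =>
    intro v
    rw [List.ofFn_succ, List.ofFn_succ, ew, Fin.prod_univ_succ]
    congr 1
    have := ih (fun k => v k.succ)
    rw [List.ofFn_succ] at this
    exact this

theorem phi_gw {m : ℕ} {f : FreeAlgebra K σ} (hf : f ∈ WD K J m)
    (ε : Fin (N + 1) → Fin (N + 1) → (CA K σ N)[X]) (v : Fin (m + 1) → Fin (N + 1)) :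
    phi K σ N ε (gw J (ca K σ N) (cR K σ N) f (List.ofFn v)) =
      (∏ k : Fin m, ε (v k.castSucc) (v k.succ)) *
        C (gw J (ca K σ N) (cR K σ N) f (List.ofFn v)) := by
  rw [gw_hom J (ca K σ N) (cR K σ N) (phi K σ N ε) (Polynomial.CAlgHom (R := K) (A := CA K σ N)) ε
    (fun s u => ?_) (fun s i j => ?_) hf, ew_ofFn]
  · rfl
  · rw [phi, ca, MvPolynomial.aeval_X]; rfl
  · rw [phi, cR, MvPolynomial.aeval_X]; rfl

theorem psi_gw {m : ℕ} {f : FreeAlgebra K σ} (hf : f ∈ WD K J m)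
    (τ : Equiv.Perm (Fin (N + 1))) (v : Fin (m + 1) → Fin (N + 1)) :
    psi K σ N τ (gw J (ca K σ N) (cR K σ N) f (List.ofFn v)) =
      gw J (ca K σ N) (cR K σ N) f (List.ofFn (τ ∘ v)) := by
  rw [gw_map J (ca K σ N) (cR K σ N) (psi K σ N τ) τ (fun s u => ?_) (fun s i j => ?_) hf,
    List.map_ofFn]
  · rw [psi, ca, MvPolynomial.rename_X]; rfl
  · rw [psi, cR, MvPolynomial.rename_X]; rfl

theorem root_poly {ι : Type*} {ν : ℕ} (hν : 0 < ν) (a b : (MvPolynomial ι K)[X]) (ha : a ≠ 0)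
    (h : a ^ ν = b ^ ν) : ∃ ζ : K, b = C (algebraMap K (MvPolynomial ι K) ζ) * a := by
  have h1 : a ∣ b :=
    (IsIntegrallyClosed.pow_dvd_pow_iff (R := (MvPolynomial ι K)[X]) hν.ne').mp (h ▸ dvd_rfl)
  obtain ⟨u, rfl⟩ := h1
  have h2 : u ^ ν = 1 := by
    rw [mul_pow] at h
    have hxν : a ^ ν ≠ 0 := pow_ne_zero _ ha
    exact mul_left_cancel₀ hxν (by rw [← h, mul_one])
  have h3 : IsUnit u := IsUnit.of_pow_eq_one h2 hν.ne'
  obtain ⟨r, hr, rfl⟩ := Polynomial.isUnit_iff.mp h3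
  obtain ⟨c, _, rfl⟩ := MvPolynomial.isUnit_iff_eq_C_of_isReduced.mp hr
  exact ⟨c, by rw [mul_comm]; rfl⟩

theorem scalar_of_comm' {B : Type*} [CommRing B] [Algebra K B] {n : ℕ}
    (M : Matrix (Fin n) (Fin n) B)
    (h : ∀ Y : Matrix (Fin n) (Fin n) K, M * Y.map (algebraMap K B) = Y.map (algebraMap K B) * M) :
    ∃ c : B, M = Matrix.scalar (Fin n) c := by
  obtain ⟨c, hc⟩ := Matrix.mem_range_scalar_iff_commute_single'.mpr
    (fun i j => by
      have := h (Matrix.single i j 1)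
      rw [Matrix.map_single, map_one] at this
      exact this.symm)
  exact ⟨c, hc.symm⟩

end

variable {N ν : ℕ} [Infinite K]

/-- The walk system of `f`. -/
noncomputable def ws (hν : 0 < ν) {f : FreeAlgebra K σ} (hf : f ∈ WD K J (N + 1))
    (hsm : ∀ X : σ → Matrix (Fin N) (Fin N) K, FreeAlgebra.lift K X f = 0) (s : CA K σ N)
    (hs : (FreeAlgebra.lift K (mt J (ca K σ N) (cR K σ N)) f) ^ ν = Matrix.scalar _ s) :
    WS K (CA K σ N) N ν where
  g v := gw J (ca K σ N) (cR K σ N) f (List.ofFn v)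
  φ ε := (phi K σ N ε).toRingHom
  hφ ε v := phi_gw J hf ε v
  ψ τ := psi K σ N τ
  hψ τ v := psi_gw J hf τ v
  hψi τ := psi_inj τ
  root a b ha h := root_poly hν a b ha h
  M := FreeAlgebra.lift K (mt J (ca K σ N) (cR K σ N)) f
  hM u w := by
    rw [surj_sum J _ _ (Nat.succ_pos N) hf hsm]
  s := s
  hs := hs

end Pool.Agent.TH901.NC
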