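import Mathlib
import Pool.Agent.TH901.NC.Concrete

/-!
Homogeneous components.
-/

set_option autoImplicit false
set_option linter.all false

universe u

namespace Pool.Agent.TH901.NC

open Matrix Pool.Agent.H552R3.PC Pool.Agent.TH46.NC Polynomial

section Dense

variable {K : Type u} [Field K] {σ : Type*} {N : ℕ}

theorem scalar_special (J : σ → Prop) [DecidablePred J] {f : FreeAlgebra K σ}
    (h : ∃ c, FreeAlgebra.lift K (mt J (ca K σ N) (cR K σ N)) f = Matrix.scalar _ c)
    {B : Type*} [CommRing B] [Algebra K B] (U : σ → Matrix (Fin (N + 1)) (Fin (N + 1)) B)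
    (t : σ → Fin (N + 1) → B) (hU : ∀ s, J s → U s = Matrix.diagonal (t s)) :
    ∃ c, FreeAlgebra.lift K U f = Matrix.scalar _ c := by
  obtain ⟨c, hc⟩ := h
  set χ : CA K σ N →ₐ[K] B := MvPolynomial.aeval
    (Sum.elim (fun p => t p.1 p.2) (fun p => U p.1 p.2.1 p.2.2)) with hχ
  refine ⟨χ c, ?_⟩
  have e1 : χ.mapMatrix (FreeAlgebra.lift K (mt J (ca K σ N) (cR K σ N)) f) =
      FreeAlgebra.lift K U f := by
    rw [lift_map]
    refine congrArg (fun W => FreeAlgebra.lift K W f) ?_
    funext s
    ext1 i j
    by_cases hs : J s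
    · rw [hU s hs, AlgHom.mapMatrix_apply, Matrix.map_apply, mt, if_pos hs]
      by_cases h : i = j
      · subst h
        rw [Matrix.diagonal_apply_eq, Matrix.diagonal_apply_eq, ca, hχ, MvPolynomial.aeval_X]
        rfl
      · rw [Matrix.diagonal_apply_ne _ h, Matrix.diagonal_apply_ne _ h, map_zero]
    · rw [AlgHom.mapMatrix_apply, Matrix.map_apply, mt, if_neg hs, Matrix.of_apply, cR, hχ,
        MvPolynomial.aeval_X]
      rfl
  rw [← e1, hc]
  ext1 i j
  rw [AlgHom.mapMatrix_apply, Matrix.map_apply]
  by_cases h : i = j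
  · subst h; simp
  · simp [Matrix.diagonal_apply_ne _ h]

variable [DecidableEq σ] (x : σ)

theorem scalar_of_generic [Infinite K] {f : FreeAlgebra K σ}
    (h : ∃ c, FreeAlgebra.lift K (mt (fun s => s = x) (ca K σ N) (cR K σ N)) f =
      Matrix.scalar _ c)
    (X : σ → Matrix (Fin (N + 1)) (Fin (N + 1)) K) :
    ∃ c, FreeAlgebra.lift K X f = Matrix.scalar _ c := by
  classical
  obtain ⟨lam, hlam⟩ : ∃ lam : Fin (N + 1) → K, Function.Injective lam :=
    ⟨fun i => Infinite.natEmbedding K i, fun i j h =>
      Fin.ext ((Infinite.natEmbedding K).injective h)⟩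
  set Fr := FractionRing (Polynomial K) with hFr
  set A := AlgebraicClosure Fr with hA
  letI : Algebra K A := ((algebraMap Fr A).comp ((algebraMap (Polynomial K) Fr).comp
    (algebraMap K (Polynomial K)))).toAlgebra
  set φ : Polynomial K →+* A := (algebraMap Fr A).comp (algebraMap (Polynomial K) Fr) with hφ
  have hφinj : Function.Injective φ :=
    (algebraMap Fr A).injective.comp (IsFractionRing.injective (Polynomial K) Fr)
  let φa : Polynomial K →ₐ[K] A := { φ with commutes' := fun c => rfl }
  set XL : σ → Matrix (Fin (N + 1)) (Fin (N + 1)) (Polynomial K) := fun v =>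
    if v = x then line (X x) lam else (X v).map Polynomial.C with hXL
  set V := FreeAlgebra.lift K XL f with hV
  have hsp : (Polynomial.aeval (0 : K) : Polynomial K →ₐ[K] K).mapMatrix V =
      FreeAlgebra.lift K X f := by
    rw [hV, lift_map]
    congr 2
    funext v
    by_cases hv : v = x
    · subst hv
      simp only [hXL, if_true]
      exact line_zero _ _
    · simp only [hXL, if_neg hv]
      ext a b
      simp
  obtain ⟨P, Q, t, hPQ, hQP, hT⟩ := exists_diag ((line (X x) lam).map φ)
    (line_separable (X x) lam hlam φ hφinj)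
  have hgen : ∃ c, FreeAlgebra.lift K (fun v => φa.mapMatrix (XL v)) f =
      Matrix.scalar (Fin (N + 1)) c := by
    set W : σ → Matrix (Fin (N + 1)) (Fin (N + 1)) A := fun v =>
      if v = x then Matrix.diagonal t else Q * φa.mapMatrix (XL v) * P with hW
    obtain ⟨c, hc⟩ := scalar_special (fun s => s = x) h W (fun _ => t)
      (fun s hs => by simp only [hW, if_pos hs])
    refine ⟨c, ?_⟩
    have e1 : (fun v => φa.mapMatrix (XL v)) = (fun v => P * W v * Q) := by
      funext v
      by_cases h : v = x
      · subst h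
        simp only [hW, if_true]
        rw [← hT]
        simp only [hXL, if_true]
        rfl
      · simp only [hW, if_neg h]
        have : P * (Q * φa.mapMatrix (XL v) * P) * Q =
          (P * Q) * φa.mapMatrix (XL v) * (P * Q) := by noncomm_ring
        rw [this, hPQ, one_mul, mul_one]
    rw [e1, lift_conj P Q hPQ hQP, hc, mul_assoc,
      (Matrix.scalar_commute c (fun _ => Commute.all _ _) Q).eq, ← mul_assoc, hPQ, one_mul]
  obtain ⟨c, hc⟩ := hgen
  have hc' : φa.mapMatrix V = Matrix.scalar (Fin (N + 1)) c := by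
    rw [hV, lift_map, hc]
  have hφa : Function.Injective φa := hφinj
  have hV1 : ∀ p q, p ≠ q → V p q = 0 := by
    intro p q hpq
    apply hφa
    have e := congrFun (congrFun hc' p) q
    rw [Matrix.scalar_apply, Matrix.diagonal_apply_ne _ hpq] at e
    rw [map_zero]
    exact e
  have hV2 : ∀ p, V p p = V 0 0 := by
    intro p
    apply hφa
    have e := congrFun (congrFun hc' p) p
    have e' := congrFun (congrFun hc' 0) 0
    rw [Matrix.scalar_apply, Matrix.diagonal_apply_eq] at e e'
    exact e.trans e'.symm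
  refine ⟨Polynomial.aeval (0 : K) (V 0 0), ?_⟩
  rw [← hsp]
  ext1 p q
  rw [AlgHom.mapMatrix_apply, Matrix.map_apply]
  by_cases e : p = q
  · subst e
    rw [hV2, Matrix.scalar_apply, Matrix.diagonal_apply_eq]
  · rw [hV1 p q e, map_zero, Matrix.scalar_apply, Matrix.diagonal_apply_ne _ e]

end Dense

section Low

variable {K : Type u} [Field K] {σ : Type*} (J : σ → Prop) [DecidablePred J] {N ν : ℕ} [Infinite K]

/-- Fewer than `N` letters outside `J`. -/
theorem low_lt {m : ℕ} (hm : 0 < m) (hmN : m < N) {f : FreeAlgebra K σ} (hf : f ∈ WD K J m)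
    (hsm : ∀ X : σ → Matrix (Fin N) (Fin N) K, FreeAlgebra.lift K X f = 0) :
    FreeAlgebra.lift K (mt J (ca K σ N) (cR K σ N)) f = 0 := by
  ext1 u w
  rw [surj_sum J _ _ hm hf hsm, Matrix.zero_apply]
  refine Finset.sum_eq_zero fun v _ => if_neg fun hh => ?_
  have := Fintype.card_le_of_surjective v hh.2.2
  rw [Fintype.card_fin, Fintype.card_fin] at this
  omega

/-- Exactly `N` letters outside `J`. -/
theorem low_eq (hN : 2 ≤ N) (hν : 0 < ν) {f : FreeAlgebra K σ} (hf : f ∈ WD K J N)
    (hsm : ∀ X : σ → Matrix (Fin N) (Fin N) K, FreeAlgebra.lift K X f = 0)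
    (hs : ∃ s, (FreeAlgebra.lift K (mt J (ca K σ N) (cR K σ N)) f) ^ ν = Matrix.scalar _ s) :
    FreeAlgebra.lift K (mt J (ca K σ N) (cR K σ N)) f = 0 := by
  classical
  set M := FreeAlgebra.lift K (mt J (ca K σ N) (cR K σ N)) f with hM
  set g : (Fin (N + 1) → Fin (N + 1)) → CA K σ N :=
    fun v => gw J (ca K σ N) (cR K σ N) f (List.ofFn v) with hg
  have hMs : ∀ u w, M u w = ∑ v : Fin (N + 1) → Fin (N + 1),
      if v 0 = u ∧ v (Fin.last N) = w ∧ Function.Surjective v then g v else 0 := by
    intro u w
    rw [hM, surj_sum J _ _ (by omega) hf hsm]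
  have hMp : ∃ s, M ^ ν = Matrix.scalar _ s := hs
  have hdiag : ∀ u, M u u = 0 := by
    intro u
    rw [hMs]
    refine Finset.sum_eq_zero fun v _ => if_neg fun hh => ?_
    have h1 := Finite.injective_iff_surjective.mpr hh.2.2 (hh.1.trans hh.2.1.symm)
    have h2 := congrArg Fin.val h1
    rw [Fin.val_last] at h2
    simp only [Fin.val_zero] at h2
    omega
  have hpsi : ∀ (τ : Equiv.Perm (Fin (N + 1))) u w, psi K σ N τ (M u w) = M (τ u) (τ w) := by
    intro τ u w
    rw [hMs, hMs, map_sum]
    refine Fintype.sum_equiv (Equiv.arrowCongr (Equiv.refl _) τ) _ _ fun v => ?_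
    have e1 : (Equiv.arrowCongr (Equiv.refl (Fin (N + 1))) τ v : Fin (N + 1) → _) = τ ∘ v := rfl
    rw [e1]
    have e2 : Function.Surjective (τ ∘ v) ↔ Function.Surjective v :=
      Function.Surjective.of_comp_iff' τ.bijective v
    have e5 : (τ ∘ v) 0 = τ u ↔ v 0 = u := τ.apply_eq_iff_eq
    have e6 : (τ ∘ v) (Fin.last _) = τ w ↔ v (Fin.last _) = w := τ.apply_eq_iff_eq
    by_cases h : v 0 = u ∧ v (Fin.last _) = w ∧ Function.Surjective v
    · rw [if_pos h, if_pos (by rw [e5, e6, e2]; exact h)]
      exact psi_gw J hf τ v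
    · rw [if_neg h, if_neg (by rw [e5, e6, e2]; exact h), map_zero]
  have hmul : ∀ i j, i ≠ j → M i j * M j i = 0 := by
    intro i j hij
    obtain ⟨c, hci, hcj⟩ := third hN i j
    set h : Fin (N + 1) → ℕ := fun x => if x = i ∨ x = j then 1 else 0 with hh
    have hi : h i = 1 := if_pos (Or.inl rfl)
    have hj : h j = 1 := if_pos (Or.inr rfl)
    have hle : ∀ x, h x ≤ 1 := by
      intro x; simp only [hh]; split_ifs <;> omega
    have hsum : ∑ x, h x = 2 := by
      simp only [hh]
      rw [Finset.sum_boole]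
      have : (Finset.univ.filter fun x => x = i ∨ x = j) = {i, j} := by
        ext x; simp
      rw [this, Finset.card_pair hij]
      rfl
    set ε : Fin (N + 1) → Fin (N + 1) → (CA K σ N)[X] := fun u w => X ^ (h u + h w) with hε
    have hP : ∀ u w, phi K σ N ε (M u w) = X ^ (4 - h u - h w) * C (M u w) := by
      intro u w
      rw [hMs, map_sum, map_sum, Finset.mul_sum]
      refine Finset.sum_congr rfl fun v _ => ?_
      by_cases h1 : v 0 = u ∧ v (Fin.last N) = w ∧ Function.Surjective v
      · rw [if_pos h1]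
        have e1 : phi K σ N ε (g v) = (∏ k : Fin N, ε (v k.castSucc) (v k.succ)) * C (g v) :=
          phi_gw J hf ε v
        rw [e1]
        congr 1
        simp only [hε]
        rw [Finset.prod_pow_eq_pow_sum]
        congr 1
        have hb : Function.Bijective v :=
          ⟨Finite.injective_iff_surjective.mpr h1.2.2, h1.2.2⟩
        have h3 : ∑ k, h (v k) = 2 := by
          rw [← hsum]
          exact (Equiv.ofBijective v hb).sum_comp h
        have h4 : ∑ k, h (v k) = h (v 0) + ∑ k : Fin N, h (v k.succ) := Fin.sum_univ_succ _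
        have h5 : ∑ k, h (v k) = ∑ k : Fin N, h (v k.castSucc) + h (v (Fin.last _)) :=
          Fin.sum_univ_castSucc _
        rw [Finset.sum_add_distrib, ← h1.1, ← h1.2.1]
        omega
      · rw [if_neg h1, map_zero, map_zero, mul_zero]
    obtain ⟨s, hs⟩ := hMp
    set P := (phi K σ N ε).mapMatrix M with hPd
    have hPs : P ^ ν = Matrix.scalar _ (phi K σ N ε s) := by
      rw [hPd, ← map_pow, hs]
      ext1 a b
      by_cases h : a = b
      · subst h; simp
      · simp [Matrix.diagonal_apply_ne _ h]
    have hmono : ∀ (e d : ℕ) (y : CA K σ N), (X ^ e * C y : (CA K σ N)[X]).coeff d =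
        if e = d then y else 0 := by
      intro e d y
      rw [coeff_X_pow_mul']
      by_cases h : e = d
      · rw [if_pos h.le, if_pos h, h, Nat.sub_self, coeff_C_zero]
      · rw [if_neg h]
        by_cases h4 : e ≤ d
        · rw [if_pos h4, coeff_C_ne_zero (by omega)]
        · rw [if_neg h4]
    have hPe : ∀ u w d, (P u w).coeff d = if 4 - h u - h w = d then M u w else 0 := by
      intro u w d
      have : P u w = phi K σ N ε (M u w) := rfl
      rw [this, hP, hmono]
    obtain ⟨c', hc'⟩ := low_pow P 2 ν _ hPs (by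
      intro u w d hd
      have := hle u
      have := hle w
      rw [hPe, if_neg (by omega)])
    have h2 := two_cycle (Matrix.of fun u w => (P u w).coeff 2) i j c hci hcj (by
        intro u w hwi hwj
        have hw0 : h w = 0 := if_neg (fun hh => by
          rcases hh with hh | hh
          · exact hwi hh
          · exact hwj hh)
        have := hle u
        rw [Matrix.of_apply, hPe, if_neg (by omega)]) (by
        rw [Matrix.of_apply, hPe, hdiag]; simp) (by
        rw [Matrix.of_apply, hPe, hdiag]; simp) ν hν c' hc'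
    rw [Matrix.of_apply, Matrix.of_apply, hPe, hPe, hi, hj, if_pos rfl, if_pos rfl] at h2
    exact h2
  ext1 u w
  rw [Matrix.zero_apply]
  by_cases huw : u = w
  · subst huw; exact hdiag u
  · rcases mul_eq_zero.mp (hmul u w huw) with h | h
    · exact h
    · have h1 := hpsi (Equiv.swap u w) u w
      rw [Equiv.swap_apply_left, Equiv.swap_apply_right, h] at h1
      exact psi_inj _ (h1.trans (map_zero _).symm)

/-- No letters outside `J`. -/
theorem low_zero (hν : 0 < ν) {f : FreeAlgebra K σ} (hf : f ∈ WD K J 0)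
    (hs : ∃ s, (FreeAlgebra.lift K (mt J (ca K σ N) (cR K σ N)) f) ^ ν = Matrix.scalar _ s) :
    ∃ c, FreeAlgebra.lift K (mt J (ca K σ N) (cR K σ N)) f = Matrix.scalar _ c := by
  classical
  obtain ⟨q, hq⟩ : ∃ q : MvPolynomial σ K,
      FreeAlgebra.lift K (mt J (ca K σ N) (cR K σ N)) f =
      Matrix.diagonal (fun u => MvPolynomial.aeval (fun s => ca K σ N s u) q) := by
    refine Submodule.span_induction (p := fun f _ => ∃ q : MvPolynomial σ K,
      FreeAlgebra.lift K (mt J (ca K σ N) (cR K σ N)) f =
      Matrix.diagonal (fun u => MvPolynomial.aeval (fun s => ca K σ N s u) q)) ?_ ?_ ?_ ?_ hf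
    · rintro _ ⟨l, hl, rfl⟩
      refine ⟨(l.map MvPolynomial.X).prod, ?_⟩
      rw [lift_word]
      induction l with
      | nil =>
        rw [List.map_nil, List.prod_nil, List.map_nil, List.prod_nil]
        simp
      | cons s l ih =>
        by_cases hs : J s
        · rw [yd_cons_self J hs] at hl
          rw [List.map_cons, List.prod_cons, ih hl, mt, if_pos hs, Matrix.diagonal_mul_diagonal,
            List.map_cons, List.prod_cons]
          congr 1
          funext i
          rw [map_mul, MvPolynomial.aeval_X]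
        · rw [yd_cons_of_ne J hs] at hl
          omega
    · exact ⟨0, by rw [map_zero]; simp⟩
    · rintro f g _ _ ⟨q, hq⟩ ⟨r, hr⟩
      refine ⟨q + r, ?_⟩
      rw [map_add, hq, hr, Matrix.diagonal_add]
      congr 1
      funext i
      rw [map_add]
    · rintro c f _ ⟨q, hq⟩
      refine ⟨c • q, ?_⟩
      rw [map_smul, hq]
      ext1 i j
      by_cases h : i = j
      · subst h; simp
      · simp [Matrix.diagonal_apply_ne _ h]
  obtain ⟨s, hs⟩ := hs
  rw [hq, Matrix.diagonal_pow] at hs
  set D : Fin (N + 1) → CA K σ N := fun u => MvPolynomial.aeval (fun s => ca K σ N s u) q with hDd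
  have hD : ∀ u, (D u) ^ ν = s := by
    intro u
    have := congrFun (congrFun hs u) u
    simpa using this
  have key : ∀ u w, D u = D w := by
    intro u w
    by_cases h0 : D u = 0
    · have h1 := hD w
      rw [← hD u, h0, zero_pow hν.ne'] at h1
      rw [h0, (pow_eq_zero_iff hν.ne').mp h1]
    · obtain ⟨ζ, hζ⟩ := root_poly hν (C (D u)) (C (D w))
        (by rw [Ne, C_eq_zero]; exact h0) (by rw [← C_pow, ← C_pow, hD, hD])
      rw [← C_mul] at hζ
      have h1 := C_injective hζ
      set κ : CA K σ N →ₐ[K] CA K σ N := MvPolynomial.aeval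
        (Sum.elim (fun p => ca K σ N p.1 w) (fun _ => 0)) with hκ
      have h3 : ∀ s i, κ (ca K σ N s i) = ca K σ N s w := by
        intro s i
        show κ (MvPolynomial.X (Sum.inl (s, i))) = _
        rw [hκ, MvPolynomial.aeval_X, Sum.elim_inl]
      have h4 : ∀ i, κ (D i) = D w := by
        intro i
        have h6 := MvPolynomial.comp_aeval_apply (fun s => ca K σ N s i) κ q
        have h7 : (fun s => κ (ca K σ N s i)) = fun s => ca K σ N s w := by
          funext s
          exact h3 s i
        rw [h7] at h6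
        exact h6
      have h2 := congrArg κ h1
      rw [map_mul, AlgHom.commutes, h4, h4] at h2
      have hw : D w ≠ 0 := by
        intro hh
        apply h0
        have h5 := hD u
        rw [← hD w, hh, zero_pow hν.ne'] at h5
        exact (pow_eq_zero_iff hν.ne').mp h5
      have h5 : algebraMap K (CA K σ N) ζ = 1 := by
        apply mul_right_cancel₀ hw
        rw [one_mul, ← h2]
      rw [h1, h5, one_mul]
  refine ⟨D 0, ?_⟩
  rw [hq, Matrix.scalar_apply]
  congr 1
  funext u
  exact key u 0

/-- Exactly `N + 1` letters outside `J`. -/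
theorem low_top (hN : 4 ≤ N) (h2 : ¬ 2 ∣ N + 1) (h3 : ¬ 3 ∣ N + 1) (hν : 0 < ν)
    {f : FreeAlgebra K σ} (hf : f ∈ WD K J (N + 1))
    (hsm : ∀ X : σ → Matrix (Fin N) (Fin N) K, FreeAlgebra.lift K X f = 0)
    (hs : ∃ s, (FreeAlgebra.lift K (mt J (ca K σ N) (cR K σ N)) f) ^ ν = Matrix.scalar _ s) :
    ∃ c, FreeAlgebra.lift K (mt J (ca K σ N) (cR K σ N)) f = Matrix.scalar _ c := by
  obtain ⟨s, hs⟩ := hs
  exact (ws J hν hf hsm s hs).scalar hN h2 h3 hν

end Low

end Pool.Agent.TH901.NC
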