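import Mathlib
import Pool.Agent.TH901.NC.Deg

/-!
Polynomials with at most `m` letters outside `J`; scaling of the variables outside `J`.
-/

set_option autoImplicit false
set_option linter.all false

universe u

namespace Pool.Agent.TH901.NC

open Matrix Pool.Agent.H552R3.PC Pool.Agent.TH46.NC Polynomial

section Spaces

variable {K : Type u} [Field K] {σ : Type*} (J : σ → Prop) [DecidablePred J]

/-- Linear combinations of words with at most `m` letters outside `J`. -/
def WDle (K : Type u) [Field K] {σ : Type*} (J : σ → Prop) [DecidablePred J] (m : ℕ) :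
    Submodule K (FreeAlgebra K σ) :=
  Submodule.span K {w : FreeAlgebra K σ | ∃ l : List σ, yd J l ≤ m ∧
    w = (l.map (FreeAlgebra.ι K)).prod}

/-- Linear combinations of words with more than `m` letters outside `J`. -/
def WDgt (K : Type u) [Field K] {σ : Type*} (J : σ → Prop) [DecidablePred J] (m : ℕ) :
    Submodule K (FreeAlgebra K σ) :=
  Submodule.span K {w : FreeAlgebra K σ | ∃ l : List σ, m < yd J l ∧
    w = (l.map (FreeAlgebra.ι K)).prod}

theorem decompose {m : ℕ} {f : FreeAlgebra K σ} (hf : f ∈ WDle K J m) :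
    ∃ F : ℕ → FreeAlgebra K σ, (∀ d, F d ∈ WD K J d) ∧ f = ∑ d ∈ Finset.range (m + 1), F d := by
  refine Submodule.span_induction (p := fun f _ => ∃ F : ℕ → FreeAlgebra K σ,
    (∀ d, F d ∈ WD K J d) ∧ f = ∑ d ∈ Finset.range (m + 1), F d) ?_ ?_ ?_ ?_ hf
  · rintro _ ⟨l, hl, rfl⟩
    refine ⟨fun d => if d = yd J l then (l.map (FreeAlgebra.ι K)).prod else 0, fun d => ?_, ?_⟩
    · show (if d = yd J l then (l.map (FreeAlgebra.ι K)).prod else 0) ∈ WD K J d
      split_ifs with h
      · exact Submodule.subset_span ⟨l, h.symm, rfl⟩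
      · exact Submodule.zero_mem _
    · rw [Finset.sum_ite_eq', if_pos (Finset.mem_range.mpr (by omega))]
  · exact ⟨fun _ => 0, fun d => Submodule.zero_mem _, by simp⟩
  · rintro _ _ _ _ ⟨F, hF, rfl⟩ ⟨F', hF', rfl⟩
    exact ⟨fun d => F d + F' d, fun d => Submodule.add_mem _ (hF d) (hF' d),
      Finset.sum_add_distrib.symm⟩
  · rintro c _ _ ⟨F, hF, rfl⟩
    exact ⟨fun d => c • F d, fun d => Submodule.smul_mem _ c (hF d), Finset.smul_sum⟩

end Spaces

section Scale

variable {K : Type*} [Field K] {σ : Type*} (J : σ → Prop) [DecidablePred J] {n : ℕ}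
  {A : Type*} [CommRing A] [Algebra K A] (U : σ → Matrix (Fin n) (Fin n) A)

/-- The matrices outside `J` are multiplied by a parameter. -/
noncomputable def Sc (s : σ) : Matrix (Fin n) (Fin n) A[X] :=
  if J s then (U s).map C else (X : A[X]) • (U s).map C

theorem Sc_word (l : List σ) : (l.map (Sc J U)).prod =
    (X ^ (yd J l) : A[X]) • ((l.map U).prod).map C := by
  induction l with
  | nil =>
    rw [yd_nil, pow_zero, one_smul, List.map_nil, List.map_nil, List.prod_nil, List.prod_nil,
      Matrix.map_one _ (map_zero _) (map_one _)]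
  | cons s l ih =>
    rw [List.map_cons, List.prod_cons, List.map_cons, List.prod_cons, ih, Matrix.map_mul, Sc]
    by_cases h : J s
    · rw [if_pos h, yd_cons_self J h, Matrix.mul_smul]
    · rw [if_neg h, yd_cons_of_ne J h, Matrix.smul_mul, Matrix.mul_smul, smul_smul, pow_succ']

theorem Sc_WD {d : ℕ} {F : FreeAlgebra K σ} (hF : F ∈ WD K J d) :
    FreeAlgebra.lift K (Sc J U) F = (X ^ d : A[X]) • (FreeAlgebra.lift K U F).map C := by
  refine Submodule.span_induction (p := fun F _ => FreeAlgebra.lift K (Sc J U) F =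
    (X ^ d : A[X]) • (FreeAlgebra.lift K U F).map C) ?_ ?_ ?_ ?_ hF
  · rintro _ ⟨l, hl, rfl⟩
    rw [lift_word, lift_word, Sc_word, hl]
  · rw [map_zero, map_zero, Matrix.map_zero _ (map_zero _), smul_zero]
  · rintro f g _ _ h1 h2
    rw [map_add, map_add, h1, h2, Matrix.map_add _ (map_add _), smul_add]
  · rintro c f _ h1
    rw [map_smul, map_smul, h1]
    ext1 j k
    simp only [Matrix.smul_apply, Matrix.map_apply, smul_eq_mul]
    rw [Algebra.smul_def c (FreeAlgebra.lift K U f j k), map_mul,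
      Algebra.smul_def c (_ * _), Polynomial.algebraMap_apply]
    ring

theorem Sc_gt {d : ℕ} {F : FreeAlgebra K σ} (hF : F ∈ WDgt K J d) :
    ∃ R : Matrix (Fin n) (Fin n) A[X], FreeAlgebra.lift K (Sc J U) F = (X ^ (d + 1) : A[X]) • R := by
  refine Submodule.span_induction (p := fun F _ => ∃ R : Matrix (Fin n) (Fin n) A[X],
    FreeAlgebra.lift K (Sc J U) F = (X ^ (d + 1) : A[X]) • R) ?_ ?_ ?_ ?_ hF
  · rintro _ ⟨l, hl, rfl⟩
    refine ⟨(X ^ (yd J l - (d + 1)) : A[X]) • ((l.map U).prod).map C, ?_⟩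
    rw [lift_word, Sc_word, smul_smul, ← pow_add]
    congr 2
    omega
  · exact ⟨0, by rw [map_zero, smul_zero]⟩
  · rintro f g _ _ ⟨R, hR⟩ ⟨R', hR'⟩
    exact ⟨R + R', by rw [map_add, hR, hR', smul_add]⟩
  · rintro c f _ ⟨R, hR⟩
    exact ⟨c • R, by rw [map_smul, hR, smul_comm]⟩

end Scale

end Pool.Agent.TH901.NC
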