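import Mathlib
import Pool.Agent.TH901.NC.Final

/-!
If a power of a polynomial has scalar values on matrices of size `N + 1`, then the polynomial is
constant on matrices of size `N`.
-/

set_option autoImplicit false
set_option linter.all false

universe u

namespace Pool.Agent.TH901.NC

open Matrix Pool.Agent.H552R3.PC Pool.Agent.TH46.NC Polynomial

/-- Every exponent is a power of the characteristic exponent times an invertible number. -/
theorem split_exp' (K : Type*) [Field K] {ν : ℕ} (hν : 0 < ν) :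
    ∃ p k m : ℕ, ExpChar K p ∧ 0 < m ∧ ν = p ^ k * m ∧ (m : K) ≠ 0 := by
  obtain ⟨p, hp⟩ := CharP.exists K
  rcases CharP.char_is_prime_or_zero K p with hpp | rfl
  · obtain ⟨k, m, hm, e⟩ := Nat.exists_eq_pow_mul_and_not_dvd hν.ne' p hpp.ne_one
    haveI : Fact p.Prime := ⟨hpp⟩
    refine ⟨p, k, m, ExpChar.prime hpp, ?_, e, ?_⟩
    · rcases Nat.eq_zero_or_pos m with rfl | h
      · exact absurd (dvd_zero p) hm
      · exact h
    · rw [Ne, CharP.cast_eq_zero_iff K p]; exact hm
  · haveI : CharZero K := CharP.charP_to_charZero K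
    refine ⟨1, 0, ν, ExpChar.zero, hν, by rw [pow_zero, one_mul], ?_⟩
    exact Nat.cast_ne_zero.mpr hν.ne'

variable {K : Type*} [Field K] {σ : Type*}

/-- The constant term. -/
noncomputable def ct (f : FreeAlgebra K σ) : K := FreeAlgebra.lift K (fun _ : σ => (0 : K)) f

theorem ct_pow (f : FreeAlgebra K σ) (ν : ℕ) : ct (f ^ ν) = ct f ^ ν := map_pow _ _ _

theorem lift_zero' {B : Type*} [Ring B] [Algebra K B] (f : FreeAlgebra K σ) :
    FreeAlgebra.lift K (fun _ : σ => (0 : B)) f = algebraMap K B (ct f) := by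
  unfold ct
  induction f using FreeAlgebra.induction with
  | grade0 c => rw [AlgHom.commutes, AlgHom.commutes]; rfl
  | grade1 i => rw [FreeAlgebra.lift_ι_apply, FreeAlgebra.lift_ι_apply, map_zero]
  | mul a b ha hb => rw [map_mul, map_mul, ha, hb, map_mul]
  | add a b ha hb => rw [map_add, map_add, ha, hb, map_add]

theorem lift_emb0 {B : Type*} [CommRing B] [Algebra K B] {p q : ℕ}
    (P : Matrix (Fin p) (Fin q) B) (Q : Matrix (Fin q) (Fin p) B) (hQP : Q * P = 1)
    (X : σ → Matrix (Fin q) (Fin q) B) (f : FreeAlgebra K σ) :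
    FreeAlgebra.lift K (fun s => P * X s * Q) f = P * FreeAlgebra.lift K X f * Q +
      algebraMap K B (ct f) • (1 - P * Q) := by
  have hE : P * Q * (P * Q) = P * Q := by
    rw [Matrix.mul_assoc, ← Matrix.mul_assoc Q, hQP, Matrix.one_mul]
  have h1 : ∀ M : Matrix (Fin q) (Fin q) B, P * M * Q * (P * Q) = P * M * Q := by
    intro M
    rw [Matrix.mul_assoc (P * M), ← Matrix.mul_assoc Q, hQP, Matrix.one_mul]
  have h2 : ∀ M : Matrix (Fin q) (Fin q) B, P * Q * (P * M * Q) = P * M * Q := by
    intro M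
    rw [Matrix.mul_assoc P Q, ← Matrix.mul_assoc Q, ← Matrix.mul_assoc Q, hQP, Matrix.one_mul,
      ← Matrix.mul_assoc]
  have h3 : ∀ M M' : Matrix (Fin q) (Fin q) B, P * M * Q * (P * M' * Q) = P * (M * M') * Q := by
    intro M M'
    calc P * M * Q * (P * M' * Q) = P * M * (Q * P) * M' * Q := by
          simp only [Matrix.mul_assoc]
      _ = _ := by rw [hQP, Matrix.mul_one]; simp only [Matrix.mul_assoc]
  unfold ct
  induction f using FreeAlgebra.induction with
  | grade0 c =>
    rw [AlgHom.commutes, AlgHom.commutes, AlgHom.commutes]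
    rw [Algebra.algebraMap_eq_smul_one, Algebra.algebraMap_eq_smul_one (A := Matrix (Fin q) (Fin q) B),
      Matrix.mul_smul, Matrix.smul_mul, Matrix.mul_one]
    rw [show (algebraMap K K) c = c from rfl, algebraMap_smul, smul_sub]
    abel
  | grade1 i =>
    rw [FreeAlgebra.lift_ι_apply, FreeAlgebra.lift_ι_apply, FreeAlgebra.lift_ι_apply, map_zero,
      zero_smul, add_zero]
  | mul a b ha hb =>
    rw [map_mul, map_mul, map_mul, ha, hb, map_mul, ← h3]
    set a1 := P * FreeAlgebra.lift K X a * Q with ha1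
    set b1 := P * FreeAlgebra.lift K X b * Q with hb1
    have e1 : a1 * (P * Q) = a1 := h1 _
    have e2 : (P * Q) * b1 = b1 := h2 _
    rw [add_mul, mul_add, mul_add, Matrix.mul_smul, Matrix.smul_mul, Matrix.smul_mul,
      Matrix.mul_smul, mul_sub, mul_one, e1, sub_self, smul_zero, add_zero, sub_mul, one_mul, e2,
      sub_self, smul_zero, zero_add, mul_sub, mul_one, sub_mul, one_mul, hE, sub_self, sub_zero,
      smul_smul]
  | add a b ha hb =>
    rw [map_add, map_add, map_add, ha, hb, map_add, Matrix.mul_add, Matrix.add_mul, add_smul]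
    abel

variable {N ν : ℕ} [Infinite K]

/-- The power of `f` is constant on smaller matrices. -/
theorem pow_small (f : FreeAlgebra K σ)
    (hsc : ∀ (X : σ → Matrix (Fin (N + 1)) (Fin (N + 1)) K) (Z : Matrix (Fin (N + 1)) (Fin (N + 1)) K),
      FreeAlgebra.lift K X f * Z = Z * FreeAlgebra.lift K X f)
    (X : σ → Matrix (Fin N) (Fin N) K) :
    FreeAlgebra.lift K X f = Matrix.scalar _ (ct f) := by
  set z : Fin (N + 1) := Fin.last N
  set P := Pz K z with hP
  have hQP := Pz_mul (B := K) z
  have h1 := lift_emb0 P P.transpose hQP X f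
  obtain ⟨c, hc⟩ := scalar_of_comm _ (hsc (fun s => P * X s * P.transpose))
  rw [hc] at h1
  have hz : (P * P.transpose) z z = 0 := by
    have := Pz_zero (B := K) z 1 P.transpose z
    rw [Matrix.mul_one] at this
    exact this
  have h2 := congrFun (congrFun h1 z) z
  rw [Matrix.add_apply, Pz_zero, zero_add, Matrix.smul_apply, Matrix.sub_apply, hz,
    Matrix.one_apply_eq, sub_zero, smul_eq_mul, mul_one, Matrix.scalar_apply,
    Matrix.diagonal_apply_eq] at h2
  have h3 : c = ct f := h2
  have h4 := congrArg (fun M => P.transpose * M * P) h1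
  have h5 : P.transpose * (P * FreeAlgebra.lift K X f * P.transpose +
      algebraMap K K (ct f) • (1 - P * P.transpose)) * P = FreeAlgebra.lift K X f := by
    rw [Matrix.mul_add, Matrix.add_mul]
    have e1 : P.transpose * (P * FreeAlgebra.lift K X f * P.transpose) * P =
        (P.transpose * P) * FreeAlgebra.lift K X f * (P.transpose * P) := by
      simp only [Matrix.mul_assoc]
    have e2 : P.transpose * (1 - P * P.transpose) = 0 := by
      rw [Matrix.mul_sub, Matrix.mul_one, ← Matrix.mul_assoc, hQP, Matrix.one_mul, sub_self]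
    rw [e1, hQP, Matrix.one_mul, Matrix.mul_one, Matrix.mul_smul, e2, smul_zero, Matrix.zero_mul,
      add_zero]
  have h6 : P.transpose * (Matrix.scalar (Fin (N + 1)) c) * P = Matrix.scalar (Fin N) c := by
    have e3 : (Matrix.scalar (Fin (N + 1)) c : Matrix _ _ K) = c • 1 := by
      ext i j
      by_cases h : i = j
      · subst h; simp
      · simp [Matrix.diagonal_apply_ne _ h, h]
    have e4 : (Matrix.scalar (Fin N) c : Matrix _ _ K) = c • 1 := by
      ext i j
      by_cases h : i = j
      · subst h; simp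
      · simp [Matrix.diagonal_apply_ne _ h, h]
    rw [e3, e4, Matrix.mul_smul, Matrix.smul_mul, Matrix.mul_one, hQP]
  have h7 : P.transpose * (Matrix.scalar (Fin (N + 1)) c) * P =
      P.transpose * (P * FreeAlgebra.lift K X f * P.transpose +
      algebraMap K K (ct f) • (1 - P * P.transpose)) * P := h4
  rw [h6, h5, h3] at h7
  exact h7.symm

theorem scalar_eq_algebraMap {n : ℕ} {B : Type*} [CommRing B] [Algebra K B] (c : K) :
    (Matrix.scalar (Fin n) (algebraMap K B c) : Matrix _ _ B) = algebraMap K (Matrix _ _ B) c := by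
  ext i j
  rw [Matrix.algebraMap_matrix_apply]
  by_cases h : i = j
  · subst h; simp
  · simp [Matrix.diagonal_apply_ne _ h, h]

theorem low_Sc {n : ℕ} (X : σ → Matrix (Fin n) (Fin n) K) (f : FreeAlgebra K σ) :
    (constantCoeff : K[X] →+* K).mapMatrix (FreeAlgebra.lift K (Sc (fun _ => False) X) f) =
      Matrix.scalar _ (ct f) := by
  have h1 : (Polynomial.aeval (0 : K) : K[X] →ₐ[K] K).mapMatrix
      (FreeAlgebra.lift K (Sc (fun _ => False) X) f) = Matrix.scalar _ (ct f) := by
    rw [lift_map]
    have h2 : (fun i => (Polynomial.aeval (0 : K) : K[X] →ₐ[K] K).mapMatrix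
        (Sc (fun _ => False) X i)) = fun _ => (0 : Matrix (Fin n) (Fin n) K) := by
      funext s
      ext1 i j
      rw [AlgHom.mapMatrix_apply, Matrix.map_apply, Sc, if_neg not_false, Matrix.smul_apply,
        smul_eq_mul, map_mul, aeval_X, zero_mul]
      rfl
    rw [h2, lift_zero', ← scalar_eq_algebraMap]
    rfl
  rw [← h1]
  ext1 i j
  show Polynomial.constantCoeff _ = Polynomial.aeval 0 _
  rw [constantCoeff_apply, coeff_zero_eq_aeval_zero]
  rfl

theorem one_Sc {n : ℕ} {A : Type*} [CommRing A] [Algebra K A] (J : σ → Prop) [DecidablePred J]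
    (X : σ → Matrix (Fin n) (Fin n) A) (f : FreeAlgebra K σ) :
    (evalRingHom (1 : A)).mapMatrix (FreeAlgebra.lift K (Sc J X) f) = FreeAlgebra.lift K X f := by
  have h1 : ((Polynomial.aeval (1 : A) : A[X] →ₐ[A] A).restrictScalars K).mapMatrix
      (FreeAlgebra.lift K (Sc J X) f) = FreeAlgebra.lift K X f := by
    rw [lift_map]
    refine congrArg (fun W => FreeAlgebra.lift K W f) ?_
    funext s
    ext1 i j
    by_cases h : J s
    · have e : Sc J X s = (X s).map C := if_pos h
      rw [e]
      exact Polynomial.aeval_C _ _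
    · have e : Sc J X s = (Polynomial.X : A[X]) • (X s).map C := if_neg h
      rw [e]
      show Polynomial.aeval (1 : A) ((Polynomial.X : A[X]) * C (X s i j)) = _
      rw [map_mul, aeval_X, one_mul]
      exact Polynomial.aeval_C _ _
  rw [← h1]
  ext1 i j
  show Polynomial.eval 1 _ = Polynomial.aeval 1 _
  rw [Polynomial.coe_aeval_eq_eval]

theorem const_small (hN : 0 < N) (hν : 0 < ν) (f : FreeAlgebra K σ)
    (hsc : ∀ (X : σ → Matrix (Fin (N + 1)) (Fin (N + 1)) K) (Z : Matrix (Fin (N + 1)) (Fin (N + 1)) K),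
      FreeAlgebra.lift K X (f ^ ν) * Z = Z * FreeAlgebra.lift K X (f ^ ν))
    (X : σ → Matrix (Fin N) (Fin N) K) :
    FreeAlgebra.lift K X f = Matrix.scalar _ (ct f) := by
  haveI : NeZero N := ⟨hN.ne'⟩
  have hpow : ∀ X : σ → Matrix (Fin N) (Fin N) K, FreeAlgebra.lift K X (f ^ ν) =
      Matrix.scalar _ (ct f ^ ν) := by
    intro X
    rw [pow_small (f ^ ν) hsc X, ct_pow]
  by_cases he : ct f = 0
  · rw [he, map_zero]
    refine zero_of_nil f ν (fun X => ?_) X
    rw [← map_pow, hpow, he, zero_pow hν.ne', map_zero]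
  obtain ⟨p, k, m, hp, hm, rfl, hmK⟩ := split_exp' K hν
  have htr : ∀ X : σ → Matrix (Fin N) (Fin N) K,
      FreeAlgebra.lift K X (f ^ (p ^ k * m) - algebraMap K _ (ct f ^ (p ^ k * m))) = 0 := by
    intro X
    rw [map_sub, hpow, AlgHom.commutes, sub_eq_zero]
    exact scalar_eq_algebraMap (K := K) (B := K) _
  have hq : ∀ X : σ → Matrix (Fin N) (Fin N) K, (FreeAlgebra.lift K X f) ^ (p ^ k) =
      Matrix.scalar _ (ct f ^ (p ^ k)) := by
    intro X
    set P := FreeAlgebra.lift K (Sc (fun _ => False) X) f with hP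
    have h1 : P ^ (p ^ k * m) = Matrix.scalar _ (C (ct f ^ (p ^ k * m))) := by
      have h2 := transfer _ htr (Sc (fun _ => False) X)
      rw [map_sub, AlgHom.commutes, sub_eq_zero, map_pow] at h2
      rw [hP, h2]
      exact (scalar_eq_algebraMap (B := K[X]) _).symm
    have hlow : (constantCoeff : K[X] →+* K).mapMatrix (P ^ (p ^ k)) =
        Matrix.scalar _ (ct f ^ (p ^ k)) := by
      rw [map_pow, hP, low_Sc, map_pow]
    obtain ⟨S, hS⟩ : ∃ S, P ^ (p ^ k) = Matrix.scalar _ S := by
      have h5 := Matrix.mem_range_scalar_iff_commute_single'.mpr (fun i j => by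
        show Matrix.single i j 1 * (P ^ (p ^ k)) = (P ^ (p ^ k)) * Matrix.single i j 1
        refine (comm_of_low (P ^ (p ^ k)) (Matrix.single i j 1) _
          (pow_ne_zero _ he) hm hlow hmK ?_).symm
        rw [← pow_mul, h1]
        exact (Matrix.scalar_commute _ (fun _ => Commute.all _ _) _).eq)
      obtain ⟨c, hc⟩ := h5
      exact ⟨c, hc.symm⟩
    have h0 : S.coeff 0 = ct f ^ (p ^ k) := by
      rw [hS] at hlow
      have := congrFun (congrFun hlow 0) 0
      simpa using this
    have h3 : S ^ m = C (ct f ^ (p ^ k * m)) := by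
      rw [pow_mul, hS, ← map_pow] at h1
      have := congrFun (congrFun h1 0) 0
      simpa using this
    have h4 : S.natDegree = 0 := by
      have := congrArg Polynomial.natDegree h3
      rw [natDegree_pow, natDegree_C] at this
      rcases Nat.mul_eq_zero.mp this with h | h
      · omega
      · exact h
    have h5 : S = C (ct f ^ (p ^ k)) := by
      rw [eq_C_of_natDegree_eq_zero h4, h0]
    have h6 := congrArg ((evalRingHom (1 : K)).mapMatrix (m := Fin N)) hS
    rw [map_pow, hP, one_Sc, h5] at h6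
    rw [h6]
    ext1 i j
    by_cases h : i = j
    · subst h; simp
    · simp [Matrix.diagonal_apply_ne _ h]
  have hn : ∀ X : σ → Matrix (Fin N) (Fin N) K,
      (FreeAlgebra.lift K X (f - algebraMap K _ (ct f))) ^ (p ^ k) = 0 := by
    intro X
    haveI : ExpChar (Matrix (Fin N) (Fin N) K) p :=
      expChar_of_injective_algebraMap (algebraMap K _).injective p
    have hcomm : Commute (FreeAlgebra.lift K X f) (algebraMap K (Matrix (Fin N) (Fin N) K) (ct f)) :=
      (Algebra.commutes _ _).symm
    rw [map_sub, AlgHom.commutes, sub_pow_expChar_pow_of_commute p k hcomm, hq, ← map_pow, sub_eq_zero]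
    exact scalar_eq_algebraMap (K := K) (B := K) _
  have h7 := zero_of_nil _ _ hn X
  rw [map_sub, AlgHom.commutes, sub_eq_zero] at h7
  rw [h7]
  exact (scalar_eq_algebraMap (K := K) (B := K) _).symm

/-- The components with some letters outside `J` vanish on smaller matrices. -/
theorem comp_small (J : σ → Prop) [DecidablePred J] (hN : 0 < N) (hν : 0 < ν) {n : ℕ}
    {g h : FreeAlgebra K σ} {F : ℕ → FreeAlgebra K σ} (hF : ∀ d, F d ∈ WD K J d)
    (hg : g = ∑ d ∈ Finset.range (n + 1), F d) (hh : h ∈ WDgt K J n)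
    (hsc : ∀ (X : σ → Matrix (Fin (N + 1)) (Fin (N + 1)) K) (Z : Matrix (Fin (N + 1)) (Fin (N + 1)) K),
      FreeAlgebra.lift K X ((g + h) ^ ν) * Z = Z * FreeAlgebra.lift K X ((g + h) ^ ν))
    {d : ℕ} (hd : 0 < d) (hdn : d ≤ n)
    (X : σ → Matrix (Fin N) (Fin N) K) : FreeAlgebra.lift K X (F d) = 0 := by
  have h1 : ∀ X : σ → Matrix (Fin N) (Fin N) K,
      FreeAlgebra.lift K X (g + h - algebraMap K _ (ct (g + h))) = 0 := by
    intro X
    rw [map_sub, const_small hN hν _ hsc, AlgHom.commutes, sub_eq_zero]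
    exact scalar_eq_algebraMap (K := K) (B := K) _
  have h2 := transfer _ h1 (Sc J X)
  obtain ⟨R, hR⟩ := Sc_gt J X hh
  rw [map_sub, AlgHom.commutes, map_add, hR, hg, map_sum] at h2
  ext1 i j
  have h3 := congrArg (fun p => Polynomial.coeff p d) (congrFun (congrFun h2 i) j)
  simp only [Matrix.sub_apply, Matrix.add_apply, Matrix.sum_apply, coeff_sub, coeff_add,
    finset_sum_coeff, Matrix.zero_apply, coeff_zero] at h3
  have h4 : ∀ b ∈ Finset.range (n + 1), ((FreeAlgebra.lift K (Sc J X) (F b)) i j).coeff d =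
      if b = d then FreeAlgebra.lift K X (F d) i j else 0 := by
    intro b _
    rw [Sc_WD J X (hF b), Matrix.smul_apply, Matrix.map_apply, smul_eq_mul, coeff_X_pow_mul']
    by_cases hb : b = d
    · subst hb
      rw [if_pos le_rfl, Nat.sub_self, coeff_C_zero, if_pos rfl]
    · rw [if_neg hb]
      split_ifs with h5
      · exact coeff_C_ne_zero (by omega)
      · rfl
  have h5 : ((Polynomial.X ^ (n + 1) : K[X]) • R) i j = Polynomial.X ^ (n + 1) * R i j := rfl
  have h6 : ((algebraMap K (Matrix (Fin N) (Fin N) K[X]) (ct (g + h))) i j).coeff d = 0 := by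
    rw [Matrix.algebraMap_matrix_apply]
    split_ifs
    · rw [Polynomial.algebraMap_apply]
      exact coeff_C_ne_zero (by omega)
    · exact coeff_zero _
  rw [Finset.sum_congr rfl h4, Finset.sum_ite_eq', if_pos (Finset.mem_range.mpr (by omega)), h5,
    coeff_X_pow_mul', if_neg (by omega), add_zero] at h3
  rw [Matrix.zero_apply]
  rw [← hg, h6, sub_zero] at h3
  exact h3

end Pool.Agent.TH901.NC
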