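import Mathlib
import Pool.Agent.TH901.NC.Van

/-!
The main theorem.
-/

set_option autoImplicit false
set_option linter.all false

universe u

namespace Pool.Agent.TH901.NC

open Matrix Pool.Agent.H552R3.PC Pool.Agent.TH46.NC Polynomial

theorem cancel_X {A : Type*} [CommRing A] [IsDomain A] {n : ℕ} (e : ℕ)
    (P : Matrix (Fin (n + 1)) (Fin (n + 1)) A[X]) (s : A[X])
    (h : (X ^ e : A[X]) • P = Matrix.scalar _ s) : ∃ s', P = Matrix.scalar _ s' := by
  refine ⟨P 0 0, ?_⟩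
  have hX : (X ^ e : A[X]) ≠ 0 := pow_ne_zero _ X_ne_zero
  ext1 i j
  by_cases hij : i = j
  · subst hij
    have h1 := congrFun (congrFun h i) i
    have h2 := congrFun (congrFun h 0) 0
    rw [Matrix.smul_apply, smul_eq_mul, Matrix.scalar_apply, Matrix.diagonal_apply_eq] at h1 h2
    rw [Matrix.scalar_apply, Matrix.diagonal_apply_eq]
    exact mul_left_cancel₀ hX (h1.trans h2.symm)
  · have h1 := congrFun (congrFun h i) j
    rw [Matrix.smul_apply, smul_eq_mul, Matrix.scalar_apply, Matrix.diagonal_apply_ne _ hij] at h1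
    rw [Matrix.scalar_apply, Matrix.diagonal_apply_ne _ hij]
    exact (mul_eq_zero.mp h1).resolve_left hX

theorem const_scalar {A : Type*} [CommRing A] {n : ℕ} (s : A[X]) :
    (constantCoeff : A[X] →+* A).mapMatrix (Matrix.scalar (Fin n) s) =
      Matrix.scalar (Fin n) (s.coeff 0) := by
  ext1 i j
  show Polynomial.constantCoeff ((Matrix.scalar (Fin n) s) i j) = _
  by_cases h : i = j
  · subst h
    rw [Matrix.scalar_apply, Matrix.diagonal_apply_eq, Matrix.scalar_apply,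
      Matrix.diagonal_apply_eq, constantCoeff_apply]
  · rw [Matrix.scalar_apply, Matrix.diagonal_apply_ne _ h, Matrix.scalar_apply,
      Matrix.diagonal_apply_ne _ h, map_zero]

theorem const_low {A : Type*} [CommRing A] {n : ℕ} (M : Matrix (Fin n) (Fin n) A)
    (R : Matrix (Fin n) (Fin n) A[X]) {e : ℕ} (he : 0 < e) :
    (constantCoeff : A[X] →+* A).mapMatrix (M.map C + (X ^ e : A[X]) • R) = M := by
  ext1 i j
  show Polynomial.constantCoeff (C (M i j) + X ^ e * R i j) = _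
  rw [constantCoeff_apply, coeff_add, coeff_C_zero, coeff_X_pow_mul', if_neg (by omega), add_zero]

theorem map_C_scalar {A : Type*} [CommRing A] {n : ℕ} (c : A) :
    (Matrix.scalar (Fin n) c : Matrix _ _ A).map (C : A → A[X]) = Matrix.scalar (Fin n) (C c) := by
  ext1 i j
  rw [Matrix.map_apply]
  by_cases h : i = j
  · subst h
    rw [Matrix.scalar_apply, Matrix.diagonal_apply_eq, Matrix.scalar_apply,
      Matrix.diagonal_apply_eq]
  · rw [Matrix.scalar_apply, Matrix.diagonal_apply_ne _ h, Matrix.scalar_apply,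
      Matrix.diagonal_apply_ne _ h, C_0]

variable {K : Type u} [Field K] {σ : Type*} (J : σ → Prop) [DecidablePred J] {N ν : ℕ}
  [Infinite K]

theorem key_zero (hN : 4 ≤ N) (h2 : ¬ 2 ∣ N + 1) (h3 : ¬ 3 ∣ N + 1) {μ : ℕ} (hμ : 0 < μ)
    {F : ℕ → FreeAlgebra K σ} (hF : ∀ d, F d ∈ WD K J d)
    (hsm : ∀ d, 0 < d → d ≤ N + 1 → ∀ X : σ → Matrix (Fin N) (Fin N) K,
      FreeAlgebra.lift K X (F d) = 0)
    (R : Matrix (Fin (N + 1)) (Fin (N + 1)) (CA K σ N)[X]) (s : (CA K σ N)[X])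
    (hs : ((X ^ N : (CA K σ N)[X]) •
      ((FreeAlgebra.lift K (mt J (ca K σ N) (cR K σ N)) (F N)).map C + (X ^ 1 : (CA K σ N)[X]) •
        ((FreeAlgebra.lift K (mt J (ca K σ N) (cR K σ N)) (F (N + 1))).map C +
          (X ^ 1 : (CA K σ N)[X]) • R))) ^ μ = Matrix.scalar _ s) :
    FreeAlgebra.lift K (mt J (ca K σ N) (cR K σ N)) (F N) = 0 ∧
      ∃ c, FreeAlgebra.lift K (mt J (ca K σ N) (cR K σ N)) (F (N + 1)) = Matrix.scalar _ c := by
  rw [_root_.smul_pow, ← pow_mul] at hs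
  obtain ⟨s1, hs1⟩ := cancel_X _ _ _ hs
  have h4 := congrArg ((constantCoeff : (CA K σ N)[X] →+* CA K σ N).mapMatrix
    (m := Fin (N + 1))) hs1
  rw [map_pow, const_low _ _ one_pos, const_scalar] at h4
  have h5 := low_eq J (by omega) hμ (hF N) (hsm N (by omega) (by omega)) ⟨_, h4⟩
  refine ⟨h5, ?_⟩
  rw [h5, Matrix.map_zero _ C_0, zero_add, _root_.smul_pow, ← pow_mul] at hs1
  obtain ⟨s2, hs2⟩ := cancel_X _ _ _ hs1
  have h6 := congrArg ((constantCoeff : (CA K σ N)[X] →+* CA K σ N).mapMatrix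
    (m := Fin (N + 1))) hs2
  rw [map_pow, const_low _ _ one_pos, const_scalar] at h6
  exact low_top J hN h2 h3 hμ (hF (N + 1)) (hsm (N + 1) (by omega) le_rfl) ⟨_, h6⟩

/-- The components of degree at most `N + 1` outside `J`. -/
theorem main_comps (hN : 4 ≤ N) (h2 : ¬ 2 ∣ N + 1) (h3 : ¬ 3 ∣ N + 1) (hν : 0 < ν)
    {g h : FreeAlgebra K σ} (hg : g ∈ WDle K J (N + 1)) (hh : h ∈ WDgt K J (N + 1))
    (hsc : ∀ (X : σ → Matrix (Fin (N + 1)) (Fin (N + 1)) K) (Z : Matrix (Fin (N + 1)) (Fin (N + 1)) K),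
      FreeAlgebra.lift K X ((g + h) ^ ν) * Z = Z * FreeAlgebra.lift K X ((g + h) ^ ν)) :
    ∃ F : ℕ → FreeAlgebra K σ, (∀ d, F d ∈ WD K J d) ∧
      g = ∑ d ∈ Finset.range (N + 1 + 1), F d ∧
      (∀ d, 0 < d → d < N → FreeAlgebra.lift K (mt J (ca K σ N) (cR K σ N)) (F d) = 0) ∧
      (∃ c, FreeAlgebra.lift K (mt J (ca K σ N) (cR K σ N)) (F 0) = Matrix.scalar _ c) ∧
      FreeAlgebra.lift K (mt J (ca K σ N) (cR K σ N)) (F N) = 0 ∧
      (∃ c, FreeAlgebra.lift K (mt J (ca K σ N) (cR K σ N)) (F (N + 1)) = Matrix.scalar _ c) := by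
  obtain ⟨F, hF, hgF⟩ := decompose J hg
  have hsm : ∀ d, 0 < d → d ≤ N + 1 → ∀ X : σ → Matrix (Fin N) (Fin N) K,
      FreeAlgebra.lift K X (F d) = 0 := fun d hd hd' X =>
    comp_small J (by omega) hν hF hgF hh hsc hd hd' X
  obtain ⟨R, hR⟩ := Sc_gt J (mt J (ca K σ N) (cR K σ N)) hh
  set U := mt J (ca K σ N) (cR K σ N) with hU
  have hlt : ∀ d, 0 < d → d < N → FreeAlgebra.lift K U (F d) = 0 := fun d hd hd' =>
    low_lt J hd hd' (hF d) (hsm d hd (by omega))
  have hsum : ∀ (φ : ℕ → Matrix (Fin (N + 1)) (Fin (N + 1)) (CA K σ N)[X]),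
      (∀ d, 0 < d → d < N → φ d = 0) →
      ∑ d ∈ Finset.range (N + 1 + 1), φ d = φ 0 + φ N + φ (N + 1) := by
    intro φ hφ
    rw [Finset.sum_range_succ, Finset.sum_range_succ, Finset.sum_eq_single 0]
    · intro b hb hb0
      exact hφ b (by omega) (Finset.mem_range.mp hb)
    · intro h0
      exact absurd (Finset.mem_range.mpr (by omega)) h0
  set T := (X ^ N : (CA K σ N)[X]) •
      ((FreeAlgebra.lift K U (F N)).map C + (X ^ 1 : (CA K σ N)[X]) •
        ((FreeAlgebra.lift K U (F (N + 1))).map C + (X ^ 1 : (CA K σ N)[X]) • R)) with hT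
  have hP : FreeAlgebra.lift K (Sc J U) (g + h) = (FreeAlgebra.lift K U (F 0)).map C + T := by
    rw [map_add, hR, hgF, map_sum, Finset.sum_congr rfl (fun d _ => Sc_WD J U (hF d)),
      hsum _ (fun d hd hd' => by rw [hlt d hd hd', Matrix.map_zero _ C_0, smul_zero]),
      pow_zero, one_smul, hT, smul_add, smul_add, smul_add, smul_smul, smul_smul, smul_smul,
      ← pow_add, ← pow_add]
    abel
  obtain ⟨s, hs⟩ := scalar_of_comm' _ (fun Y => transfer_comm ((g + h) ^ ν) Y (fun X => hsc X Y)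
    (Sc J U))
  rw [map_pow, hP] at hs
  have hN1 : (constantCoeff : (CA K σ N)[X] →+* CA K σ N).mapMatrix
      ((FreeAlgebra.lift K U (F 0)).map C + T) = FreeAlgebra.lift K U (F 0) :=
    const_low _ _ (by omega)
  obtain ⟨c, hc⟩ : ∃ c, FreeAlgebra.lift K U (F 0) = Matrix.scalar _ c := by
    have h4 := congrArg ((constantCoeff : (CA K σ N)[X] →+* CA K σ N).mapMatrix
      (m := Fin (N + 1))) hs
    rw [map_pow, hN1, const_scalar] at h4
    exact low_zero J hν (hF 0) ⟨_, h4⟩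
  have hfin : FreeAlgebra.lift K U (F N) = 0 ∧
      ∃ c, FreeAlgebra.lift K U (F (N + 1)) = Matrix.scalar _ c := by
    by_cases hc0 : c = 0
    · rw [hc, hc0, map_zero, Matrix.map_zero _ C_0, zero_add] at hs
      exact key_zero J hN h2 h3 hν hF hsm R s hs
    · obtain ⟨p, k, m, hp, hm, rfl, hmK⟩ := split_exp' K hν
      have hmA : (m : CA K σ N) ≠ 0 := by
        rw [← map_natCast (algebraMap K (CA K σ N))]
        intro h
        exact hmK ((algebraMap K (CA K σ N)).injective (h.trans (map_zero _).symm))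
      have hlow : (constantCoeff : (CA K σ N)[X] →+* CA K σ N).mapMatrix
          (((FreeAlgebra.lift K U (F 0)).map C + T) ^ (p ^ k)) =
          Matrix.scalar _ (c ^ (p ^ k)) := by
        rw [map_pow, hN1, hc, map_pow]
      obtain ⟨S, hS⟩ : ∃ S, ((FreeAlgebra.lift K U (F 0)).map C + T) ^ (p ^ k) =
          Matrix.scalar _ S := by
        have h5 := Matrix.mem_range_scalar_iff_commute_single'.mpr (fun i j => by
          show Matrix.single i j 1 * (((FreeAlgebra.lift K U (F 0)).map C + T) ^ (p ^ k)) =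
            (((FreeAlgebra.lift K U (F 0)).map C + T) ^ (p ^ k)) * Matrix.single i j 1
          refine (comm_of_low (((FreeAlgebra.lift K U (F 0)).map C + T) ^ (p ^ k))
            (Matrix.single i j 1) _ (pow_ne_zero _ hc0) hm hlow hmA ?_).symm
          rw [← pow_mul, hs]
          exact (Matrix.scalar_commute _ (fun _ => Commute.all _ _) _).eq)
        obtain ⟨c', hc'⟩ := h5
        exact ⟨c', hc'.symm⟩
      refine key_zero J hN h2 h3 (expChar_pow_pos K p k) hF hsm R (S - C c ^ (p ^ k)) ?_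
      show T ^ (p ^ k) = _
      haveI : ExpChar (Matrix (Fin (N + 1)) (Fin (N + 1)) (CA K σ N)[X]) p :=
        expChar_of_injective_algebraMap
          (algebraMap K (Matrix (Fin (N + 1)) (Fin (N + 1)) (CA K σ N)[X])).injective p
      have hcomm : Commute ((FreeAlgebra.lift K U (F 0)).map C + T)
          ((FreeAlgebra.lift K U (F 0)).map C) := by
        rw [hc, map_C_scalar]
        exact (Matrix.scalar_commute _ (fun _ => Commute.all _ _) _).symm
      have h6 := sub_pow_expChar_pow_of_commute p k hcomm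
      rw [add_sub_cancel_left, hS, hc, map_C_scalar, ← map_pow, ← map_sub] at h6
      exact h6
  exact ⟨F, hF, hgF, hlt, ⟨c, hc⟩, hfin.1, hfin.2⟩

theorem main_gen (hN : 4 ≤ N) (h2 : ¬ 2 ∣ N + 1) (h3 : ¬ 3 ∣ N + 1) (hν : 0 < ν)
    {g h : FreeAlgebra K σ} (hg : g ∈ WDle K J (N + 1)) (hh : h ∈ WDgt K J (N + 1))
    (hsc : ∀ (X : σ → Matrix (Fin (N + 1)) (Fin (N + 1)) K) (Z : Matrix (Fin (N + 1)) (Fin (N + 1)) K),
      FreeAlgebra.lift K X ((g + h) ^ ν) * Z = Z * FreeAlgebra.lift K X ((g + h) ^ ν)) :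
    ∃ c, FreeAlgebra.lift K (mt J (ca K σ N) (cR K σ N)) g = Matrix.scalar _ c := by
  obtain ⟨F, hF, hgF, hlt, ⟨c, hc⟩, h5, c', h6⟩ := main_comps J hN h2 h3 hν hg hh hsc
  refine ⟨c + c', ?_⟩
  rw [hgF, map_sum, Finset.sum_range_succ, Finset.sum_range_succ, Finset.sum_eq_single 0, hc, h5,
    h6, add_zero, map_add]
  · intro b hb hb0
    exact hlt b (by omega) (Finset.mem_range.mp hb)
  · intro h0
    exact absurd (Finset.mem_range.mpr (by omega)) h0

/-- The values at tuples with diagonal matrices for the variables of `J`. -/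
theorem main_J (hN : 4 ≤ N) (h2 : ¬ 2 ∣ N + 1) (h3 : ¬ 3 ∣ N + 1) (hν : 0 < ν)
    {g h : FreeAlgebra K σ} (hg : g ∈ WDle K J (N + 1)) (hh : h ∈ WDgt K J (N + 1))
    (hsc : ∀ (X : σ → Matrix (Fin (N + 1)) (Fin (N + 1)) K) (Z : Matrix (Fin (N + 1)) (Fin (N + 1)) K),
      FreeAlgebra.lift K X ((g + h) ^ ν) * Z = Z * FreeAlgebra.lift K X ((g + h) ^ ν))
    {B : Type*} [CommRing B] [Algebra K B] (U : σ → Matrix (Fin (N + 1)) (Fin (N + 1)) B)
    (t : σ → Fin (N + 1) → B) (hU : ∀ s, J s → U s = Matrix.diagonal (t s)) :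
    ∃ c, FreeAlgebra.lift K U g = Matrix.scalar _ c :=
  scalar_special J (main_gen J hN h2 h3 hν hg hh hsc) U t hU

/-- The case of one variable. -/
theorem main_x [DecidableEq σ] (x : σ) (hN : 4 ≤ N) (h2 : ¬ 2 ∣ N + 1) (h3 : ¬ 3 ∣ N + 1)
    (hν : 0 < ν) {g h : FreeAlgebra K σ} (hg : g ∈ WDle K (fun s => s = x) (N + 1))
    (hh : h ∈ WDgt K (fun s => s = x) (N + 1))
    (hsc : ∀ (X : σ → Matrix (Fin (N + 1)) (Fin (N + 1)) K) (Z : Matrix (Fin (N + 1)) (Fin (N + 1)) K),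
      FreeAlgebra.lift K X ((g + h) ^ ν) * Z = Z * FreeAlgebra.lift K X ((g + h) ^ ν))
    (X : σ → Matrix (Fin (N + 1)) (Fin (N + 1)) K) :
    ∃ c, FreeAlgebra.lift K X g = Matrix.scalar _ c :=
  scalar_of_generic x (main_gen (fun s => s = x) hN h2 h3 hν hg hh hsc) X

end Pool.Agent.TH901.NC
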