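import Mathlib
import Pool.Agent.TH901.NC.Main

/-!
The part with few letters outside `J` vanishes if the exponent is invertible.
-/

set_option autoImplicit false
set_option linter.all false

universe u

namespace Pool.Agent.TH901.NC

open Matrix Pool.Agent.H552R3.PC Pool.Agent.TH46.NC Polynomial

section Cong

variable {K : Type*} [Field K] {σ : Type*} {n : ℕ} {A : Type*} [CommRing A] [Algebra K A]

theorem lift_cong (e : ℕ) (W W' : σ → Matrix (Fin n) (Fin n) A[X])
    (h : ∀ s, ∃ R, W s = W' s + (X ^ e : A[X]) • R) (f : FreeAlgebra K σ) :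
    ∃ R, FreeAlgebra.lift K W f = FreeAlgebra.lift K W' f + (X ^ e : A[X]) • R := by
  induction f using FreeAlgebra.induction with
  | grade0 c => exact ⟨0, by rw [AlgHom.commutes, AlgHom.commutes, smul_zero, add_zero]⟩
  | grade1 s =>
    obtain ⟨R, hR⟩ := h s
    exact ⟨R, by rw [FreeAlgebra.lift_ι_apply, FreeAlgebra.lift_ι_apply, hR]⟩
  | mul a b ha hb =>
    obtain ⟨R, hR⟩ := ha
    obtain ⟨R', hR'⟩ := hb
    refine ⟨FreeAlgebra.lift K W' a * R' + R * FreeAlgebra.lift K W' b +
      (X ^ e : A[X]) • (R * R'), ?_⟩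
    rw [map_mul, map_mul, hR, hR']
    simp only [add_mul, mul_add, Matrix.smul_mul, Matrix.mul_smul, smul_add, smul_smul]
    abel
  | add a b ha hb =>
    obtain ⟨R, hR⟩ := ha
    obtain ⟨R', hR'⟩ := hb
    refine ⟨R + R', ?_⟩
    rw [map_add, map_add, hR, hR', smul_add]
    abel

/-- The path from the scaled tuple to an arbitrary one. -/
noncomputable def pth (J : σ → Prop) [DecidablePred J] (e : ℕ)
    (U Z : σ → Matrix (Fin n) (Fin n) A) (s : σ) : Matrix (Fin n) (Fin n) A[X] :=
  Sc J U s + (X ^ e : A[X]) • (Z s - U s).map C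

theorem pth_one (J : σ → Prop) [DecidablePred J] (e : ℕ)
    (U Z : σ → Matrix (Fin n) (Fin n) A) (f : FreeAlgebra K σ) :
    (evalRingHom (1 : A)).mapMatrix (FreeAlgebra.lift K (pth J e U Z) f) =
      FreeAlgebra.lift K Z f := by
  have h1 : ((Polynomial.aeval (1 : A) : A[X] →ₐ[A] A).restrictScalars K).mapMatrix
      (FreeAlgebra.lift K (pth J e U Z) f) = FreeAlgebra.lift K Z f := by
    rw [lift_map]
    refine congrArg (fun W => FreeAlgebra.lift K W f) ?_
    funext s
    have h2 : ((Polynomial.aeval (1 : A) : A[X] →ₐ[A] A).restrictScalars K).mapMatrix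
        (Sc J U s) = U s := by
      ext1 i j
      by_cases h : J s
      · have e : Sc J U s = (U s).map C := if_pos h
        rw [e]
        exact Polynomial.aeval_C _ _
      · have e : Sc J U s = (Polynomial.X : A[X]) • (U s).map C := if_neg h
        rw [e]
        show Polynomial.aeval (1 : A) ((Polynomial.X : A[X]) * C (U s i j)) = _
        rw [map_mul, aeval_X, one_mul]
        exact Polynomial.aeval_C _ _
    have h3 : ((Polynomial.aeval (1 : A) : A[X] →ₐ[A] A).restrictScalars K).mapMatrix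
        ((X ^ e : A[X]) • (Z s - U s).map C) = Z s - U s := by
      ext1 i j
      show Polynomial.aeval (1 : A) ((Polynomial.X ^ e : A[X]) * C ((Z s - U s) i j)) = _
      rw [map_mul, map_pow, aeval_X, one_pow, one_mul]
      exact Polynomial.aeval_C _ _
    rw [pth, map_add, h2, h3]
    abel
  rw [← h1]
  ext1 i j
  show Polynomial.eval 1 _ = Polynomial.aeval 1 _
  rw [Polynomial.coe_aeval_eq_eval]

theorem comb {M : Type*} [AddCommGroup M] [Module A[X] M] (N : ℕ) (a b d r r' : M) :
    a + (X ^ N : A[X]) • (b + (X ^ 1 : A[X]) • (d + (X ^ 1 : A[X]) • r)) +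
      (X ^ (N + 1 + 1) : A[X]) • r' =
    a + (X ^ N : A[X]) • (b + (X ^ 1 : A[X]) • (d + (X ^ 1 : A[X]) • (r + r'))) := by
  simp only [smul_add, smul_smul, ← pow_add]
  have : N + (1 + 1) = N + 1 + 1 := by ring
  rw [this]
  abel

theorem comb' {M : Type*} [AddCommGroup M] [Module A[X] M] (N : ℕ) (a b d r : M) :
    a + (X ^ N : A[X]) • b + (X ^ (N + 1) : A[X]) • d + (X ^ (N + 1 + 1) : A[X]) • r =
    a + (X ^ N : A[X]) • (b + (X ^ 1 : A[X]) • (d + (X ^ 1 : A[X]) • r)) := by
  simp only [smul_add, smul_smul, ← pow_add]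
  have : N + (1 + 1) = N + 1 + 1 := by ring
  rw [this]
  abel

theorem path_comm [IsDomain A] {N ν : ℕ} (hν : 0 < ν) (hN : 0 < N) (hνA : (ν : A) ≠ 0)
    (M0 MN M1 : Matrix (Fin (n + 1)) (Fin (n + 1)) A) (R : Matrix (Fin (n + 1)) (Fin (n + 1)) A[X])
    (c c' : A) (h0 : M0 = Matrix.scalar _ c) (hMN : MN = 0) (h1 : M1 = Matrix.scalar _ c')
    (hcc : c ≠ 0 ∨ c' ≠ 0) (s : A[X])
    (hs : (M0.map C + (X ^ N : A[X]) • (MN.map C + (X ^ 1 : A[X]) • (M1.map C +
      (X ^ 1 : A[X]) • R))) ^ ν = Matrix.scalar _ s) (Y : Matrix (Fin (n + 1)) (Fin (n + 1)) A[X]) :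
    (M0.map C + (X ^ N : A[X]) • (MN.map C + (X ^ 1 : A[X]) • (M1.map C +
      (X ^ 1 : A[X]) • R))) * Y = Y * (M0.map C + (X ^ N : A[X]) • (MN.map C +
      (X ^ 1 : A[X]) • (M1.map C + (X ^ 1 : A[X]) • R))) := by
  by_cases hc0 : c = 0
  · have hc' : c' ≠ 0 := by
      rcases hcc with h | h
      · exact absurd hc0 h
      · exact h
    rw [h0, hc0, map_zero, Matrix.map_zero _ C_0, zero_add, hMN, Matrix.map_zero _ C_0, zero_add,
      smul_smul, ← pow_add] at hs ⊢
    rw [_root_.smul_pow, ← pow_mul] at hs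
    obtain ⟨s2, hs2⟩ := cancel_X _ _ _ hs
    have h7 := comm_of_low (M1.map C + (X ^ 1 : A[X]) • R) Y c' hc' hν
      (by rw [const_low _ _ one_pos, h1]) hνA (by
        rw [hs2]
        exact (Matrix.scalar_commute _ (fun _ => Commute.all _ _) _).eq)
    rw [Matrix.smul_mul, Matrix.mul_smul, h7]
  · refine comm_of_low _ Y c hc0 hν (by rw [const_low _ _ hN, h0]) hνA ?_
    rw [hs]
    exact (Matrix.scalar_commute _ (fun _ => Commute.all _ _) _).eq

theorem path_spec (J : σ → Prop) [DecidablePred J] (e : ℕ)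
    (hinj : Function.Injective (algebraMap K A))
    (U : σ → Matrix (Fin n) (Fin n) A) (Z : σ → Matrix (Fin n) (Fin n) K) (f : FreeAlgebra K σ)
    (hY : ∀ Y, FreeAlgebra.lift K (pth J e U (fun s => (Z s).map (algebraMap K A))) f * Y =
      Y * FreeAlgebra.lift K (pth J e U (fun s => (Z s).map (algebraMap K A))) f) :
    ∃ c, FreeAlgebra.lift K Z f = Matrix.scalar _ c := by
  refine scalar_of_comm _ fun Y => ?_
  have h5 := hY ((Y.map (algebraMap K A)).map C)
  have h6 := congrArg ((evalRingHom (1 : A)).mapMatrix (m := Fin n)) h5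
  rw [map_mul, map_mul, pth_one] at h6
  have h7 : (evalRingHom (1 : A)).mapMatrix ((Y.map (algebraMap K A)).map C) =
      Y.map (algebraMap K A) := by
    ext1 i j
    exact eval_C
  rw [h7] at h6
  have h8 : FreeAlgebra.lift K (fun s => (Z s).map (algebraMap K A)) f =
      (Algebra.ofId K A).mapMatrix (FreeAlgebra.lift K Z f) := by
    rw [lift_map]
    rfl
  have h9 : (Algebra.ofId K A).mapMatrix (FreeAlgebra.lift K Z f * Y) =
      (Algebra.ofId K A).mapMatrix (Y * FreeAlgebra.lift K Z f) := by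
    rw [map_mul, map_mul, ← h8]
    exact h6
  ext1 i j
  have h10 := congrFun (congrFun h9 i) j
  exact hinj h10

end Cong

variable {K : Type u} [Field K] {σ : Type*} (J : σ → Prop) [DecidablePred J] {N ν : ℕ}
  [Infinite K]

theorem main_zero (hN : 4 ≤ N) (h2 : ¬ 2 ∣ N + 1) (h3 : ¬ 3 ∣ N + 1) (hν : 0 < ν)
    (hνK : (ν : K) ≠ 0)
    {g h : FreeAlgebra K σ} (hg : g ∈ WDle K J (N + 1)) (hh : h ∈ WDgt K J (N + 1))
    (hsc : ∀ (X : σ → Matrix (Fin (N + 1)) (Fin (N + 1)) K) (Z : Matrix (Fin (N + 1)) (Fin (N + 1)) K),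
      FreeAlgebra.lift K X ((g + h) ^ ν) * Z = Z * FreeAlgebra.lift K X ((g + h) ^ ν))
    (hne : FreeAlgebra.lift K (mt J (ca K σ N) (cR K σ N)) g ≠ 0)
    (Z : σ → Matrix (Fin (N + 1)) (Fin (N + 1)) K) :
    ∃ c, FreeAlgebra.lift K Z (g + h) = Matrix.scalar _ c := by
  obtain ⟨F, hF, hgF, hlt, ⟨c, hc⟩, h5, c', h6⟩ := main_comps J hN h2 h3 hν hg hh hsc
  obtain ⟨U, hU⟩ : ∃ U, U = mt J (ca K σ N) (cR K σ N) := ⟨_, rfl⟩
  rw [← hU] at hlt hc h5 h6 hne
  obtain ⟨R0, hR0⟩ := Sc_gt J U hh
  obtain ⟨W, hW⟩ : ∃ W, W = pth J (N + 1 + 1) U (fun s => (Z s).map (algebraMap K (CA K σ N))) :=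
    ⟨_, rfl⟩
  obtain ⟨R1, hR1⟩ := lift_cong (K := K) (N + 1 + 1) W (Sc J U)
    (fun s => ⟨_, by rw [hW]; rfl⟩) (g + h)
  have hcc : c ≠ 0 ∨ c' ≠ 0 := by
    by_contra hcon
    push Not at hcon
    apply hne
    rw [hgF, map_sum, Finset.sum_range_succ, Finset.sum_range_succ, Finset.sum_eq_single 0, hc,
      hcon.1, h5, h6, hcon.2, map_zero, add_zero, add_zero]
    · intro b hb hb0
      exact hlt b (by omega) (Finset.mem_range.mp hb)
    · intro h0
      exact absurd (Finset.mem_range.mpr (by omega)) h0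
  have hg1 : FreeAlgebra.lift K (Sc J U) g =
      (FreeAlgebra.lift K U (F 0)).map C + (X ^ N : (CA K σ N)[X]) •
      (FreeAlgebra.lift K U (F N)).map C + (X ^ (N + 1) : (CA K σ N)[X]) •
        (FreeAlgebra.lift K U (F (N + 1))).map C := by
    rw [hgF, map_sum, Finset.sum_range_succ, Finset.sum_range_succ, Finset.sum_eq_single 0,
      Sc_WD J U (hF 0), Sc_WD J U (hF N), Sc_WD J U (hF (N + 1)), pow_zero, one_smul]
    · intro b hb hb0
      rw [Sc_WD J U (hF b), hlt b (by omega) (Finset.mem_range.mp hb), Matrix.map_zero _ C_0,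
        smul_zero]
    · intro h0
      exact absurd (Finset.mem_range.mpr (by omega)) h0
  have hP : FreeAlgebra.lift K W (g + h) =
      (FreeAlgebra.lift K U (F 0)).map C + (X ^ N : (CA K σ N)[X]) •
      ((FreeAlgebra.lift K U (F N)).map C + (X ^ 1 : (CA K σ N)[X]) •
        ((FreeAlgebra.lift K U (F (N + 1))).map C + (X ^ 1 : (CA K σ N)[X]) • (R0 + R1))) := by
    rw [hR1, map_add, hR0, hg1, comb', comb]
  obtain ⟨s, hs⟩ := scalar_of_comm' _ (fun Y => transfer_comm ((g + h) ^ ν) Y (fun X => hsc X Y) W)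
  rw [map_pow, hP] at hs
  have hνA : (ν : CA K σ N) ≠ 0 := by
    rw [← map_natCast (algebraMap K (CA K σ N))]
    intro h
    exact hνK ((algebraMap K (CA K σ N)).injective (h.trans (map_zero _).symm))
  refine path_spec J (N + 1 + 1) (algebraMap K (CA K σ N)).injective U Z (g + h) fun Y => ?_
  rw [← hW, hP]
  exact path_comm hν (by omega) hνA _ _ _ _ c c' hc h5 h6 hcc s hs Y

theorem zero_special {f : FreeAlgebra K σ}
    (h : FreeAlgebra.lift K (mt J (ca K σ N) (cR K σ N)) f = 0)
    {B : Type*} [CommRing B] [Algebra K B] (U : σ → Matrix (Fin (N + 1)) (Fin (N + 1)) B)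
    (t : σ → Fin (N + 1) → B) (hU : ∀ s, J s → U s = Matrix.diagonal (t s)) :
    FreeAlgebra.lift K U f = 0 := by
  set χ : CA K σ N →ₐ[K] B := MvPolynomial.aeval
    (Sum.elim (fun p => t p.1 p.2) (fun p => U p.1 p.2.1 p.2.2)) with hχ
  have e1 : χ.mapMatrix (FreeAlgebra.lift K (mt J (ca K σ N) (cR K σ N)) f) =
      FreeAlgebra.lift K U f := by
    rw [lift_map]
    refine congrArg (fun W => FreeAlgebra.lift K W f) ?_
    funext s
    ext1 i j
    by_cases hs : J s
    · rw [hU s hs, AlgHom.mapMatrix_apply, Matrix.map_apply, mt, if_pos hs]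
      by_cases h : i = j
      · subst h
        rw [Matrix.diagonal_apply_eq, Matrix.diagonal_apply_eq, ca, hχ, MvPolynomial.aeval_X]
        rfl
      · rw [Matrix.diagonal_apply_ne _ h, Matrix.diagonal_apply_ne _ h, map_zero]
    · rw [AlgHom.mapMatrix_apply, Matrix.map_apply, mt, if_neg hs, Matrix.of_apply, cR, hχ,
        MvPolynomial.aeval_X]
      rfl
  rw [← e1, h, map_zero]

theorem zero_of_generic [DecidableEq σ] (x : σ) {f : FreeAlgebra K σ}
    (h : FreeAlgebra.lift K (mt (fun s => s = x) (ca K σ N) (cR K σ N)) f = 0)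
    (X : σ → Matrix (Fin (N + 1)) (Fin (N + 1)) K) :
    FreeAlgebra.lift K X f = 0 := by
  classical
  obtain ⟨lam, hlam⟩ : ∃ lam : Fin (N + 1) → K, Function.Injective lam :=
    ⟨fun i => Infinite.natEmbedding K i, fun i j h =>
      Fin.ext ((Infinite.natEmbedding K).injective h)⟩
  set Fr := FractionRing (Polynomial K) with hFr
  set A := AlgebraicClosure Fr with hA
  letI : Algebra K A := ((algebraMap Fr A).comp ((algebraMap (Polynomial K) Fr).comp
    (algebraMap K (Polynomial K)))).toAlgebra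
  set φ : Polynomial K →+* A := (algebraMap Fr A).comp (algebraMap (Polynomial K) Fr) with hφ
  have hφinj : Function.Injective φ :=
    (algebraMap Fr A).injective.comp (IsFractionRing.injective (Polynomial K) Fr)
  let φa : Polynomial K →ₐ[K] A := { φ with commutes' := fun c => rfl }
  set XL : σ → Matrix (Fin (N + 1)) (Fin (N + 1)) (Polynomial K) := fun v =>
    if v = x then line (X x) lam else (X v).map Polynomial.C with hXL
  set V := FreeAlgebra.lift K XL f with hV
  have hsp : (Polynomial.aeval (0 : K) : Polynomial K →ₐ[K] K).mapMatrix V =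
      FreeAlgebra.lift K X f := by
    rw [hV, lift_map]
    congr 2
    funext v
    by_cases hv : v = x
    · subst hv
      simp only [hXL, if_true]
      exact line_zero _ _
    · simp only [hXL, if_neg hv]
      ext a b
      simp
  obtain ⟨P, Q, t, hPQ, hQP, hT⟩ := exists_diag ((line (X x) lam).map φ)
    (line_separable (X x) lam hlam φ hφinj)
  have hgen : FreeAlgebra.lift K (fun v => φa.mapMatrix (XL v)) f = 0 := by
    set W : σ → Matrix (Fin (N + 1)) (Fin (N + 1)) A := fun v =>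
      if v = x then Matrix.diagonal t else Q * φa.mapMatrix (XL v) * P with hW
    have hc := zero_special (fun s => s = x) h W (fun _ => t)
      (fun s hs => by simp only [hW, if_pos hs])
    have e1 : (fun v => φa.mapMatrix (XL v)) = (fun v => P * W v * Q) := by
      funext v
      by_cases h : v = x
      · subst h
        simp only [hW, if_true]
        rw [← hT]
        simp only [hXL, if_true]
        rfl
      · simp only [hW, if_neg h]
        have : P * (Q * φa.mapMatrix (XL v) * P) * Q =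
          (P * Q) * φa.mapMatrix (XL v) * (P * Q) := by noncomm_ring
        rw [this, hPQ, one_mul, mul_one]
    rw [e1, lift_conj P Q hPQ hQP, hc, mul_zero, zero_mul]
  have hc' : φa.mapMatrix V = 0 := by
    rw [hV, lift_map, hgen]
  have hφa : Function.Injective φa := hφinj
  have hV1 : V = 0 := by
    ext1 p q
    apply hφa
    have e := congrFun (congrFun hc' p) q
    rw [Matrix.zero_apply, map_zero]
    exact e
  rw [← hsp, hV1, map_zero]

end Pool.Agent.TH901.NC
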